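import Pool.Agent.Lib.MP_45bb13_gt.Sm.Defs

/-! Smooth approximation of braids. -/

set_option linter.unusedSectionVars false

namespace Pool.Agent.Lib.MP_45bb13_gt

open Set Filter Topology Complex
open scoped ComplexConjugate ContDiff

lemma sapx_unif {f : ℝ → ℂ} (hf : Continuous f) (he : ∀ t, f (t + 1) = conj (f t)) {δ : ℝ}
    (hδ : 0 < δ) : ∃ r : ℝ, 0 < r ∧ r ≤ 1 / 8 ∧ ∀ t, ∀ x ∈ Metric.ball t r, dist (f x) (f t) ≤ δ := by
  obtain ⟨r, hr, h⟩ := Metric.uniformContinuousOn_iff.1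
    ((isCompact_Icc (a := (-1 : ℝ)) (b := 2)).uniformContinuousOn_of_continuous hf.continuousOn)
    δ hδ
  refine ⟨min r (1 / 8), lt_min hr (by norm_num), min_le_right _ _, fun t x hx => ?_⟩
  have h1 : |x - t| < min r (1 / 8) := hx
  have h2 := abs_lt.1 (h1.trans_le (min_le_right _ _))
  have h3 := Int.floor_le t
  have h4 := Int.lt_floor_add_one t
  have h5 := h (x - ⌊t⌋) ⟨by linarith, by linarith⟩ (t - ⌊t⌋) ⟨by linarith, by linarith⟩
    (by rw [dist_sub_right]; exact h1.trans_le (min_le_left _ _))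
  have h6 := eqv_int he (x - ⌊t⌋) ⌊t⌋
  have h7 := eqv_int he (t - ⌊t⌋) ⌊t⌋
  rw [sub_add_cancel] at h6 h7
  rw [dist_eq_norm] at h5
  rw [dist_eq_norm, h6, h7, ← cj_sub, norm_cj]
  exact h5.le

/-- Smooth equivariant approximation by convolution. -/
theorem exists_apx {f : ℝ → ℂ} (hf : Continuous f) (he : ∀ t, f (t + 1) = conj (f t)) {δ : ℝ}
    (hδ : 0 < δ) : ∃ g : ℝ → ℂ, ContDiff ℝ ∞ g ∧ (∀ t, g (t + 1) = conj (g t)) ∧
      (∀ t, ‖g t - f t‖ < δ) ∧ ((∀ t ∈ Icc (1 / 4 : ℝ) (3 / 4), f t = f (1 / 2)) →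
        ∀ t ∈ Icc (3 / 8 : ℝ) (5 / 8), g t = f (1 / 2)) := by
  obtain ⟨r, hr, hr', h⟩ := sapx_unif hf he (half_pos hδ)
  let φ : ContDiffBump (0 : ℝ) := ⟨r / 2, r, half_pos hr, half_lt_self hr⟩
  refine ⟨MeasureTheory.convolution (φ.normed MeasureTheory.volume) f
    (ContinuousLinearMap.lsmul ℝ ℝ) MeasureTheory.volume,
    φ.hasCompactSupport_normed.contDiff_convolution_left _ φ.contDiff_normed
      hf.locallyIntegrable, fun t => ?_, fun t => ?_, fun hc t ht => ?_⟩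
  · rw [MeasureTheory.convolution_def, MeasureTheory.convolution_def, ← integral_conj]
    refine congrArg _ (funext fun s => ?_)
    rw [add_sub_right_comm, he]
    simp
  · rw [← dist_eq_norm]
    exact (φ.dist_normed_convolution_le hf.aestronglyMeasurable (h t)).trans_lt (half_lt_self hδ)
  · have h1 := hc t ⟨by linarith [ht.1], by linarith [ht.2]⟩
    rw [← h1]
    refine φ.normed_convolution_eq_right fun x hx => ?_
    have h2 : |x - t| < r := hx
    have h3 := abs_lt.1 h2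
    rw [h1]
    exact hc x ⟨by linarith [ht.1], by linarith [ht.2]⟩

theorem Br.exists_apx {ι : Type} [Finite ι] (A : Br ι) {δ : ℝ} (hδ : 0 < δ) :
    ∃ C : Br ι, C.Sm ∧ A.Cl C δ ∧
      ((∀ i, ∀ t ∈ Icc (1 / 4 : ℝ) (3 / 4), A.b i t = A.b i (1 / 2)) →
        ∀ i, ∀ t ∈ Icc (3 / 8 : ℝ) (5 / 8), C.b i t = A.b i (1 / 2)) := by
  obtain ⟨h0, -, h1, -⟩ := A.eps_spec
  choose g g1 g2 g3 g4 using fun i => Pool.Agent.Lib.MP_45bb13_gt.exists_apx (A.cont i) (A.eqv i)
    (lt_min hδ h0)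
  refine ⟨⟨g, fun i => (g1 i).continuous, g2, fun t i j hij => ?_⟩, g1,
    fun i t => (g3 i t).trans_le (min_le_left _ _), fun hc i => g4 i (hc i)⟩
  by_contra hne
  have h2 := h1 t i j hne
  have h3 := (g3 i t).trans_le (min_le_right _ _)
  have h4 := (g3 j t).trans_le (min_le_right _ _)
  have h5 := norm_sub_le (g j t - A.b j t) (g i t - A.b i t)
  rw [show g j t - A.b j t - (g i t - A.b i t) = A.b i t - A.b j t by rw [hij]; ring] at h5
  linarith

end Pool.Agent.Lib.MP_45bb13_gt
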