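import Pool.Agent.Lib.MP_45bb13_gt.Sm.Ldf

/-! The calculus of charts and local diffeomorphisms. -/

set_option linter.unusedSectionVars false

namespace Pool.Agent.Lib.MP_45bb13_gt

open Set Filter Topology Complex
open scoped ComplexConjugate ContDiff

section general

variable {A B C X Y Z : Type} [TopologicalSpace X] [TopologicalSpace Y] [TopologicalSpace Z]
  {P : PS A X} {Q : PS B Y} {R : PS C Z} {f g : CC → X} {x y : CC} {θ : CC → CC}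
  {F F' : X → Y} {p : X}

lemma PS.ch_self (P : PS A X) {a : A} (hx : x ∈ P.dom a) : P.Ch (P.map a) x := by
  exact ⟨a, id, LDf.refl x, hx, .of_forall fun _ => rfl⟩

lemma PS.Ch.comp (h : P.Ch f (θ x)) (hθ : LDf θ x) : P.Ch (f ∘ θ) x := by
  obtain ⟨a, τ, h1, h2, h3⟩ := h
  exact ⟨a, τ ∘ θ, h1.comp hθ, h2, hθ.continuousAt.eventually h3⟩

lemma PS.Ch.congr (h : P.Ch f x) (he : g =ᶠ[𝓝 x] f) : P.Ch g x := by
  obtain ⟨a, τ, h1, h2, h3⟩ := h
  exact ⟨a, τ, h1, h2, by filter_upwards [he, h3] with z e1 e2 using e1.trans e2⟩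

lemma PS.Ch.lemb (hP : P.Good ∞) (h : P.Ch f x) : Lemb f x := by
  obtain ⟨a, τ, h1, h2, h3⟩ := h
  exact ((hP.le h2).comp h1.lemb).congr h3

lemma sch_coord (hP : P.Good ∞) {a b : A} (hx : x ∈ P.dom a) (hy : y ∈ P.dom b)
    (e : P.map a x = P.map b y) :
    ∃ τ, LDf τ x ∧ τ x = y ∧ ∀ᶠ z in 𝓝 x, P.map b (τ z) = P.map a z := by
  obtain ⟨τ, t1, t2, t3⟩ := hP.comp a b x hx y hy e
  obtain ⟨σ, s1, s2, s3⟩ := hP.comp b a y hy x hx e.symm
  obtain ⟨V, hV, iV⟩ := hP.inj a x hx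
  obtain ⟨W, hW, iW⟩ := hP.inj b y hy
  have c1 : Tendsto τ (𝓝 x) (𝓝 y) := t2 ▸ t1.continuousAt
  have c2 : Tendsto σ (𝓝 y) (𝓝 x) := s2 ▸ s1.continuousAt
  refine ⟨τ, ⟨t1, σ, t2 ▸ s1, ?_, ?_⟩, t2, t3⟩
  · filter_upwards [hV, (c2.comp c1).eventually hV, t3, c1.eventually s3] with z r1 r2 r3 r4
    exact iV r2 r1 (r4.trans r3)
  · rw [t2]
    filter_upwards [hW, (c1.comp c2).eventually hW, s3, c2.eventually t3] with z r1 r2 r3 r4
    exact iW r2 r1 (r4.trans r3)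

/-- The change of coordinates between two charts. -/
theorem PS.Ch.trans (hP : P.Good ∞) (h : P.Ch f x) (h' : P.Ch g y) (e : f x = g y) :
    ∃ θ, LDf θ x ∧ θ x = y ∧ ∀ᶠ z in 𝓝 x, f z = g (θ z) := by
  obtain ⟨a, θ₁, h1, h2, h3⟩ := h
  obtain ⟨b, θ₂, k1, k2, k3⟩ := h'
  have e' : P.map a (θ₁ x) = P.map b (θ₂ y) := by
    rw [← h3.self_of_nhds, ← k3.self_of_nhds, e]
  obtain ⟨τ, t1, t2, t3⟩ := sch_coord hP h2 k2 e'
  obtain ⟨ψ, p1, p2, -, p4⟩ := k1.inv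
  have c1 : LDf (τ ∘ θ₁) x := t1.comp h1
  have e1 : (τ ∘ θ₁) x = θ₂ y := t2
  have c2 : LDf (ψ ∘ τ ∘ θ₁) x := LDf.comp (e1 ▸ p1) c1
  have e2 : (ψ ∘ τ ∘ θ₁) x = y := by rw [Function.comp_apply, e1, p2]
  refine ⟨ψ ∘ τ ∘ θ₁, c2, e2, ?_⟩
  have q1 := h1.continuousAt.eventually t3
  have q2 := c1.continuousAt.eventually (e1 ▸ p4)
  have q3 := c2.continuousAt.eventually (e2 ▸ k3)
  filter_upwards [h3, q1, q2, q3] with z r0 r1 r2 r3
  rw [r3, r0, ← r1]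
  exact congrArg (P.map b) r2.symm

theorem LD.ch (hP : P.Good ∞) (h : LD P Q F (g y)) (hg : P.Ch g y) : Q.Ch (F ∘ g) y := by
  obtain ⟨f, x, h1, h2, h3⟩ := h
  obtain ⟨τ, t1, t2, t3⟩ := hg.trans hP h2 h1.symm
  refine (PS.Ch.comp (t2 ▸ h3) t1).congr ?_
  filter_upwards [t3] with z hz using congrArg F hz

theorem LD.comp (hQ : Q.Good ∞) {G : Y → Z} (hG : LD Q R G (F p)) (h : LD P Q F p) :
    LD P R (G ∘ F) p := by
  obtain ⟨f, x, rfl, h2, h3⟩ := h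
  exact ⟨f, x, rfl, h2, LD.ch (g := F ∘ f) hQ hG h3⟩

theorem LD.congr (hP : P.Good ∞) (h : LD P Q F p) (he : F' =ᶠ[𝓝 p] F) : LD P Q F' p := by
  obtain ⟨f, x, rfl, h2, h3⟩ := h
  exact ⟨f, x, rfl, h2, h3.congr ((h2.lemb hP).continuousAt.eventually he)⟩

theorem LD.refl (hP : P.Good ∞) (p : X) : LD P P id p := by
  obtain ⟨a, z, hz, rfl⟩ := hP.cov p
  exact ⟨P.map a, z, rfl, P.ch_self hz, P.ch_self hz⟩

theorem LD.inv (hP : P.Good ∞) (h : LD P Q F p) {G : Y → X} (hG : ∀ᶠ z in 𝓝 p, G (F z) = z) :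
    LD Q P G (F p) := by
  obtain ⟨f, x, rfl, h2, h3⟩ := h
  exact ⟨F ∘ f, x, rfl, h3, h2.congr ((h2.lemb hP).continuousAt.eventually hG)⟩

theorem LD.lemb (hP : P.Good ∞) (hQ : Q.Good ∞) (h : LD P Q F p) : Lemb F p := by
  obtain ⟨f, x, rfl, h2, h3⟩ := h
  obtain ⟨U, u1, u2, u3⟩ := h3.lemb hQ
  obtain ⟨O, o1, o2, o3, -⟩ := (h2.lemb hP).shrink (u2.1.mem_nhds u1)
  refine ⟨f '' O, mem_image_of_mem f o1, o3.of_comp (u2.mono o3.1 o2), ?_⟩
  rintro _ ⟨z, hz, rfl⟩ _ ⟨w, hw, rfl⟩ e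
  rw [u3 (o2 hz) (o2 hw) e]

/-- The inverse of an open embedding that is a local diffeomorphism. -/
theorem LD.symm (hP : P.Good ∞) (φ : OpenPartialHomeomorph X Y)
    (h : ∀ x ∈ φ.source, LD P Q φ x) {q : Y} (hq : q ∈ φ.target) : LD Q P φ.symm q := by
  have h1 := (h _ (φ.map_target hq)).inv hP (φ.eventually_left_inverse (φ.map_target hq))
  rwa [φ.right_inv hq] at h1

/-- If `e` and `F ∘ e` are local diffeomorphisms, so is `F`. -/
theorem LD.of_comp {G : Y → Z} (hP : P.Good ∞) (h : LD P Q F p) (hG : LD P R (G ∘ F) p) :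
    LD Q R G (F p) := by
  obtain ⟨f, x, rfl, h2, h3⟩ := h
  exact ⟨F ∘ f, x, rfl, h3, LD.ch (F := G ∘ F) (g := f) hP hG h2⟩

end general

lemma cv_surj : Function.Surjective cv := by
  rintro ⟨y, z, t⟩
  obtain ⟨z, rfl⟩ := QuotientAddGroup.mk_surjective z
  exact ⟨(y, ⟨z, t⟩), rfl⟩

lemma lo_cv : LO cv univ := by
  have hc : Continuous fun p : CC => ((p.1, (p.2.re : UnitAddCircle), p.2.im) : MM) := by fun_prop
  have ho : IsOpenMap fun p : CC => ((p.1, (p.2.re : UnitAddCircle), p.2.im) : MM) :=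
    IsOpenMap.id.prodMap ((QuotientAddGroup.isOpenMap_coe.prodMap IsOpenMap.id).comp
      equivRealProdCLM.toHomeomorph.isOpenMap)
  exact ⟨isOpen_univ, fun x _ => ho.map_nhds_eq hc.continuousAt⟩

lemma sch_cv_add (z : CC) (n : ℤ) : cv (z.1, z.2 + n) = cv z := by
  refine Prod.ext rfl (Prod.ext ?_ (by simp [cv]))
  show (((z.2 + n).re : ℝ) : UnitAddCircle) = (z.2.re : UnitAddCircle)
  have h : (((n : ℝ)) : UnitAddCircle) = 0 := (AddCircle.coe_eq_zero_iff 1).2 ⟨n, by simp⟩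
  rw [add_re, intCast_re, AddCircle.coe_add, h, add_zero]

lemma sch_cv_eq {x y : CC} (e : cv x = cv y) : ∃ n : ℤ, y = (x.1, x.2 + n) := by
  have e1 : x.1 = y.1 := congrArg (fun p : MM => p.1) e
  have e2 : (x.2.re : UnitAddCircle) = (y.2.re : UnitAddCircle) := congrArg (fun p : MM => p.2.1) e
  have e3 : x.2.im = y.2.im := congrArg (fun p : MM => p.2.2) e
  have e4 : ((y.2.re - x.2.re : ℝ) : UnitAddCircle) = 0 := by rw [AddCircle.coe_sub, e2, sub_self]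
  obtain ⟨n, hn⟩ := (AddCircle.coe_eq_zero_iff 1).1 e4
  rw [zsmul_eq_mul, mul_one] at hn
  refine ⟨n, Prod.ext e1.symm (Complex.ext ?_ ?_)⟩
  · simp [hn]
  · simp [e3]

theorem good_PM : PM.Good ∞ := by
  refine ⟨fun U => ⟨fun hU _ x _ hx => lo_cv.continuousAt trivial (hU.mem_nhds hx), fun h => ?_⟩,
    fun _ => isOpen_univ, fun x => ?_, fun _ z _ => ?_, fun _ _ x _ y _ e => ?_⟩
  · refine isOpen_iff_mem_nhds.2 fun p hp => ?_
    obtain ⟨q, rfl⟩ := cv_surj p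
    rw [← lo_cv.2 q trivial]
    exact h () q trivial hp
  · obtain ⟨q, rfl⟩ := cv_surj x
    exact ⟨(), q, trivial, rfl⟩
  · refine ⟨{w | |w.2.re - z.2.re| < 1 / 2}, (isOpen_lt (by fun_prop) continuous_const).mem_nhds
      (by simp), fun w hw w' hw' e => ?_⟩
    obtain ⟨n, hn⟩ := sch_cv_eq e
    have h1 : w'.2.re = w.2.re + n := by rw [hn]; simp
    have h2 : |w.2.re - z.2.re| < 1 / 2 := hw
    have h3 : |w'.2.re - z.2.re| < 1 / 2 := hw'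
    rw [abs_lt] at h2 h3
    have h4 : (n : ℝ) < 1 := by linarith
    have h5 : (-1 : ℝ) < n := by linarith
    have h6 : n < 1 := by exact_mod_cast h4
    have h7 : -1 < n := by exact_mod_cast h5
    have h8 : n = 0 := by omega
    rw [hn, h8]
    simp
  · obtain ⟨n, hn⟩ := sch_cv_eq e
    exact ⟨fun z => (z.1, z.2 + n), by fun_prop, hn.symm, .of_forall fun z => sch_cv_add z n⟩

lemma ch_cv (q : CC) : PM.Ch cv q := PM.ch_self (a := ()) trivial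

/-- A map of the model space that lifts to a germ of diffeomorphism. -/
lemma ld_of_lift {φ : MM → MM} {q : CC} {θ : CC → CC} (hθ : LDf θ q)
    (h : ∀ᶠ z in 𝓝 q, φ (cv z) = cv (θ z)) : LD PM PM φ (cv q) := by
  exact ⟨cv, q, rfl, ch_cv q, ((ch_cv (θ q)).comp hθ).congr h⟩

variable {ι : Type} [Finite ι]

lemma Br.prC_cv (A : Br ι) (q : CC) : A.prC (cv q) = A.prT q := by
  exact A.prC_eq q.1 q.2.re q.2.im

lemma Br.ch_prT (A : Br ι) {q : CC} (hq : q ∈ A.domT) : A.XP.Ch A.prT q :=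
  A.XP.ch_self (a := none) hq

lemma Br.ld_prC (A : Br ι) {p : MM} (hp : ∀ i, p.1 ≠ A.b i p.2.2) : LD PM A.XP A.prC p := by
  obtain ⟨q, rfl⟩ := cv_surj p
  exact ⟨cv, q, rfl, ch_cv q, (A.ch_prT hp).congr (.of_forall A.prC_cv)⟩

lemma DRel.refl {A : Br ι} (h : A.Sm) : DRel A A := by
  exact ⟨Homeomorph.refl _, fun p => LD.refl h.good p⟩

lemma DRel.symm {A A' : Br ι} (hA : A.Sm) (h : DRel A A') : DRel A' A := by
  obtain ⟨F, hF⟩ := h
  refine ⟨F.symm, fun q => ?_⟩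
  have h1 := (hF (F.symm q)).inv hA.good (G := F.symm) (.of_forall F.symm_apply_apply)
  rwa [F.apply_symm_apply] at h1

lemma DRel.trans {A A' A'' : Br ι} (hA' : A'.Sm) (h : DRel A A') (h' : DRel A' A'') :
    DRel A A'' := by
  obtain ⟨F, hF⟩ := h
  obtain ⟨G, hG⟩ := h'
  exact ⟨F.trans G, fun p => (hG (F p)).comp hA'.good (hF p)⟩

end Pool.Agent.Lib.MP_45bb13_gt
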