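import Pool.Agent.Lib.MP_45bb13_gt.Sm.BeltA
import Pool.Agent.Lib.MP_45bb13_gt.Sm.Ch

/-! The smooth belt trick. -/

set_option linter.unusedSectionVars false

namespace Pool.Agent.Lib.MP_45bb13_gt

open Set Filter Topology Complex
open scoped ComplexConjugate ContDiff

lemma sbelt_norm (m : ℝ) {ρ : ℝ} (hρ : 0 < ρ) (p : MM) :
    ‖(((p.1 - m) / ρ, 2 * ‖p.2.1 - ((3 / 4 : ℝ) : UnitAddCircle)‖) : ℂ × ℝ)‖ = nrm m ρ p := by
  rw [Prod.norm_def, nrm, norm_div, norm_real, Real.norm_eq_abs, abs_of_pos hρ,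
    Real.norm_eq_abs, abs_mul, abs_two, abs_norm]

lemma Gg.nr_cont (G : Gg) (m ρ : ℝ) : Continuous (G.nr m ρ) := by
  unfold Gg.nr
  exact G.cont.comp (by fun_prop)

lemma Gg.nrm_le (G : Gg) (m : ℝ) {ρ : ℝ} (hρ : 0 < ρ) (p : MM) : nrm m ρ p ≤ G.nr m ρ p := by
  rw [← sbelt_norm m hρ]
  exact G.le _

lemma Gg.nr_congr (G : Gg) {m ρ : ℝ} {p q : MM} (h : ‖p.1 - m‖ = ‖q.1 - m‖) (h' : p.2 = q.2) :
    G.nr m ρ p = G.nr m ρ q := by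
  unfold Gg.nr
  refine G.congr _ _ ?_ ?_
  · simp only [norm_div, h]
  · simp only [h']

lemma exists_gg_dom (m : ℝ) {ρ δ : ℝ} (hρ : 0 < ρ) (hδ : 0 < δ) (hδ' : δ < 1) :
    ∃ G : Gg, G.dom m ρ (δ / 2) ⊆ domG m ρ δ := by
  have _ := hδ'
  obtain ⟨G, hG⟩ := exists_gg (half_pos hδ)
  refine ⟨G, fun p hp => ⟨by linarith [hp.1], by linarith [hp.2.1], ?_⟩⟩
  have h1 : G.nr m ρ p ≤ (1 + δ / 2) * nrm m ρ p := by
    rw [← sbelt_norm m hρ]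
    exact hG _
  have h2 := hp.2.2
  by_contra h3
  have h4 : (1 + δ / 2) * nrm m ρ p ≤ (1 + δ / 2) * (1 - δ) :=
    mul_le_mul_of_nonneg_left (not_lt.1 h3) (by linarith)
  nlinarith [mul_pos hδ hδ]

lemma sbelt_N (G : Gg) (m ρ : ℝ) (p : MM) : G.N (beltC m ρ p) = G.nr m ρ p := by
  unfold Gg.nr
  refine G.congr _ _ rfl ?_
  simp only [beltC, abs_mul, abs_beltL, abs_norm]

lemma sbelt_inv (G : Gg) (m : ℝ) {ρ : ℝ} (hρ : 0 < ρ) {ψ ψ' : ℝ → ℂ × ℝ → ℂ × ℝ}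
    (h : ∀ t x, ψ' t (ψ t x) = x) (hn : ∀ t x, G.N (ψ t x) = G.N x)
    (hi : ∀ t x, 1 ≤ G.N x → ψ t x = x) (p : MM) :
    beltU m ρ p.2.2 (ψ' p.2.2 (beltC m ρ (beltU m ρ p.2.2 (ψ p.2.2 (beltC m ρ p))))) = p := by
  rcases lt_or_ge (G.N (beltC m ρ p)) 1 with h1 | h1
  · rw [beltC_U m hρ _ ((G.le _).trans_lt (by rwa [hn])), h, beltU_C m hρ]
  · have h2 := h p.2.2 (beltC m ρ p)
    rw [hi _ _ h1] at h2
    rw [hi _ _ h1, beltU_C m hρ, h2, beltU_C m hρ]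

/-- Linear coordinates on the universal cover. -/
noncomputable def sbelt_cA (m ρ : ℝ) (z : CC) : ℝ × ℂ × ℝ :=
  (z.2.im, (z.1 - m) / ρ, 2 * (z.2.re - 3 / 4))

/-- The inverse coordinates. -/
noncomputable def sbelt_cB (m ρ : ℝ) (w : ℝ × ℂ × ℝ) : CC :=
  (m + ρ * w.2.1, ((3 / 4 + w.2.2 / 2 : ℝ) : ℂ) + (w.1 : ℂ) * I)

lemma sbelt_AB (m : ℝ) {ρ : ℝ} (hρ : 0 < ρ) (w : ℝ × ℂ × ℝ) : sbelt_cA m ρ (sbelt_cB m ρ w) = w := by
  have h : (ρ : ℂ) ≠ 0 := ofReal_ne_zero.2 hρ.ne'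
  refine Prod.ext ?_ (Prod.ext ?_ ?_)
  · simp only [sbelt_cA, sbelt_cB, add_im, ofReal_im, mul_im, ofReal_re, I_im, I_re]
    ring
  · simp only [sbelt_cA, sbelt_cB]
    field_simp
    ring
  · simp only [sbelt_cA, sbelt_cB, add_re, ofReal_im, mul_re, ofReal_re, I_im, I_re]
    ring

lemma sbelt_BA (m : ℝ) {ρ : ℝ} (hρ : 0 < ρ) (z : CC) : sbelt_cB m ρ (sbelt_cA m ρ z) = z := by
  have h : (ρ : ℂ) ≠ 0 := ofReal_ne_zero.2 hρ.ne'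
  refine Prod.ext ?_ (Complex.ext ?_ ?_)
  · simp only [sbelt_cA, sbelt_cB]
    field_simp
    ring
  · simp only [sbelt_cA, sbelt_cB, add_re, ofReal_im, mul_re, ofReal_re, I_im, I_re]
    ring
  · simp only [sbelt_cA, sbelt_cB, add_im, ofReal_im, mul_im, ofReal_re, I_im, I_re]
    ring

lemma sbelt_contDiff_A (m ρ : ℝ) : ContDiff ℝ ∞ (sbelt_cA m ρ) := by
  have h1 : ContDiff ℝ ∞ fun z : CC => z.2.im := imCLM.contDiff.comp contDiff_snd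
  have h2 : ContDiff ℝ ∞ fun z : CC => z.2.re := reCLM.contDiff.comp contDiff_snd
  exact h1.prodMk (((contDiff_fst.sub contDiff_const).div_const _).prodMk
    (contDiff_const.mul (h2.sub contDiff_const)))

lemma sbelt_contDiff_B (m ρ : ℝ) : ContDiff ℝ ∞ (sbelt_cB m ρ) := by
  have h1 : ContDiff ℝ ∞ fun w : ℝ × ℂ × ℝ => ((3 / 4 + w.2.2 / 2 : ℝ) : ℂ) :=
    ofRealCLM.contDiff.comp (contDiff_const.add ((contDiff_snd.comp contDiff_snd).div_const _))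
  have h2 : ContDiff ℝ ∞ fun w : ℝ × ℂ × ℝ => (w.1 : ℂ) := ofRealCLM.contDiff.comp contDiff_fst
  exact (contDiff_const.add (contDiff_const.mul (contDiff_fst.comp contDiff_snd))).prodMk
    (h1.add (h2.mul contDiff_const))

lemma sbelt_U (m ρ t : ℝ) (x : ℂ × ℝ) : beltU m ρ t x = cv (sbelt_cB m ρ (t, x)) := by
  refine Prod.ext rfl (Prod.ext ?_ ?_)
  · simp only [beltU, cv, sbelt_cB, add_re, ofReal_im, mul_re, ofReal_re, I_im, I_re, mul_zero,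
      zero_mul, sub_zero, add_zero]
    exact (AddCircle.coe_add 1 _ _).symm
  · simp only [beltU, cv, sbelt_cB, add_im, ofReal_im, mul_im, ofReal_re, I_im, I_re]
    ring

lemma sbelt_C (m ρ : ℝ) {z : CC} (hz : |z.2.re - 3 / 4| < 1 / 2) :
    beltC m ρ (cv z) = (sbelt_cA m ρ z).2 := by
  refine Prod.ext rfl ?_
  simp only [beltC, cv, sbelt_cA]
  rw [← AddCircle.coe_sub, beltL_of hz]

lemma sbelt_ld (m : ℝ) {ρ : ℝ} (hρ : 0 < ρ) {ψ ψ' : ℝ → ℂ × ℝ → ℂ × ℝ}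
    (c1 : ContDiff ℝ ∞ fun q : ℝ × ℂ × ℝ => ψ q.1 q.2)
    (c2 : ContDiff ℝ ∞ fun q : ℝ × ℂ × ℝ => ψ' q.1 q.2) (i1 : ∀ t x, ψ' t (ψ t x) = x)
    (i2 : ∀ t x, ψ t (ψ' t x) = x) {p : MM} (hp : nrm m ρ p < 1) :
    LD PM PM (fun p : MM => beltU m ρ p.2.2 (ψ p.2.2 (beltC m ρ p))) p := by
  have h1 : ‖p.2.1 - ((3 / 4 : ℝ) : UnitAddCircle)‖ < 1 / 2 := by
    have := (le_max_right _ _).trans_lt hp
    linarith
  have sm : ∀ {χ : ℝ → ℂ × ℝ → ℂ × ℝ}, (ContDiff ℝ ∞ fun q : ℝ × ℂ × ℝ => χ q.1 q.2) →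
      ContDiff ℝ ∞ fun z : CC =>
        sbelt_cB m ρ ((sbelt_cA m ρ z).1, χ (sbelt_cA m ρ z).1 (sbelt_cA m ρ z).2) := fun hχ =>
    (sbelt_contDiff_B m ρ).comp ((contDiff_fst.prodMk hχ).comp (sbelt_contDiff_A m ρ))
  have iv : ∀ {χ χ' : ℝ → ℂ × ℝ → ℂ × ℝ}, (∀ t x, χ' t (χ t x) = x) → ∀ z : CC,
      (fun z : CC => sbelt_cB m ρ ((sbelt_cA m ρ z).1, χ' (sbelt_cA m ρ z).1 (sbelt_cA m ρ z).2))
        (sbelt_cB m ρ ((sbelt_cA m ρ z).1, χ (sbelt_cA m ρ z).1 (sbelt_cA m ρ z).2)) = z := fun h z => by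
    simp only [sbelt_AB m hρ, h, Prod.mk.eta, sbelt_BA m hρ]
  obtain ⟨q, hq, rfl⟩ : ∃ q : CC, |q.2.re - 3 / 4| < 1 / 2 ∧ cv q = p := by
    refine ⟨sbelt_cB m ρ (p.2.2, beltC m ρ p), ?_, by rw [← sbelt_U, beltU_C m hρ]⟩
    rw [← abs_beltL] at h1
    convert h1 using 2
    simp only [sbelt_cB, beltC, add_re, ofReal_im, mul_re, ofReal_re, I_im, I_re]
    ring
  refine ld_of_lift (ldf_of_inv (sm c1).contDiffAt (sm c2).contDiffAt (iv i1) (iv i2)) ?_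
  have hc : Continuous fun z : CC => |z.2.re - 3 / 4| := by fun_prop
  filter_upwards [hc.continuousAt.eventually (gt_mem_nhds hq)] with z hz
  rw [sbelt_C m ρ hz, sbelt_U]
  rfl

theorem sbelt (G : Gg) (m : ℝ) {ρ σ : ℝ} (hρ : 0 < ρ) (h0 : 0 < σ) (h1 : σ < 1) {η : ℝ → ℝ}
    (hη : ContDiff ℝ ∞ η) : ∃ φ : MM ≃ₜ MM, (∀ p, LD PM PM φ p) ∧ (∀ p, (φ p).2.2 = p.2.2) ∧
      (∀ p, G.nr m ρ (φ p) = G.nr m ρ p) ∧
      (∀ p, 1 ≤ G.nr m ρ p ∨ η p.2.2 = 1 ∨ η p.2.2 = -1 → φ p = p) ∧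
      ∀ p, G.nr m ρ p ≤ σ → φ p = (m + ee (η p.2.2) * (p.1 - m), p.2) := by
  obtain ⟨ψ, ψ', c1, c2, i1, i2, n1, e1, e2⟩ := sbelt_core G h0 h1 hη
  have hs : (1 + σ) / 2 < 1 := by linarith
  have n2 : ∀ t x, G.N (ψ' t x) = G.N x := fun t x => by rw [← n1 t (ψ' t x), i2]
  have e3 : ∀ t x, (1 + σ) / 2 ≤ G.N x → ψ t x = x := fun t x h => e1 t x (.inl h)
  have e4 : ∀ t x, (1 + σ) / 2 ≤ G.N x → ψ' t x = x := fun t x h => by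
    have := i1 t x
    rwa [e3 t x h] at this
  refine ⟨⟨⟨fun p => beltU m ρ p.2.2 (ψ p.2.2 (beltC m ρ p)),
    fun p => beltU m ρ p.2.2 (ψ' p.2.2 (beltC m ρ p)),
    sbelt_inv G m hρ i1 n1 fun t x h => e3 t x (hs.le.trans h),
    sbelt_inv G m hρ i2 n2 fun t x h => e4 t x (hs.le.trans h)⟩,
    belt_cont m hρ hs c1.continuous fun t x h => e3 t x (h.trans (G.le x)),
    belt_cont m hρ hs c2.continuous fun t x h => e4 t x (h.trans (G.le x))⟩, fun p => ?_,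
    fun p => rfl, fun p => ?_, fun p hp => ?_, fun p hp => ?_⟩
  · change LD PM PM (fun p : MM => beltU m ρ p.2.2 (ψ p.2.2 (beltC m ρ p))) p
    rcases lt_or_ge (G.nr m ρ p) 1 with h | h
    · exact sbelt_ld m hρ c1 c2 i1 i2 ((G.nrm_le m hρ p).trans_lt h)
    · refine (LD.refl good_PM p).congr good_PM ?_
      filter_upwards [(G.nr_cont m ρ).continuousAt.eventually (lt_mem_nhds (hs.trans_le h))]
        with q hq
      rw [e3 _ _ (by rw [sbelt_N]; exact hq.le), beltU_C m hρ, id]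
  · change G.nr m ρ (beltU m ρ p.2.2 (ψ p.2.2 (beltC m ρ p))) = _
    rcases lt_or_ge (G.N (beltC m ρ p)) 1 with h | h
    · rw [← sbelt_N, beltC_U m hρ _ ((G.le _).trans_lt (by rwa [n1])), n1, sbelt_N]
    · rw [e3 _ _ (hs.le.trans h), beltU_C m hρ]
  · change beltU m ρ p.2.2 (ψ p.2.2 (beltC m ρ p)) = _
    rw [e1 _ _ (hp.imp_left fun h => by rw [sbelt_N]; exact hs.le.trans h), beltU_C m hρ]
  · change beltU m ρ p.2.2 (ψ p.2.2 (beltC m ρ p)) = _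
    rw [e2 _ _ (by rwa [sbelt_N])]
    have h : (ρ : ℂ) ≠ 0 := ofReal_ne_zero.2 hρ.ne'
    refine Prod.ext ?_ ?_
    · simp only [beltU, beltC]
      field_simp
    · exact (congrArg Prod.snd (beltU_C m hρ p) :)

end Pool.Agent.Lib.MP_45bb13_gt
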