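import Pool.Agent.Lib.MP_45bb13_gt.Sm.Cut

/-! The smooth belt trick in the solid cylinder. -/

set_option linter.unusedSectionVars false

namespace Pool.Agent.Lib.MP_45bb13_gt

open Set Filter Topology Complex
open scoped ComplexConjugate ContDiff

/-- Radial normalisation of a family of homogeneous maps with respect to a gauge. -/
noncomputable def sbeltaRad (G : Gg) (M : ℝ → ℂ × ℝ → ℂ × ℝ) (x : ℂ × ℝ) : ℂ × ℝ :=
  (G.N x / G.N (M (G.N x) x)) • M (G.N x) x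

lemma sbelta_zero (G : Gg) : G.N 0 = 0 := by
  have h := G.smul 0 0 le_rfl
  rwa [zero_smul, zero_mul] at h

lemma sbelta_pos (G : Gg) {x : ℂ × ℝ} (hx : x ≠ 0) : 0 < G.N x :=
  (norm_pos_iff.2 hx).trans_le (G.le x)

lemma sbelta_nonneg (G : Gg) (x : ℂ × ℝ) : 0 ≤ G.N x := (norm_nonneg x).trans (G.le x)

lemma sbelta_R (G : Gg) (a : ℝ) (x : ℂ × ℝ) : G.N (beltR a x) = G.N x :=
  G.congr _ _ (by rw [beltR, norm_mul, norm_ee, one_mul]) rfl

section radial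

variable (G : Gg) {M M' : ℝ → ℂ × ℝ → ℂ × ℝ}

lemma sbelta_N_rad (h : ∀ r x, M' r (M r x) = x)
    (hs : ∀ r (k : ℝ) x, M' r (k • x) = k • M' r x) (x : ℂ × ℝ) :
    G.N (sbeltaRad G M x) = G.N x := by
  by_cases hx : x = 0
  · rw [sbeltaRad, hx, sbelta_zero, zero_div, zero_smul, sbelta_zero]
  · have h1 := sbelta_pos G (belt_ne h hs hx (G.N x))
    rw [sbeltaRad, G.smul _ _ (div_nonneg (sbelta_nonneg G x) h1.le), div_mul_cancel₀ _ h1.ne']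

lemma sbelta_rad_rad (h : ∀ r x, M' r (M r x) = x)
    (hs : ∀ r (k : ℝ) x, M' r (k • x) = k • M' r x) (x : ℂ × ℝ) :
    sbeltaRad G M' (sbeltaRad G M x) = x := by
  by_cases hx : x = 0
  · rw [sbeltaRad, sbelta_N_rad G h hs, hx, sbelta_zero, zero_div, zero_smul]
  · have h1 := sbelta_pos G (belt_ne h hs hx (G.N x))
    have h2 := sbelta_pos G hx
    have h3 : M' (G.N x) (sbeltaRad G M x) = (G.N x / G.N (M (G.N x) x)) • x := by
      rw [sbeltaRad, hs, h]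
    rw [sbeltaRad, sbelta_N_rad G h hs, h3, smul_smul, G.smul _ _ (div_nonneg h2.le h1.le)]
    have : G.N x / (G.N x / G.N (M (G.N x) x) * G.N x) * (G.N x / G.N (M (G.N x) x)) = 1 := by
      field_simp
    rw [this, one_smul]

lemma sbelta_rad_eq {x y : ℂ × ℝ} (h : M (G.N x) x = y) (hy : G.N y = G.N x) :
    sbeltaRad G M x = y := by
  by_cases hx : G.N x = 0
  · rw [sbeltaRad, hx, zero_div, zero_smul]
    by_contra h0
    exact (sbelta_pos G (Ne.symm h0)).ne' (hy.trans hx)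
  · rw [sbeltaRad, h, hy, div_self hx, one_smul]

lemma sbelta_rad_smooth {N N' : ℝ → ℝ → ℂ × ℝ → ℂ × ℝ} (h : ∀ t r x, N' t r (N t r x) = x)
    (hs : ∀ t r (k : ℝ) x, N' t r (k • x) = k • N' t r x)
    (hc : ContDiff ℝ ∞ fun q : ℝ × ℝ × ℂ × ℝ => N q.1 q.2.1 q.2.2) {σ : ℝ} (h0 : 0 < σ)
    (hz : ∀ t r x, r ≤ σ → N t r x = N t 0 x) (hn : ∀ t x, G.N (N t 0 x) = G.N x) :
    ContDiff ℝ ∞ fun q : ℝ × ℂ × ℝ => sbeltaRad G (N q.1) q.2 := by
  rw [contDiff_iff_contDiffAt]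
  intro q
  by_cases hx : q.2 = 0
  · have h1 : ContDiff ℝ ∞ fun q : ℝ × ℂ × ℝ => N q.1 0 q.2 :=
      hc.comp (f := fun q : ℝ × ℂ × ℝ => (q.1, (0 : ℝ), q.2))
        (contDiff_fst.prodMk (contDiff_const.prodMk contDiff_snd))
    refine h1.contDiffAt.congr_of_eventuallyEq ?_
    have h2 : G.N q.2 < σ := by rw [hx, sbelta_zero]; exact h0
    filter_upwards [(G.cont.comp continuous_snd).continuousAt.eventually (gt_mem_nhds h2)]
      with z hz'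
    exact sbelta_rad_eq G (hz _ _ _ (le_of_lt hz')) (hn _ _)
  · have h1 : ContDiffAt ℝ ∞ (fun q : ℝ × ℂ × ℝ => G.N q.2) q :=
      (G.smooth _ hx).comp q contDiffAt_snd
    have h2 : ContDiffAt ℝ ∞ (fun q : ℝ × ℂ × ℝ => N q.1 (G.N q.2) q.2) q :=
      hc.contDiffAt.comp (f := fun q : ℝ × ℂ × ℝ => (q.1, G.N q.2, q.2)) q
        (contDiffAt_fst.prodMk (h1.prodMk contDiffAt_snd))
    have h3 := belt_ne (h q.1) (hs q.1) hx (G.N q.2)
    have h4 : ContDiffAt ℝ ∞ (fun q : ℝ × ℂ × ℝ => G.N (N q.1 (G.N q.2) q.2)) q :=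
      (G.smooth _ h3).comp (f := fun q : ℝ × ℂ × ℝ => N q.1 (G.N q.2) q.2) q h2
    exact (h1.div h4 (sbelta_pos G h3).ne').smul h2

end radial

section smooth

variable {Z : Type} [NormedAddCommGroup Z] [NormedSpace ℝ Z] {a : Z → ℝ} {f : Z → ℂ × ℝ}

lemma sbelta_cR (ha : ContDiff ℝ ∞ a) (hf : ContDiff ℝ ∞ f) :
    ContDiff ℝ ∞ fun z => beltR (a z) (f z) :=
  ((contDiff_ee.comp ha).mul hf.fst).prodMk hf.snd

lemma sbelta_cT (hf : ContDiff ℝ ∞ f) : ContDiff ℝ ∞ fun z => beltT (f z) :=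
  (equivRealProdCLM.symm.contDiff.comp ((reCLM.contDiff.comp hf.fst).prodMk hf.snd)).prodMk
    (imCLM.contDiff.comp hf.fst)

lemma sbelta_cP (ha : ContDiff ℝ ∞ a) (hf : ContDiff ℝ ∞ f) :
    ContDiff ℝ ∞ fun z => beltP (a z) (f z) :=
  sbelta_cT (sbelta_cR ha (sbelta_cT hf))

end smooth

lemma sbelta_M'_zero (c : ℝ) (x : ℂ × ℝ) : beltM' c 0 x = beltR (-c + -c) x := by
  rw [beltM', neg_zero, beltP_zero, beltP_zero, beltR_add]

theorem sbelt_core (G : Gg) {σ : ℝ} (h0 : 0 < σ) (h1 : σ < 1) {η : ℝ → ℝ} (hη : ContDiff ℝ ∞ η) :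
    ∃ ψ ψ' : ℝ → ℂ × ℝ → ℂ × ℝ, (ContDiff ℝ ∞ fun q : ℝ × ℂ × ℝ => ψ q.1 q.2) ∧
      (ContDiff ℝ ∞ fun q : ℝ × ℂ × ℝ => ψ' q.1 q.2) ∧ (∀ t x, ψ' t (ψ t x) = x) ∧
      (∀ t x, ψ t (ψ' t x) = x) ∧ (∀ t x, G.N (ψ t x) = G.N x) ∧
      (∀ t x, (1 + σ) / 2 ≤ G.N x ∨ η t = 1 ∨ η t = -1 → ψ t x = x) ∧
      ∀ t x, G.N x ≤ σ → ψ t x = (ee (η t) * x.1, x.2) := by
  have hσ : σ < (1 + σ) / 2 := by linarith
  let al : ℝ → ℝ := fun r => (1 - cut σ ((1 + σ) / 2) r) / 2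
  have hal : ContDiff ℝ ∞ al := (contDiff_const.sub (contDiff_cut _ _)).div_const 2
  have al0 : ∀ r, r ≤ σ → al r = 0 := fun r hr => by
    simp only [al]
    rw [cut_one hσ hr, sub_self, zero_div]
  have al1 : ∀ r, (1 + σ) / 2 ≤ r → al r = 1 / 2 := fun r hr => by
    simp only [al]
    rw [cut_zero hσ hr, sub_zero]
  let N : ℝ → ℝ → ℂ × ℝ → ℂ × ℝ := fun t r => beltM ((η t + 1) / 2) (al r)
  let N' : ℝ → ℝ → ℂ × ℝ → ℂ × ℝ := fun t r => beltM' ((η t + 1) / 2) (al r)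
  have a1 : ∀ t r x, N' t r (N t r x) = x := fun t r x => beltM'_M _ _ _
  have a2 : ∀ t r x, N t r (N' t r x) = x := fun t r x => beltM_M' _ _ _
  have a3 : ∀ t r (k : ℝ) x, N t r (k • x) = k • N t r x := fun t r k x => beltM_smul _ _ _ _
  have a4 : ∀ t r (k : ℝ) x, N' t r (k • x) = k • N' t r x := fun t r k x => beltM'_smul _ _ _ _
  have c1 : ContDiff ℝ ∞ fun q : ℝ × ℝ × ℂ × ℝ => (η q.1 + 1) / 2 :=
    ((hη.comp contDiff_fst).add contDiff_const).div_const 2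
  have c2 : ContDiff ℝ ∞ fun q : ℝ × ℝ × ℂ × ℝ => al q.2.1 := hal.comp contDiff_snd.fst
  have c3 : ContDiff ℝ ∞ fun q : ℝ × ℝ × ℂ × ℝ => q.2.2 := contDiff_snd.snd
  refine ⟨fun t => sbeltaRad G (N t), fun t => sbeltaRad G (N' t),
    sbelta_rad_smooth G a1 a4 (sbelta_cR c1 (sbelta_cP c2 (sbelta_cR c1 (sbelta_cP c2.neg c3)))) h0
      (fun t r x hr => ?_) (fun t x => ?_),
    sbelta_rad_smooth G a2 a3
      (sbelta_cP c2 (sbelta_cR c1.neg (sbelta_cP c2.neg (sbelta_cR c1.neg c3)))) h0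
      (fun t r x hr => ?_) (fun t x => ?_),
    fun t => sbelta_rad_rad G (a1 t) (a4 t), fun t => sbelta_rad_rad G (a2 t) (a3 t),
    fun t => sbelta_N_rad G (a1 t) (a4 t), ?_, ?_⟩
  · simp only [N]
    rw [al0 r hr, al0 0 h0.le]
  · simp only [N]
    rw [al0 0 h0.le, beltM_zero, sbelta_R]
  · simp only [N']
    rw [al0 r hr, al0 0 h0.le]
  · simp only [N']
    rw [al0 0 h0.le, sbelta_M'_zero, sbelta_R]
  · rintro t x (h | h | h) <;> refine sbelta_rad_eq G ?_ rfl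
    · simp only [N]
      rw [al1 _ h, beltM_half]
    · simp only [N]
      rw [h, show ((1 : ℝ) + 1) / 2 = ((1 : ℤ) : ℝ) by norm_num, beltM_int]
    · simp only [N]
      rw [h, show ((-1 : ℝ) + 1) / 2 = ((0 : ℤ) : ℝ) by norm_num, beltM_int]
  · intro t x h
    refine sbelta_rad_eq G ?_ (sbelta_R G (η t) x)
    simp only [N]
    rw [al0 _ h, beltM_zero, show (η t + 1) / 2 + (η t + 1) / 2 = η t + ((1 : ℤ) : ℝ) by
      push_cast; ring, beltR, ee_add_int]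

end Pool.Agent.Lib.MP_45bb13_gt
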