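import Pool.Agent.Lib.MP_45bb13_gt.Sm.CapG
import Pool.Agent.Lib.MP_45bb13_gt.Sm.Ch

/-! The framed disc near a strand. -/

set_option linter.unusedSectionVars false

namespace Pool.Agent.Lib.MP_45bb13_gt

open Set Filter Topology Complex
open scoped ComplexConjugate ContDiff

/-- From gnomonic to stereographic coordinates. -/
noncomputable def scapT (p : CC) : CC :=
  (((√(1 + normSq p.2) : ℝ) : ℂ) * p.1, (((1 + √(1 + normSq p.2))⁻¹ : ℝ) : ℂ) * p.2)

/-- From stereographic to gnomonic coordinates. -/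
noncomputable def scapT' (p : CC) : CC :=
  ((((1 - normSq p.2) / (1 + normSq p.2) : ℝ) : ℂ) * p.1, ((2 / (1 - normSq p.2) : ℝ) : ℂ) * p.2)

lemma scap_pos (m : ℂ) : 0 < 1 + normSq m := by
  have := normSq_nonneg m
  positivity

lemma scap_sqrt (m : ℂ) : 0 < √(1 + normSq m) := Real.sqrt_pos.2 (scap_pos m)

lemma scap_nsq (m : ℂ) : normSq ((((1 + √(1 + normSq m))⁻¹ : ℝ) : ℂ) * m) =
    (√(1 + normSq m) - 1) / (√(1 + normSq m) + 1) := by
  have h := scap_sqrt m
  have h2 := Real.mul_self_sqrt (scap_pos m).le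
  rw [map_mul, normSq_ofReal]
  generalize √(1 + normSq m) = w at h h2
  rw [show normSq m = w * w - 1 by linarith]
  field_simp
  ring

lemma scap_st (σ : Bool) (m : ℂ) :
    st σ ((((1 + √(1 + normSq m))⁻¹ : ℝ) : ℂ) * m) = gn σ m := by
  have h := scap_sqrt m
  refine Subtype.ext (Prod.ext ?_ ?_)
  · show sgb σ * ((1 - normSq _) / (1 + normSq _)) = sgb σ / √(1 + normSq m)
    rw [scap_nsq]
    generalize √(1 + normSq m) = w at h
    have h1 : w + 1 + (w - 1) ≠ 0 := by linarith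
    field_simp
    ring
  · show ((2 / (1 + normSq _) : ℝ) : ℂ) * _ = ((1 / √(1 + normSq m) : ℝ) : ℂ) * m
    rw [scap_nsq, ← mul_assoc, ← ofReal_mul]
    generalize √(1 + normSq m) = w at h
    have h1 : w + 1 + (w - 1) ≠ 0 := by linarith
    congr 2
    field_simp
    ring

lemma scap_smooth : ContDiff ℝ ∞ fun p : CC => normSq p.2 := by
  simp only [normSq_eq_norm_sq]
  exact (contDiff_norm_sq ℝ).comp contDiff_snd

lemma scap_ldf (p : CC) : LDf scapT p := by
  have hs : ContDiff ℝ ∞ fun p : CC => √(1 + normSq p.2) :=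
    (contDiff_const.add scap_smooth).sqrt fun p => (scap_pos p.2).ne'
  have hlt : normSq (scapT p).2 < 1 := by
    have h := scap_sqrt p.2
    rw [scapT, scap_nsq, div_lt_one (by linarith)]
    linarith
  refine ⟨ContDiff.contDiffAt ?_, scapT', ?_, .of_forall fun z => ?_, ?_⟩
  · refine ((ofRealCLM.contDiff.comp hs).mul contDiff_fst).prodMk
      ((ofRealCLM.contDiff.comp ((contDiff_const.add hs).inv fun p => ?_)).mul contDiff_snd)
    have := scap_sqrt p.2
    positivity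
  · refine ((ofRealCLM.contDiff.comp ((contDiff_const.sub scap_smooth).div
      (contDiff_const.add scap_smooth) fun p => (scap_pos p.2).ne')).mul
      contDiff_fst).contDiffAt.prodMk ((ofRealCLM.contDiff.contDiffAt.comp _
      (contDiffAt_const.div (contDiff_const.sub scap_smooth).contDiffAt ?_)).mul contDiffAt_snd)
    exact (sub_pos.2 hlt).ne'
  · have h := scap_sqrt z.2
    refine Prod.ext ?_ ?_
    · show (((1 - normSq _) / (1 + normSq _) : ℝ) : ℂ) * (_ * z.1) = z.1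
      rw [scapT, scap_nsq, ← mul_assoc, ← ofReal_mul]
      generalize √(1 + normSq z.2) = w at h
      have h1 : w + 1 + (w - 1) ≠ 0 := by linarith
      rw [show (1 - (w - 1) / (w + 1)) / (1 + (w - 1) / (w + 1)) * w = 1 by
        field_simp
        ring, ofReal_one, one_mul]
    · show ((2 / (1 - normSq _) : ℝ) : ℂ) * (_ * z.2) = z.2
      rw [scapT, scap_nsq, ← mul_assoc, ← ofReal_mul]
      generalize √(1 + normSq z.2) = w at h
      rw [show 1 - (w - 1) / (w + 1) = 2 / (w + 1) by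
        field_simp
        ring, show 2 / (2 / (w + 1)) * (1 + w)⁻¹ = 1 by
        field_simp
        ring, ofReal_one, one_mul]
  · filter_upwards [scap_smooth.continuous.continuousAt.eventually (gt_mem_nhds hlt)] with w hw
    have h0 := scap_pos w.2
    have h1 : 0 < 1 - normSq w.2 := sub_pos.2 hw
    have h2 : √(1 + normSq (scapT' w).2) = (1 + normSq w.2) / (1 - normSq w.2) := by
      rw [Real.sqrt_eq_iff_mul_self_eq (scap_pos _).le (by positivity), scapT', map_mul,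
        normSq_ofReal]
      field_simp
      ring
    refine Prod.ext ?_ ?_
    · show ((√(1 + normSq (scapT' w).2) : ℝ) : ℂ) * (_ * w.1) = w.1
      rw [h2, ← mul_assoc, ← ofReal_mul, show (1 + normSq w.2) / (1 - normSq w.2) *
        ((1 - normSq w.2) / (1 + normSq w.2)) = 1 by field_simp, ofReal_one, one_mul]
    · show (((1 + √(1 + normSq (scapT' w).2))⁻¹ : ℝ) : ℂ) * (_ * w.2) = w.2
      rw [h2, ← mul_assoc, ← ofReal_mul, show 1 + (1 + normSq w.2) / (1 - normSq w.2) =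
        2 / (1 - normSq w.2) by
          field_simp
          ring, inv_mul_cancel₀ (by positivity), ofReal_one, one_mul]

lemma scap_hs (σ : Bool) (p : CC) : NP.map (.s σ) (scapT p) = hs σ p := by
  show Sg (_, st σ _) = _
  rw [scapT, scap_st, hs]

/-- The hemisphere chart is compatible with the atlas. -/
lemma Br.ch_hs {ι : Type} [Finite ι] (A : Br ι) (k : Option ι) (σ : Bool) {p : CC}
    (h1 : ‖p.1‖ < 1 / 4) (h2 : ‖p.1‖ * ‖p.2‖ < A.eps) : A.XP.Ch (A.jj k ∘ hs σ) p := by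
  refine ⟨some (k, .s σ), scapT, scap_ldf p, ⟨?_, ?_⟩, .of_forall fun z => ?_⟩
  · have pos := scap_sqrt p.2
    have h0 : |sgb σ| = 1 := by unfold sgb; split_ifs <;> norm_num
    show ((scapT p).1, st σ (scapT p).2) ∈ domS
    rw [scapT, scap_st]
    show ‖((√(1 + normSq p.2) : ℝ) : ℂ) * p.1‖ * |sgb σ / √(1 + normSq p.2)| < 1 / 4
    rw [norm_mul, norm_real, Real.norm_of_nonneg pos.le, abs_div, h0, abs_of_pos pos,
      show √(1 + normSq p.2) * ‖p.1‖ * (1 / √(1 + normSq p.2)) = ‖p.1‖ by field_simp]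
    exact h1
  · show wabs (NP.map (.s σ) (scapT p)) < A.eps
    rwa [scap_hs, wabs_hs]
  · show A.jj k (hs σ z) = A.jj k (NP.map (.s σ) (scapT z))
    rw [scap_hs]

theorem Br.exists_cap {ι : Type} [Finite ι] (A : Br ι) (i : ι) (σ : Bool) {β : ℂ}
    (hc : ∀ t ∈ Icc (3 / 8 : ℝ) (5 / 8), A.b i t = β) {r : ℝ} (hr : 0 < r) (hr' : r ≤ 1 / 16) :
    ∃ D : CC → A.X, (∀ x : ℂ, ‖x‖ < A.eps → ∀ᶠ q in 𝓝 ((x, 0) : CC), A.XP.Ch D q) ∧
      InjOn (fun x : ℂ => D (x, 0)) {x | ‖x‖ < A.eps} ∧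
      (∀ (x : ℂ) (R : ℝ), ‖x‖ < R → D (x, 0) ∈ A.jj (some i) '' Nr R) ∧
      ∀ x ν : ℂ, 2 * r ≤ ‖x‖ → ‖x‖ * ‖ν‖ < 1 / 8 → D (x, ν) =
        A.prT (β + x, ⟨1 / 4 + sgb σ * (1 / 8 - (conj x * ν).re), 1 / 2 + (conj x * ν).im⟩) := by
  have hη : 2 * r ≤ 1 / 8 := by linarith
  have c1 : ∀ x : ℂ, ‖(capG r (1 / 8) (x, 0)).1‖ < 1 / 4 := fun x =>
    (capG_core hr hη x).2.trans_lt (by norm_num)
  have c2 : ∀ x : ℂ, ‖(capG r (1 / 8) (x, 0)).1‖ * ‖(capG r (1 / 8) (x, 0)).2‖ ≤ ‖x‖ := fun x => by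
    have h := capG_core hr hη x
    rw [h.1, norm_div, norm_mul, norm_I, one_mul, norm_real, Real.norm_of_nonneg (by norm_num)]
    nlinarith [h.2, norm_nonneg x]
  have c3 : ∀ (x : ℂ) (R : ℝ), ‖x‖ < R → hs σ (capG r (1 / 8) (x, 0)) ∈ Nr R := fun x R h => by
    show wabs _ < R
    rw [wabs_hs]
    exact (c2 x).trans_lt h
  refine ⟨(A.jj (some i) ∘ hs σ) ∘ capG r (1 / 8), fun x hx => ?_, fun x hx y hy e => ?_,
    fun x R h => ⟨_, c3 x R h, rfl⟩, fun x ν h1 h2 => ?_⟩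
  · have h := capG_ldf hr hη x
    have hcont := h.self_of_nhds.continuousAt
    filter_upwards [h, hcont.fst.norm.eventually (gt_mem_nhds (c1 x)),
      (hcont.fst.norm.mul hcont.snd.norm).eventually (gt_mem_nhds ((c2 x).trans_lt hx))]
      with q q1 q2 q3
    exact (A.ch_hs (some i) σ q2 q3).comp q1
  · have e1 := hs_injOn σ (c1 x) (c1 y) (A.jj_injOn (some i) (c3 x _ hx) (c3 y _ hy) e)
    have e2 := congrArg Prod.snd e1
    rw [(capG_core hr hη x).1, (capG_core hr hη y).1] at e2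
    have h8 : (((1 / 8 : ℝ) : ℝ) : ℂ) ≠ 0 := ofReal_ne_zero.2 (by norm_num)
    exact mul_left_cancel₀ I_ne_zero ((div_left_inj' h8).1 e2)
  · have hn : ‖conj x * ν‖ < 1 / 8 := by rwa [norm_mul, norm_conj]
    have a1 := abs_lt.1 ((abs_re_le_norm _).trans_lt hn)
    have a2 := abs_lt.1 ((abs_im_le_norm _).trans_lt hn)
    obtain ⟨s, c, hs', rfl⟩ : ∃ s c : ℝ, 2 * r ≤ s ∧ x = s * ee c :=
      ⟨‖x‖, ang x, h1, (norm_mul_ee_ang x).symm⟩
    have hs0 : 0 < s := by linarith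
    show A.jj (some i) (hs σ (capG r (1 / 8) (s * ee c, ν))) = _
    rw [capG_far hr hs']
    generalize conj (s * ee c) * ν = μ at a1 a2
    have hρ : 0 < 1 / 8 - μ.re := by linarith [a1.2]
    have h5 := A.pW_eq (some i) ⟨c, 1 / 4 + sgb σ * (1 / 8 - μ.re)⟩ hs0 (1 / 2 + μ.im)
    rw [Br.pW, Br.loc, hc _ ⟨by linarith [a2.1], by linarith [a2.2]⟩] at h5
    rw [hs_eq σ hρ, ← h5, pw]
    congr 3
    have h6 : ((1 / 8 - μ.re : ℝ) : ℂ) ≠ 0 := ofReal_ne_zero.2 hρ.ne'
    have h7 := ee_mul_neg c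
    show _ = (s : ℂ) * ee ((1 / 2 + μ.im) / 2)
    rw [show (1 / 2 + μ.im) / 2 = 1 / 4 + μ.im / 2 by ring, ee_add, ee_quarter]
    generalize ((1 / 8 - μ.re : ℝ) : ℂ) = ρ at h6
    rw [← mul_div_assoc, div_eq_iff h6]
    linear_combination ρ * I * s * ee (μ.im / 2) * h7

end Pool.Agent.Lib.MP_45bb13_gt
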