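import Pool.Agent.Lib.MP_45bb13_gt.Sm.Defs
import Pool.Agent.Lib.MP_45bb13_gt.Twist

/-! Smooth cutoff functions, smooth approximation of braids and smooth gauges. -/

set_option linter.unusedSectionVars false

namespace Pool.Agent.Lib.MP_45bb13_gt

open Set Filter Topology Complex
open scoped ComplexConjugate ContDiff

variable {a b s : ℝ}

lemma cut_one (h : a < b) (hs : s ≤ a) : cut a b s = 1 := by
  refine Real.smoothTransition.one_of_one_le ?_
  rw [le_div_iff₀ (sub_pos.2 h)]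
  linarith

lemma cut_zero (h : a < b) (hs : b ≤ s) : cut a b s = 0 :=
  Real.smoothTransition.zero_of_nonpos
    (div_nonpos_of_nonpos_of_nonneg (sub_nonpos.2 hs) (sub_pos.2 h).le)

lemma cut_nonneg (a b s : ℝ) : 0 ≤ cut a b s := Real.smoothTransition.nonneg _

lemma cut_le_one (a b s : ℝ) : cut a b s ≤ 1 := Real.smoothTransition.le_one _

lemma cut_anti (h : a < b) : Antitone (cut a b) := fun _ _ hst =>
  Real.smoothTransition.monotone
    (div_le_div_of_nonneg_right (sub_le_sub_left hst b) (sub_pos.2 h).le)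

lemma contDiff_cut (a b : ℝ) : ContDiff ℝ ∞ (cut a b) :=
  Real.smoothTransition.contDiff.comp ((contDiff_const.sub contDiff_id).div_const _)

lemma contDiff_cut_norm (h0 : 0 < a) (h : a < b) : ContDiff ℝ ∞ fun y : ℂ => cut a b ‖y‖ := by
  refine contDiff_iff_contDiffAt.2 fun y => ?_
  by_cases hy : y = 0
  · refine (contDiffAt_const (c := (1 : ℝ))).congr_of_eventuallyEq ?_
    filter_upwards [(isOpen_lt continuous_norm continuous_const).mem_nhds
      (show ‖y‖ < a by simpa [hy] using h0)] with z hz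
    exact cut_one h (le_of_lt hz)
  · exact (contDiff_cut a b).contDiffAt.comp y (contDiffAt_id.norm ℝ hy)

lemma exists_lip_cut (h0 : 0 < a) (h : a < b) :
    ∃ C > 0, ∀ y y' : ℂ, |cut a b ‖y‖ - cut a b ‖y'‖| ≤ C * ‖y - y'‖ := by
  have hs : HasCompactSupport fun y : ℂ => cut a b ‖y‖ :=
    HasCompactSupport.intro (isCompact_closedBall (0 : ℂ) b) fun y hy =>
      cut_zero h (le_of_lt (by simpa using hy))
  obtain ⟨C, hC⟩ := ContDiff.lipschitzWith_of_hasCompactSupport hs (contDiff_cut_norm h0 h)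
    (by simp)
  refine ⟨C + 1, by positivity, fun y y' => ?_⟩
  have h1 := hC.dist_le_mul y y'
  rw [Real.dist_eq, dist_eq_norm] at h1
  nlinarith [norm_nonneg (y - y')]

/-- A smooth odd function that changes sign in a thin slice. -/
lemma exists_odd_smooth {δ : ℝ} (hδ : 0 < δ) (ε : ℝ) : ∃ ζ : ℝ → ℝ, ContDiff ℝ ∞ ζ ∧
    (∀ t, ζ (t + 1) = -ζ t) ∧ (∀ t, 0 ≤ t → t ≤ 1 / 2 - δ / 2 → ζ t = -ε) ∧
    ∀ t, t ≤ 1 → 1 / 2 + δ / 2 ≤ t → ζ t = ε := by
  have hu : ContDiff ℝ ∞ fun t : ℝ => δ⁻¹ * Real.cos (Real.pi * t) :=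
    contDiff_const.mul (Real.contDiff_cos.comp (contDiff_const.mul contDiff_id))
  refine ⟨fun t => -ε * (Real.smoothTransition (δ⁻¹ * Real.cos (Real.pi * t)) -
    Real.smoothTransition (-(δ⁻¹ * Real.cos (Real.pi * t)))),
    contDiff_const.mul ((Real.smoothTransition.contDiff.comp hu).sub
      (Real.smoothTransition.contDiff.comp hu.neg)), fun t => ?_, fun t h0 h1 => ?_,
    fun t h0 h1 => ?_⟩
  · simp only [mul_add, mul_one, Real.cos_add_pi, mul_neg, neg_neg]
    ring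
  · have h2 := twist_cos h0 hδ h1
    simp only [Real.smoothTransition.one_of_one_le h2,
      Real.smoothTransition.zero_of_nonpos (show -(δ⁻¹ * Real.cos (Real.pi * t)) ≤ 0 by linarith)]
    ring
  · have h2 := twist_cos (t := 1 - t) (by linarith) hδ (by linarith)
    rw [mul_sub, mul_one, Real.cos_pi_sub, mul_neg] at h2
    simp only [Real.smoothTransition.one_of_one_le h2,
      Real.smoothTransition.zero_of_nonpos (show δ⁻¹ * Real.cos (Real.pi * t) ≤ 0 by linarith)]
    ring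

/-- The polynomial under the root. -/
noncomputable def scut_P (k : ℕ) (x : ℂ × ℝ) : ℝ := ‖x.1‖ ^ (2 * k) + |x.2| ^ (2 * k)

lemma scut_eq (k : ℕ) : scut_P k = fun x : ℂ × ℝ =>
    (x.1.re ^ 2 + x.1.im ^ 2) ^ k + (x.2 ^ 2) ^ k := by
  funext x
  rw [scut_P, pow_mul, pow_mul, sq_abs, Complex.sq_norm, Complex.normSq_apply]
  ring

lemma scut_smooth (k : ℕ) : ContDiff ℝ ∞ (scut_P k) := by
  have h1 : ContDiff ℝ ∞ fun x : ℂ × ℝ => x.1.re := Complex.reCLM.contDiff.comp contDiff_fst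
  have h2 : ContDiff ℝ ∞ fun x : ℂ × ℝ => x.1.im := Complex.imCLM.contDiff.comp contDiff_fst
  rw [scut_eq]
  exact (((h1.pow 2).add (h2.pow 2)).pow k).add ((contDiff_snd.pow 2).pow k)

lemma scut_nonneg (k : ℕ) (x : ℂ × ℝ) : 0 ≤ scut_P k x := by
  unfold scut_P
  positivity

lemma scut_le (k : ℕ) (x : ℂ × ℝ) : ‖x‖ ^ (2 * k) ≤ scut_P k x := by
  rw [scut_P, Prod.norm_def, Real.norm_eq_abs]
  rcases le_total ‖x.1‖ |x.2| with h | h
  · rw [max_eq_right h]
    exact le_add_of_nonneg_left (by positivity)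
  · rw [max_eq_left h]
    exact le_add_of_nonneg_right (by positivity)

lemma scut_ge (k : ℕ) (x : ℂ × ℝ) : scut_P k x ≤ 2 * ‖x‖ ^ (2 * k) := by
  have h1 := pow_le_pow_left₀ (norm_nonneg _) (norm_fst_le x) (2 * k)
  have h2 := pow_le_pow_left₀ (norm_nonneg _) (norm_snd_le x) (2 * k)
  rw [Real.norm_eq_abs] at h2
  rw [scut_P]
  linarith

/-- Smooth gauges approximate the maximum norm. -/
theorem exists_gg {κ : ℝ} (hκ : 0 < κ) : ∃ G : Gg, ∀ x, G.N x ≤ (1 + κ) * ‖x‖ := by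
  obtain ⟨k, hk⟩ := exists_nat_gt κ⁻¹
  have hk0 : (0 : ℝ) < k := (inv_pos.2 hκ).trans hk
  have hn : 2 * k ≠ 0 := by
    have : k ≠ 0 := by exact_mod_cast hk0.ne'
    omega
  have hr : (0 : ℝ) ≤ ((2 * k : ℕ) : ℝ)⁻¹ := by positivity
  have h2 : 2 ≤ (1 + κ) ^ (2 * k) := by
    have h3 := one_add_mul_le_pow (show -2 ≤ κ by linarith) (2 * k)
    have h4 := mul_lt_mul_of_pos_right hk hκ
    rw [inv_mul_cancel₀ hκ.ne'] at h4
    push_cast at h3
    nlinarith
  refine ⟨⟨fun x => scut_P k x ^ ((2 * k : ℕ) : ℝ)⁻¹,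
    (scut_smooth k).continuous.rpow_const fun _ => Or.inr hr, fun c x hc => ?_, fun x => ?_,
    fun x hx => ?_, fun x y h1 h2 => ?_⟩, fun x => ?_⟩
  · have e : scut_P k (c • x) = c ^ (2 * k) * scut_P k x := by
      simp only [scut_P, Prod.smul_fst, Prod.smul_snd, norm_smul, smul_eq_mul, abs_mul,
        Real.norm_eq_abs, abs_of_nonneg hc, mul_pow, mul_add]
    simp only [e]
    rw [Real.mul_rpow (by positivity) (scut_nonneg k x), Real.pow_rpow_inv_natCast hc hn]
  · have := Real.rpow_le_rpow (by positivity) (scut_le k x) hr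
    rwa [Real.pow_rpow_inv_natCast (norm_nonneg _) hn] at this
  · refine (scut_smooth k).contDiffAt.rpow_const_of_ne ?_
    exact ((pow_pos (norm_pos_iff.2 hx) _).trans_le (scut_le k x)).ne'
  · simp only [scut_P, h1, h2]
  · have h3 : scut_P k x ≤ ((1 + κ) * ‖x‖) ^ (2 * k) := by
      rw [mul_pow]
      exact (scut_ge k x).trans (mul_le_mul_of_nonneg_right h2 (by positivity))
    have := Real.rpow_le_rpow (scut_nonneg k x) h3 hr
    rwa [Real.pow_rpow_inv_natCast (by positivity) hn] at this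

end Pool.Agent.Lib.MP_45bb13_gt
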