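import Pool.Agent.Lib.MP_45bb13_gt.Sm.Ldf
import Pool.Agent.Lib.MP_45bb13_gt.Sm.Cut

/-! The framed disc in the hemisphere chart. -/

set_option linter.unusedSectionVars false

namespace Pool.Agent.Lib.MP_45bb13_gt

open Set Filter Topology Complex
open scoped ComplexConjugate ContDiff

/-- The framed disc in the hemisphere chart: linear near the centre. -/
noncomputable def capG (r η : ℝ) (p : CC) : CC :=
  ((cut r (2 * r) ‖p.1‖ : ℝ) * p.1 +
      ((1 - cut r (2 * r) ‖p.1‖) * ((η - (conj p.1 * p.2).re) / ‖p.1‖) : ℝ) * p.1,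
    I * ((cut r (2 * r) ‖p.1‖ : ℝ) * (p.1 / η + p.2) +
      ((1 - cut r (2 * r) ‖p.1‖) / (η - (conj p.1 * p.2).re) : ℝ) *
        (p.1 * ee ((conj p.1 * p.2).im / 2))))

variable {r η : ℝ}

lemma capG_smooth (hr : 0 < r) {p : CC} (hp : (conj p.1 * p.2).re ≠ η) :
    ContDiffAt ℝ ∞ (capG r η) p := by
  have hc : ContDiff ℝ ∞ fun q : CC => cut r (2 * r) ‖q.1‖ :=
    (contDiff_cut_norm hr (by linarith)).comp contDiff_fst
  have hm : ContDiff ℝ ∞ fun q : CC => conj q.1 * q.2 :=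
    (conjCLE.contDiff.comp contDiff_fst).mul contDiff_snd
  have hre : ContDiff ℝ ∞ fun q : CC => η - (conj q.1 * q.2).re :=
    contDiff_const.sub (reCLM.contDiff.comp hm)
  have him : ContDiff ℝ ∞ fun q : CC => ee ((conj q.1 * q.2).im / 2) :=
    contDiff_ee.comp ((imCLM.contDiff.comp hm).div_const 2)
  have hR : ∀ {f : CC → ℝ}, ContDiffAt ℝ ∞ f p → ContDiffAt ℝ ∞ (fun q => (f q : ℂ)) p :=
    fun hf => ofRealCLM.contDiff.contDiffAt.comp p hf
  have h1 : ContDiffAt ℝ ∞ (fun q : CC =>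
      (1 - cut r (2 * r) ‖q.1‖) * ((η - (conj q.1 * q.2).re) / ‖q.1‖)) p := by
    by_cases h0 : p.1 = 0
    · refine (contDiffAt_const (c := (0 : ℝ))).congr_of_eventuallyEq ?_
      filter_upwards [(isOpen_lt (continuous_fst.norm) continuous_const).mem_nhds
        (show ‖p.1‖ < r by rwa [h0, norm_zero])] with q hq
      rw [cut_one (by linarith) (le_of_lt hq), sub_self, zero_mul]
    · exact (contDiffAt_const.sub hc.contDiffAt).mul
        (hre.contDiffAt.div (contDiffAt_fst.norm ℝ h0) (norm_ne_zero_iff.2 h0))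
  exact (((hR hc.contDiffAt).mul contDiffAt_fst).add ((hR h1).mul contDiffAt_fst)).prodMk
    (contDiffAt_const.mul (((hR hc.contDiffAt).mul ((contDiffAt_fst.div_const _).add
      contDiffAt_snd)).add ((hR ((contDiffAt_const.sub hc.contDiffAt).div hre.contDiffAt
        (sub_ne_zero.2 hp.symm))).mul (contDiffAt_fst.mul him.contDiffAt))))

lemma scapg_alg {ρ ρ' χ c u : ℝ} (hρ : 0 < ρ) (hη : 0 < η) (h0 : 0 ≤ χ) (h1 : χ ≤ 1)
    (hc : 0 ≤ c * (ρ - η)) (e1 : (χ + c * (ρ - η)) * ρ' = (1 - χ) * u)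
    (e2 : ρ * ρ' / η + (χ + (1 - χ) * ρ ^ 2 / η ^ 2) * u = 0) : u = 0 ∧ ρ' = 0 := by
  have hD : 0 < χ + (1 - χ) * ρ ^ 2 / η ^ 2 := by
    rcases h0.eq_or_lt with h | h
    · rw [← h]; positivity
    · have : 0 ≤ 1 - χ := by linarith
      positivity
  set D := χ + (1 - χ) * ρ ^ 2 / η ^ 2
  have e3 : ρ' = -(η * D / ρ) * u := by
    field_simp
    field_simp at e2
    linarith
  have hC : 0 < η * D / ρ := by positivity
  set C := η * D / ρ
  have h2 : 0 < 1 - χ + (χ + c * (ρ - η)) * C := by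
    rcases h0.eq_or_lt with h | h
    · have := mul_nonneg (add_nonneg h0 hc) hC.le
      linarith
    · have := mul_pos (add_pos_of_pos_of_nonneg h hc) hC
      linarith
  have h3 : u = 0 := by
    refine (mul_eq_zero.1 (show (1 - χ + (χ + c * (ρ - η)) * C) * u = 0 from ?_)).resolve_left h2.ne'
    rw [e3] at e1
    linear_combination -e1
  exact ⟨h3, by rw [e3, h3, mul_zero]⟩

lemma capG_inj (hr : 0 < r) (hη : 2 * r ≤ η) (x : ℂ) :
    Function.Injective (fderiv ℝ (capG r η) (x, 0)) := by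
  have hη0 : 0 < η := by linarith
  have hη1 : (η : ℂ) ≠ 0 := ofReal_ne_zero.2 hη0.ne'
  refine (injective_iff_map_eq_zero _).2 fun ⟨a, β⟩ h => ?_
  have e : HasDerivAt (fun t : ℝ => (t : ℂ)) 1 0 := ofRealCLM.hasDerivAt
  have hX : HasDerivAt (fun t : ℝ => x + t * a) a 0 := by simpa using (e.mul_const a).const_add x
  have hB : HasDerivAt (fun t : ℝ => (t : ℂ) * β) β 0 := by simpa using e.mul_const β
  have h3 := ((capG_smooth hr (p := (x, 0)) (by simpa using hη0.ne)).differentiableAt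
    (by simp)).hasFDerivAt.comp_hasDerivAt_of_eq 0 (hX.prodMk hB) (by simp)
  rw [h] at h3
  by_cases h0 : x = 0
  · subst h0
    have h4 : HasDerivAt (capG r η ∘ fun t : ℝ => ((0 + t * a, t * β) : CC))
        (a, I * (a / η + β)) 0 := by
      refine (hX.prodMk (((hX.div_const (η : ℂ)).add hB).const_mul I)).congr_of_eventuallyEq ?_
      filter_upwards [(isOpen_lt (show Continuous fun t : ℝ => ‖0 + t * a‖ by fun_prop)
        continuous_const).mem_nhds (show ‖0 + ((0 : ℝ) : ℂ) * a‖ < r by simpa using hr)] with t ht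
      simp only [Function.comp, capG, cut_one (show r < 2 * r by linarith) (le_of_lt ht)]
      simp
    obtain ⟨h5, h6⟩ := Prod.ext_iff.1 (h4.unique h3)
    simp only [Prod.fst_zero, Prod.snd_zero] at h5 h6
    subst h5
    simpa using h6
  have hρ : 0 < ‖x‖ := norm_pos_iff.2 h0
  obtain ⟨ρ', hN⟩ : ∃ ρ', HasDerivAt (fun t : ℝ => ‖x + t * a‖) ρ' 0 :=
    ⟨_, (hX.differentiableAt.norm ℝ (by simpa using h0)).hasDerivAt⟩
  have hρ' : ‖x‖ * ρ' = (conj x * a).re := by
    have h4 := (hN.fun_pow 2).unique hX.norm_sq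
    simp only [ofReal_zero, zero_mul, add_zero, Complex.inner] at h4
    rw [mul_comm (conj x)]
    norm_num at h4 ⊢
    linarith
  set c := deriv (cut r (2 * r)) ‖x‖ with hcdef
  have hχ : HasDerivAt (fun t : ℝ => cut r (2 * r) ‖x + t * a‖) (c * ρ') 0 :=
    (((contDiff_cut r (2 * r)).differentiable (by simp)) ‖x‖).hasDerivAt.comp_of_eq 0 hN (by simp)
  have hc : 0 ≤ c * (‖x‖ - η) := by
    rcases le_or_gt ‖x‖ η with h4 | h4
    · exact mul_nonneg_of_nonpos_of_nonpos (cut_anti (by linarith)).deriv_nonpos (by linarith)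
    · have h5 : cut r (2 * r) =ᶠ[𝓝 ‖x‖] fun _ => 0 := by
        filter_upwards [lt_mem_nhds h4] with y hy
        exact cut_zero (by linarith) (by linarith)
      rw [hcdef, h5.deriv_eq, deriv_const, zero_mul]
  have hμ : HasDerivAt (fun t : ℝ => conj (x + t * a) * (t * β)) (conj x * β) 0 := by
    refine ((conjCLE.hasFDerivAt.comp_hasDerivAt 0 hX).fun_mul hB).congr_deriv ?_
    simp
  have hre : HasDerivAt (fun t : ℝ => η - (conj (x + t * a) * (t * β)).re) (-(conj x * β).re) 0 :=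
    (reCLM.hasFDerivAt.comp_hasDerivAt 0 hμ).const_sub η
  have him : HasDerivAt (fun t : ℝ => ee ((conj (x + t * a) * (t * β)).im / 2))
      (Real.pi * (conj x * β).im * I) 0 := by
    have h4 : HasDerivAt (fun t : ℝ => (conj (x + t * a) * (t * β)).im / 2)
        ((conj x * β).im / 2) 0 := (imCLM.hasFDerivAt.comp_hasDerivAt 0 hμ).div_const 2
    have h5 := ((h4.ofReal_comp.const_mul (2 * Real.pi : ℂ)).mul_const I).cexp
    refine h5.congr_deriv ?_
    simp only [ofReal_zero, zero_mul, mul_zero, zero_im, zero_div, exp_zero]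
    push_cast
    ring
  have h4 := (((hχ.ofReal_comp.fun_mul hX).fun_add ((((hχ.const_sub 1).fun_mul (hre.fun_div hN
    (by simpa using h0))).ofReal_comp).fun_mul hX)).prodMk (((hχ.ofReal_comp.fun_mul
      ((hX.div_const (η : ℂ)).fun_add hB)).fun_add (((hχ.const_sub 1).fun_div hre
        (by simpa using hη0.ne')).ofReal_comp.fun_mul (hX.fun_mul him))).const_mul I)).unique h3
  obtain ⟨h5, h6⟩ := Prod.ext_iff.1 h4
  simp only [ofReal_zero, zero_mul, mul_zero, add_zero, zero_re, zero_im, sub_zero, zero_div,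
    ee_zero, mul_one, Prod.fst_zero, Prod.snd_zero, mul_eq_zero, I_ne_zero, false_or] at h5 h6
  set χ := cut r (2 * r) ‖x‖
  have hχ0 : 0 ≤ χ := cut_nonneg _ _ _
  have hχ1 : χ ≤ 1 := cut_le_one _ _ _
  have hxx : conj x * x = ((‖x‖ ^ 2 : ℝ) : ℂ) := by rw [conj_mul']; push_cast; rfl
  set m := conj x * β with hm
  set w := conj x * a with hw
  have k1 : ((c * ρ' + (-(c * ρ') * (η / ‖x‖) + (1 - χ) * ((-m.re * ‖x‖ - η * ρ') / ‖x‖ ^ 2))) *
      ‖x‖ ^ 2 : ℝ) + ((χ + (1 - χ) * (η / ‖x‖) : ℝ) : ℂ) * w = 0 := by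
    rw [ofReal_mul _ (‖x‖ ^ 2), ← hxx, hw]
    push_cast at h5 ⊢
    linear_combination conj x * h5
  have k2 : ((1 / η : ℝ) : ℂ) * w + χ * m + ((1 - χ) * ‖x‖ ^ 2 / η ^ 2 * m.re : ℝ) +
      ((1 - χ) * ‖x‖ ^ 2 / η * Real.pi * m.im : ℝ) * I = 0 := by
    have h7 := congrArg (conj x * ·) h6
    simp only [mul_zero] at h7
    rw [← h7]
    push_cast at hxx ⊢
    rw [← hxx, hw, show χ * m = χ * (conj x * β) from rfl]
    field_simp
    ring
  have k3 := congrArg im k1
  have k4 := congrArg re k1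
  have k5 := congrArg im k2
  have k6 := congrArg re k2
  simp only [add_im, add_re, ofReal_im, ofReal_re, re_ofReal_mul, im_ofReal_mul, zero_im, zero_re,
    zero_add, add_zero, I_re, I_im, mul_zero, mul_one, ← hρ'] at k3 k4 k5 k6
  have hs : 0 ≤ 1 - χ := by linarith
  have hpos : ∀ y : ℝ, 0 < y → 0 < χ + (1 - χ) * y := fun y hy => by
    rcases hχ0.eq_or_lt with h | h
    · rw [← h]; simpa using hy
    · positivity
  have k7 : w.im = 0 := (mul_eq_zero.1 k3).resolve_left (hpos _ (by positivity)).ne'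
  have k8 : m.im = 0 := by
    refine (mul_eq_zero.1 (show (χ + (1 - χ) * (‖x‖ ^ 2 / η * Real.pi)) * m.im = 0 from ?_)).resolve_left
      (hpos _ (by positivity)).ne'
    rw [k7] at k5
    linear_combination k5
  obtain ⟨k9, k10⟩ := scapg_alg (u := m.re) (ρ' := ρ') hρ hη0 hχ0 hχ1 hc (by
    field_simp at k4
    apply mul_left_cancel₀ hρ.ne'
    linear_combination k4) (by linear_combination k6)
  have hx' : conj x ≠ 0 := by simpa using h0
  have a0 : w = 0 := Complex.ext (by rw [← hρ', k10, mul_zero, zero_re]) k7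
  have b0 : m = 0 := Complex.ext k9 k8
  exact Prod.ext ((mul_eq_zero.1 a0).resolve_left hx') ((mul_eq_zero.1 b0).resolve_left hx')

theorem capG_ldf (hr : 0 < r) (hη : 2 * r ≤ η) (x : ℂ) :
    ∀ᶠ q in 𝓝 ((x, 0) : CC), LDf (capG r η) q := by
  have h0 : ∀ᶠ q : CC in 𝓝 (x, 0), ContDiffAt ℝ ∞ (capG r η) q := by
    have h1 : Continuous fun p : CC => (conj p.1 * p.2).re := by fun_prop
    have h2 : (conj (x, (0 : ℂ)).1 * (x, (0 : ℂ)).2).re ≠ η := by
      simp only [mul_zero, zero_re]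
      linarith
    exact (h1.continuousAt.eventually_ne h2).mono fun q hq => capG_smooth hr hq
  exact (ldf_of_inj h0.self_of_nhds (capG_inj hr hη x)).eventually h0

lemma capG_core (hr : 0 < r) (hη : 2 * r ≤ η) (x : ℂ) :
    (capG r η (x, 0)).2 = I * x / η ∧ ‖(capG r η (x, 0)).1‖ ≤ η := by
  have hη0 : 0 < η := by linarith
  have h0 := cut_nonneg r (2 * r) ‖x‖
  have h1 := cut_le_one r (2 * r) ‖x‖
  simp only [capG, mul_zero, zero_re, zero_im, sub_zero, zero_div, ee_zero, mul_one, add_zero]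
  refine ⟨by push_cast; ring, ?_⟩
  have h2 : η / ‖x‖ * ‖x‖ ≤ η := by
    rcases eq_or_ne ‖x‖ 0 with h | h
    · rw [h, mul_zero]; exact hη0.le
    · rw [div_mul_cancel₀ _ h]
  have h3 : cut r (2 * r) ‖x‖ * ‖x‖ ≤ cut r (2 * r) ‖x‖ * η := by
    rcases le_or_gt ‖x‖ η with h4 | h4
    · exact mul_le_mul_of_nonneg_left h4 h0
    · rw [cut_zero (by linarith) (by linarith), zero_mul, zero_mul]
  have h4 : 0 ≤ 1 - cut r (2 * r) ‖x‖ := by linarith
  rw [← add_mul, ← ofReal_add, norm_mul, norm_real, Real.norm_of_nonneg (by positivity), add_mul,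
    mul_assoc]
  linarith [mul_le_mul_of_nonneg_left h2 h4]

lemma capG_far (hr : 0 < r) {s : ℝ} (hs : 2 * r ≤ s) (c : ℝ) (ν : ℂ) :
    capG r η (s * ee c, ν) = (((η - (conj (s * ee c) * ν).re : ℝ) : ℂ) * ee c,
      I * (s * ee c) * ee ((conj (s * ee c) * ν).im / 2) /
        ((η - (conj (s * ee c) * ν).re : ℝ) : ℂ)) := by
  have hs0 : 0 < s := by linarith
  have hs1 : (s : ℂ) ≠ 0 := ofReal_ne_zero.2 hs0.ne'
  simp only [capG, basic_norm hs0, cut_zero (show r < 2 * r by linarith) hs]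
  generalize η - (conj (s * ee c) * ν).re = A
  refine Prod.ext ?_ ?_
  · push_cast
    field_simp
    ring
  · push_cast
    ring

end Pool.Agent.Lib.MP_45bb13_gt
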