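import Pool.Agent.Lib.MP_45bb13_gt.XTop

/-! Germs of diffeomorphisms, charts and smooth relations between braids. -/

set_option linter.unusedSectionVars false

namespace Pool.Agent.Lib.MP_45bb13_gt

open Set Filter Topology Complex
open scoped ComplexConjugate ContDiff

/-- The germ of `θ` at `x` is a smooth diffeomorphism. -/
def LDf (θ : CC → CC) (x : CC) : Prop :=
  ContDiffAt ℝ ∞ θ x ∧ ∃ θ' : CC → CC, ContDiffAt ℝ ∞ θ' (θ x) ∧ (∀ᶠ z in 𝓝 x, θ' (θ z) = z) ∧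
    ∀ᶠ w in 𝓝 (θ x), θ (θ' w) = w

/-- The germ of `f` at `x` is a chart compatible with the atlas. -/
def PS.Ch {A X : Type} (P : PS A X) (f : CC → X) (x : CC) : Prop :=
  ∃ a θ, LDf θ x ∧ θ x ∈ P.dom a ∧ ∀ᶠ z in 𝓝 x, f z = P.map a (θ z)

/-- The map `F` is a local diffeomorphism at `p`. -/
def LD {A B X Y : Type} (P : PS A X) (Q : PS B Y) (F : X → Y) (p : X) : Prop :=
  ∃ f x, f x = p ∧ P.Ch f x ∧ Q.Ch (F ∘ f) x

/-- The universal cover of the model space. -/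
noncomputable def cv (p : CC) : MM := (p.1, (p.2.re : UnitAddCircle), p.2.im)

/-- The atlas of the model space. -/
noncomputable def PM : PS Unit MM := ⟨fun _ => univ, fun _ => cv⟩

/-- Smooth braids. -/
def Br.Sm {ι : Type} (A : Br ι) : Prop := ∀ i, ContDiff ℝ ∞ (A.b i)

/-- The two manifolds are diffeomorphic. -/
def DRel {ι : Type} (A A' : Br ι) : Prop := ∃ F : A.X ≃ₜ A'.X, ∀ p, LD A.XP A'.XP F p

/-- The braid `C` is uniformly close to `H`. -/
def Br.Cl {ι : Type} (H C : Br ι) (δ : ℝ) : Prop := ∀ i t, ‖C.b i t - H.b i t‖ < δ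

/-- Smooth approximations of the two braids give diffeomorphic manifolds. -/
def SRel {ι : Type} (H H' : Br ι) : Prop :=
  ∃ δ > 0, ∀ C C' : Br ι, C.Sm → C'.Sm → H.Cl C δ → H'.Cl C' δ → DRel C C'

/-- A smooth cutoff function: one up to `a`, zero from `b`. -/
noncomputable def cut (a b s : ℝ) : ℝ := Real.smoothTransition ((b - s) / (b - a))

/-- Smooth gauges of `ℂ × ℝ`. -/
structure Gg where
  N : ℂ × ℝ → ℝ
  cont : Continuous N
  smul : ∀ (k : ℝ) x, 0 ≤ k → N (k • x) = k * N x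
  le : ∀ x, ‖x‖ ≤ N x
  smooth : ∀ x, x ≠ 0 → ContDiffAt ℝ ∞ N x
  congr : ∀ x y : ℂ × ℝ, ‖x.1‖ = ‖y.1‖ → |x.2| = |y.2| → N x = N y

/-- The smooth gauge of the solid cylinder centred at `(m, 3 / 4)`. -/
noncomputable def Gg.nr (G : Gg) (m ρ : ℝ) (p : MM) : ℝ :=
  G.N ((p.1 - m) / ρ, 2 * ‖p.2.1 - ((3 / 4 : ℝ) : UnitAddCircle)‖)

/-- The domain of the thickened torus with a two-handle. -/
def Gg.dom (G : Gg) (m ρ δ : ℝ) : Set MM :=
  {p | ‖p.1 - m‖ < ρ + δ ∧ |p.2.2 - 1 / 2| < δ ∧ 1 - δ < G.nr m ρ p}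

lemma Br.Sm.good {ι : Type} [Finite ι] {A : Br ι} (h : A.Sm) : A.XP.Good ∞ := A.good le_rfl h

end Pool.Agent.Lib.MP_45bb13_gt
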