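import Pool.Agent.Lib.MP_45bb13_gt.Sm.Ldf
import Pool.Agent.Lib.MP_45bb13_gt.Sm.Cut

/-! The framing of the pair of pants. -/

set_option linter.unusedSectionVars false

namespace Pool.Agent.Lib.MP_45bb13_gt

open Set Filter Topology Complex
open scoped ComplexConjugate ContDiff

lemma sframe_conj {E : Type} [NormedAddCommGroup E] [NormedSpace ℝ E] {f : E → ℂ}
    (hf : ContDiff ℝ ∞ f) : ContDiff ℝ ∞ fun y => conj (f y) :=
  conjCLE.contDiff.comp hf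

lemma sframe_re {E : Type} [NormedAddCommGroup E] [NormedSpace ℝ E] {f : E → ℝ}
    (hf : ContDiff ℝ ∞ f) : ContDiff ℝ ∞ fun y => (f y : ℂ) :=
  ofRealCLM.contDiff.comp hf

lemma sframe_cut {a b : ℝ} (h0 : 0 < a) (h : a < b) (m : ℂ) :
    ContDiff ℝ ∞ fun y : ℂ => cut a b ‖y - m‖ :=
  (contDiff_cut_norm h0 h).comp (contDiff_id.sub contDiff_const)

lemma sframe_theta {m β₁ β₂ : ℂ} {a b : ℝ} (h1 : ‖β₁ - m‖ < a) (h2 : ‖β₂ - m‖ < a) (hab : a < b) :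
    ∃ Θ : ℂ → ℂ, ContDiff ℝ ∞ Θ ∧ (∀ y, y ≠ β₁ → y ≠ β₂ → Θ y ≠ 0) ∧
      (∀ y, b ≤ ‖y - m‖ → Θ y = 1) ∧ ∀ y, ‖y - m‖ ≤ a → Θ y = (y - β₁) * conj (y - β₂) := by
  have h0 : 0 < a := (norm_nonneg _).trans_lt h1
  set χ : ℂ → ℝ := fun y => cut a b ‖y - m‖ with hχ
  have hc : ContDiff ℝ ∞ fun y => (χ y : ℂ) := sframe_re (sframe_cut h0 hab m)
  have hm : ContDiff ℝ ∞ fun y : ℂ => y - m := contDiff_id.sub contDiff_const
  have c0 : ∀ y, 0 ≤ χ y := fun y => cut_nonneg _ _ _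
  have c1 : ∀ y, χ y ≤ 1 := fun y => cut_le_one _ _ _
  have c2 : ∀ y, ‖y - m‖ ≤ a → χ y = 1 := fun y hy => cut_one hab hy
  have c3 : ∀ y, b ≤ ‖y - m‖ → χ y = 0 := fun y hy => cut_zero hab hy
  have hD : ∀ y, (χ y : ℂ) + (1 - χ y) * ((y - m) * conj (y - m)) ≠ 0 := fun y => by
    have e : (χ y : ℂ) + (1 - χ y) * ((y - m) * conj (y - m)) =
        ((χ y + (1 - χ y) * normSq (y - m) : ℝ) : ℂ) := by
      rw [mul_conj]
      push_cast
      rfl
    rw [e, ofReal_ne_zero]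
    refine ne_of_gt ?_
    by_cases hy : ‖y - m‖ ≤ a
    · rw [c2 y hy]
      simp
    · have h3 : 0 < normSq (y - m) := normSq_pos.2 fun h => hy (by simp [h, h0.le])
      rcases (c0 y).eq_or_lt with h4 | h4
      · rw [← h4]
        simpa using h3
      · exact add_pos_of_pos_of_nonneg h4 (mul_nonneg (sub_nonneg.2 (c1 y)) h3.le)
  have hN : ∀ β y : ℂ, ‖β - m‖ < a → y ≠ β → y - m - χ y * (β - m) ≠ 0 := fun β y hβ hy h => by
    have h3 : y - m = χ y * (β - m) := sub_eq_zero.1 h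
    have h4 : ‖y - m‖ ≤ a := by
      rw [h3, norm_mul, norm_real, Real.norm_of_nonneg (c0 y)]
      nlinarith [c0 y, c1 y, norm_nonneg (β - m)]
    rw [c2 y h4, ofReal_one, one_mul] at h3
    exact hy (sub_left_injective h3)
  refine ⟨fun y => (y - m - χ y * (β₁ - m)) * conj (y - m - χ y * (β₂ - m)) *
    ((χ y : ℂ) + (1 - χ y) * ((y - m) * conj (y - m)))⁻¹, ?_, fun y y1 y2 => ?_,
    fun y hy => ?_, fun y hy => ?_⟩
  · exact ((hm.sub (hc.mul contDiff_const)).mul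
      (sframe_conj (hm.sub (hc.mul contDiff_const)))).mul
      ((hc.add ((contDiff_const.sub hc).mul (hm.mul (sframe_conj hm)))).inv hD)
  · exact mul_ne_zero (mul_ne_zero (hN _ _ h1 y1) ((map_ne_zero _).2 (hN _ _ h2 y2)))
      (inv_ne_zero (hD y))
  · have h3 := hD y
    simp only [c3 y hy, ofReal_zero, zero_mul, sub_zero, zero_add, one_mul] at h3 ⊢
    exact mul_inv_cancel₀ h3
  · simp only [c2 y hy, ofReal_one, one_mul, sub_self, zero_mul, add_zero, inv_one, mul_one,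
      sub_sub_sub_cancel_right]

theorem exists_frame {m β₁ β₂ : ℂ} {ρ : ℝ} (h1 : ‖β₁ - m‖ < ρ) (h2 : ‖β₂ - m‖ < ρ)
    (hne : β₁ ≠ β₂) : ∃ r > 0, ∃ d > 0, ∃ (Θ : ℂ → ℂ) (h : ℂ → ℝ), ContDiff ℝ ∞ Θ ∧
      ContDiff ℝ ∞ h ∧ (∀ y, y ≠ β₁ → y ≠ β₂ → Θ y ≠ 0) ∧
      (∀ y, ρ - d < ‖y - m‖ → Θ y = 1 ∧ h y = 0) ∧
      (∀ y, ‖y - β₁‖ < r → Θ y = (y - β₁) * conj (y - β₂) ∧ h y = 1 / 8 ∧ ‖y - m‖ < ρ - d) ∧
      ∀ y, ‖y - β₂‖ < r → Θ y = (y - β₁) * conj (y - β₂) ∧ h y = -(1 / 8) ∧ ‖y - m‖ < ρ - d := by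
  obtain ⟨d, d0, d1, d2⟩ : ∃ d > 0, ‖β₁ - m‖ + 4 * d ≤ ρ ∧ ‖β₂ - m‖ + 4 * d ≤ ρ :=
    ⟨(ρ - max ‖β₁ - m‖ ‖β₂ - m‖) / 4, by have := max_lt h1 h2; linarith,
      by have := le_max_left ‖β₁ - m‖ ‖β₂ - m‖; linarith,
      by have := le_max_right ‖β₁ - m‖ ‖β₂ - m‖; linarith⟩
  have hβ : 0 < ‖β₁ - β₂‖ := norm_pos_iff.2 (sub_ne_zero.2 hne)
  obtain ⟨r, r0, r1, r2⟩ : ∃ r > 0, r ≤ d ∧ 4 * r ≤ ‖β₁ - β₂‖ :=
    ⟨min d (‖β₁ - β₂‖ / 4), lt_min d0 (by linarith), min_le_left _ _,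
      by have := min_le_right d (‖β₁ - β₂‖ / 4); linarith⟩
  obtain ⟨Θ, t1, t2, t3, t4⟩ := sframe_theta (m := m) (β₁ := β₁) (β₂ := β₂) (a := ρ - 2 * d)
    (b := ρ - d) (by linarith) (by linarith) (by linarith)
  have hr : r < 2 * r := by linarith
  have tri : ∀ x y z : ℂ, ‖x - z‖ ≤ ‖x - y‖ + ‖y - z‖ := norm_sub_le_norm_sub_add_norm_sub
  refine ⟨r, r0, d, d0, Θ, fun y => (cut r (2 * r) ‖y - β₁‖ - cut r (2 * r) ‖y - β₂‖) / 8, t1,
    ((sframe_cut r0 hr _).sub (sframe_cut r0 hr _)).div_const _, t2, fun y hy => ⟨t3 y hy.le, ?_⟩,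
    fun y hy => ?_, fun y hy => ?_⟩
  · have e1 := tri y β₁ m
    have e2 := tri y β₂ m
    simp only
    rw [cut_zero hr (by linarith), cut_zero hr (by linarith), sub_self, zero_div]
  · have e1 := tri y β₁ m
    have e2 := tri β₁ y β₂
    rw [norm_sub_rev β₁ y] at e2
    refine ⟨t4 y (by linarith), ?_, by linarith⟩
    simp only
    rw [cut_one hr hy.le, cut_zero hr (by linarith), sub_zero]
  · have e1 := tri y β₂ m
    have e2 := tri β₁ y β₂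
    rw [norm_sub_rev β₁ y] at e2
    refine ⟨t4 y (by linarith), ?_, by linarith⟩
    simp only
    rw [cut_one hr hy.le, cut_zero hr (by linarith), zero_sub, neg_div]

lemma sframe_aff {Θ c : ℂ → ℂ} (hΘ : ContDiff ℝ ∞ Θ) (hc : ContDiff ℝ ∞ c) (β : ℂ)
    {p : CC} (hp : Θ p.1 ≠ 0) : LDf (fun p : CC => ((p.1 - β, c p.1 + Θ p.1 * p.2) : CC)) p := by
  have h1 : ContDiff ℝ ∞ fun q : CC => q.1 + β := contDiff_fst.add contDiff_const
  refine ⟨ContDiff.contDiffAt ((contDiff_fst.sub contDiff_const).prodMk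
    ((hc.comp contDiff_fst).add ((hΘ.comp contDiff_fst).mul contDiff_snd))),
    fun q => (q.1 + β, (Θ (q.1 + β))⁻¹ * (q.2 - c (q.1 + β))), ?_, ?_, ?_⟩
  · refine h1.contDiffAt.prodMk (((hΘ.comp h1).contDiffAt.inv ?_).mul
      (contDiff_snd.sub (hc.comp h1)).contDiffAt)
    simpa using hp
  · filter_upwards [(hΘ.comp contDiff_fst).continuous.continuousAt.eventually_ne hp] with z hz
    have hz' : Θ z.1 ≠ 0 := hz
    refine Prod.ext (by simp) ?_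
    simp only [sub_add_cancel]
    field_simp
    ring
  · have h2 : Θ (((p.1 - β, c p.1 + Θ p.1 * p.2) : CC).1 + β) ≠ 0 := by simpa using hp
    filter_upwards [(hΘ.comp h1).continuous.continuousAt.eventually_ne h2] with z hz
    have hz' : Θ (z.1 + β) ≠ 0 := hz
    refine Prod.ext (by simp) ?_
    simp only
    field_simp
    ring

/-- The fibrewise affine map defined by the framing. -/
lemma ldf_frame {Θ : ℂ → ℂ} {h : ℂ → ℝ} (hΘ : ContDiff ℝ ∞ Θ) (hh : ContDiff ℝ ∞ h) (v : ℂ)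
    {p : CC} (hp : Θ p.1 ≠ 0) :
    LDf (fun p : CC => ((p.1, v + h p.1 + Θ p.1 * (p.2 - v)) : CC)) p := by
  have h1 := sframe_aff (c := fun y => v + h y - Θ y * v) hΘ
    ((contDiff_const.add (sframe_re hh)).sub (hΘ.mul contDiff_const)) 0 hp
  refine h1.congr (.of_forall fun z => Prod.ext (by simp) ?_)
  simp only
  ring

lemma ldf_one (β β' v : ℂ) {p : CC} (hp : p.1 ≠ β') :
    LDf (fun p : CC => ((p.1 - β, -((p.1 - β') * conj (p.2 - v))) : CC)) p := by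
  have h0 : ContDiff ℝ ∞ fun q : CC => ((q.1, conj q.2) : CC) :=
    contDiff_fst.prodMk (sframe_conj contDiff_snd)
  have h1 : LDf (fun q : CC => ((q.1, conj q.2) : CC)) p :=
    ldf_of_inv h0.contDiffAt h0.contDiffAt (fun z => by simp) fun z => by simp
  have h2 := sframe_aff (Θ := fun y => β' - y) (c := fun y => (y - β') * conj v)
    (contDiff_const.sub contDiff_id) ((contDiff_id.sub contDiff_const).mul contDiff_const) β
    (p := (p.1, conj p.2)) (sub_ne_zero.2 hp.symm)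
  refine (LDf.comp (θ := fun q : CC => ((q.1, conj q.2) : CC)) h2 h1).congr
    (.of_forall fun z => Prod.ext rfl ?_)
  simp only [Function.comp_apply, map_sub]
  ring

lemma ldf_two (β β' v : ℂ) {p : CC} (hp : p.1 ≠ β') :
    LDf (fun p : CC => ((p.1 - β, (p.1 - β') * (p.2 - v)) : CC)) p := by
  have h2 := sframe_aff (Θ := fun y => y - β') (c := fun y => -((y - β') * v))
    (contDiff_id.sub contDiff_const) ((contDiff_id.sub contDiff_const).mul contDiff_const).neg β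
    (p := p) (sub_ne_zero.2 hp)
  refine h2.congr (.of_forall fun z => Prod.ext rfl ?_)
  simp only
  ring

end Pool.Agent.Lib.MP_45bb13_gt
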