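import Pool.Agent.Lib.MP_45bb13_gt.Sm.Cap
import Pool.Agent.Lib.MP_45bb13_gt.Sm.Frame

/-! The smooth framed disc bounded by a circle around two strands. -/

set_option linter.unusedSectionVars false

namespace Pool.Agent.Lib.MP_45bb13_gt

open Set Filter Topology Complex
open scoped ComplexConjugate ContDiff

/-- Two points of the middle slice with the same image have the same first coordinate. -/
lemma sdisc_prT {ι : Type} (A : Br ι) {y v y' v' : ℂ} (h : (y, v) ∈ A.domT)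
    (h' : (y', v') ∈ A.domT) (hv : v.im = 1 / 2) (hv' : v'.im = 1 / 2)
    (e : A.prT (y, v) = A.prT (y', v')) : y = y' := by
  obtain ⟨g, hg⟩ := (A.prT_eq_iff h h').1 e
  rw [actT_def] at hg
  obtain ⟨h1, h2⟩ := Prod.mk.inj hg
  have h3 : v.im + g.n = v'.im := congrArg Complex.im h2
  have h5 : g.n = 0 := by
    have a1 : (g.n : ℝ) = 0 := by linarith
    exact_mod_cast a1
  rw [h5, cj_zero] at h1
  exact h1

/-- A point of the middle slice whose image lies in a small cap is close to the strand. -/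
lemma sdisc_near {ι : Type} [Finite ι] (A : Br ι) {i : ι} {y v : ℂ} {r : ℝ} (he : r ≤ A.eps)
    (h : (y, v) ∈ A.domT) (hv : v.im = 1 / 2) (e : A.prT (y, v) ∈ A.jj (some i) '' Nr r) :
    ‖y - A.b i (1 / 2)‖ < r := by
  have h1 := ((A.near_iff h he).1 e).2
  rwa [Br.dst, hv] at h1

lemma sdisc_gap {ι : Type} [Finite ι] (A : Br ι) {m ρ : ℝ} {i₁ i₂ : ι}
    (h1 : ‖A.b i₁ (1 / 2) - m‖ < ρ) (h2 : ‖A.b i₂ (1 / 2) - m‖ < ρ)
    (h3 : ∀ i, i ≠ i₁ → i ≠ i₂ → ρ < ‖A.b i (1 / 2) - m‖) :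
    ∃ d₁ > 0, ∀ i, d₁ < |‖A.b i (1 / 2) - m‖ - ρ| := by
  have : Nonempty ι := ⟨i₁⟩
  obtain ⟨i₀, hi₀⟩ := Finite.exists_min fun i => |‖A.b i (1 / 2) - m‖ - ρ|
  have : 0 < |‖A.b i₀ (1 / 2) - m‖ - ρ| := by
    rw [abs_pos, sub_ne_zero]
    by_cases e1 : i₀ = i₁
    · rw [e1]; exact h1.ne
    by_cases e2 : i₀ = i₂
    · rw [e2]; exact h2.ne
    exact (h3 _ e1 e2).ne'
  exact ⟨_, half_pos this, fun i => (half_lt_self this).trans_le (hi₀ i)⟩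

/-- A map that is a chart composed with a change of coordinates on an open set. -/
lemma sdisc_ch {A X : Type} [TopologicalSpace X] {P : PS A X} {E D : CC → X} {θ : CC → CC}
    {U : Set CC} (hU : IsOpen U) {p : CC} (hp : p ∈ U) (hE : ∀ q ∈ U, E q = D (θ q))
    (hθ : ∀ q ∈ U, LDf θ q) (hD : ∀ᶠ q in 𝓝 (θ p), P.Ch D q) : ∀ᶠ q in 𝓝 p, P.Ch E q := by
  filter_upwards [hU.mem_nhds hp, (hθ p hp).continuousAt.eventually hD] with q hq hq'
  exact (hq'.comp (hθ q hq)).congr ((hU.eventually_mem hq).mono fun z hz => hE z hz)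

lemma sdisc_one (β β' y ζ : ℂ) : ((⟨1 / 4 + sgb true * (1 / 8 - (conj (y - β) *
      -((y - β') * conj ζ)).re), 1 / 2 + (conj (y - β) * -((y - β') * conj ζ)).im⟩ : ℂ)) =
      (⟨1 / 4, 1 / 2⟩ : ℂ) + ((1 / 8 : ℝ) : ℂ) + (y - β) * conj (y - β') * ζ := by
  have h : conj (y - β) * -((y - β') * conj ζ) = -conj ((y - β) * conj (y - β') * ζ) := by
    simp only [map_mul, conj_conj]
    ring
  rw [h]
  generalize (y - β) * conj (y - β') * ζ = w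
  apply Complex.ext
  · simp only [sgb, if_true, neg_re, conj_re, add_re, ofReal_re]
    ring
  · simp only [neg_im, conj_im, add_im, ofReal_im]
    ring

lemma sdisc_two (β β' y ζ : ℂ) : ((⟨1 / 4 + sgb false * (1 / 8 - (conj (y - β') *
      ((y - β) * ζ)).re), 1 / 2 + (conj (y - β') * ((y - β) * ζ)).im⟩ : ℂ)) =
      (⟨1 / 4, 1 / 2⟩ : ℂ) + ((-(1 / 8) : ℝ) : ℂ) + (y - β) * conj (y - β') * ζ := by
  have h : conj (y - β') * ((y - β) * ζ) = (y - β) * conj (y - β') * ζ := by ring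
  rw [h]
  generalize (y - β) * conj (y - β') * ζ = w
  apply Complex.ext
  · simp only [sgb, Bool.false_eq_true, if_false, add_re, ofReal_re]
    ring
  · simp only [add_im, ofReal_im]
    ring

theorem Br.exists_disc {ι : Type} [Finite ι] (A : Br ι) {m ρ : ℝ} {i₁ i₂ : ι} (h12 : i₁ ≠ i₂)
    (hc : ∀ i, ∀ t ∈ Icc (3 / 8 : ℝ) (5 / 8), A.b i t = A.b i (1 / 2))
    (h1 : ‖A.b i₁ (1 / 2) - m‖ < ρ) (h2 : ‖A.b i₂ (1 / 2) - m‖ < ρ)
    (h3 : ∀ i, i ≠ i₁ → i ≠ i₂ → ρ < ‖A.b i (1 / 2) - m‖) :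
    ∃ d > 0, (∀ i, d < |‖A.b i (1 / 2) - m‖ - ρ|) ∧ ∃ E : CC → A.X,
      (∀ y : ℂ, ‖y - m‖ ≤ ρ → ∀ᶠ q in 𝓝 ((y, ⟨1 / 4, 1 / 2⟩) : CC), A.XP.Ch E q) ∧
      (∀ y v : ℂ, ρ - d < ‖y - m‖ → E (y, v) = A.prT (y, v)) ∧
      InjOn (fun y : ℂ => E (y, ⟨1 / 4, 1 / 2⟩)) {y | ‖y - m‖ ≤ ρ} ∧
      ∀ y y' : ℂ, ∀ z : ℝ, ‖y - m‖ ≤ ρ → ‖y' - m‖ = ρ →
        E (y, ⟨1 / 4, 1 / 2⟩) = A.prT (y', ⟨z, 1 / 2⟩) → y = y' := by
  classical
  obtain ⟨d₁, hd₁, hd⟩ := sdisc_gap A h1 h2 h3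
  obtain ⟨r, hr, d, hd0, Θ, h, hΘ, hh, t0, t1, t2, t3⟩ :=
    exists_frame h1 h2 fun e => h12 (A.inj _ _ _ e)
  obtain ⟨s, hs, s1, s2, s3⟩ : ∃ s > 0, 3 * s ≤ r ∧ 3 * s ≤ A.eps ∧ s ≤ 1 / 16 := by
    have := A.eps_pos
    refine ⟨min (min (r / 3) (A.eps / 3)) (1 / 16), by positivity, ?_, ?_, min_le_right _ _⟩
    · linarith [(min_le_left _ (1 / 16 : ℝ)).trans (min_le_left (r / 3) (A.eps / 3))]
    · linarith [(min_le_left _ (1 / 16 : ℝ)).trans (min_le_right (r / 3) (A.eps / 3))]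
  obtain ⟨D₁, p1, p2, p3, p4⟩ := A.exists_cap i₁ true (hc i₁) hs s3
  obtain ⟨D₂, q1, q2, q3, q4⟩ := A.exists_cap i₂ false (hc i₂) hs s3
  have hsep := A.eps_spec.2.2.1 (1 / 2) i₁ i₂ h12
  have hb : ∀ y v : ℂ, v.im = 1 / 2 → ‖y - m‖ ≤ ρ → ¬‖y - A.b i₁ (1 / 2)‖ < 3 * s →
      ¬‖y - A.b i₂ (1 / 2)‖ < 3 * s → (y, v) ∈ A.domT := fun y v hv hy e1 e2 i e => by
    simp only [hv] at e
    by_cases f1 : i = i₁
    · rw [e, f1, sub_self, norm_zero] at e1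
      exact e1 (by positivity)
    by_cases f2 : i = i₂
    · rw [e, f2, sub_self, norm_zero] at e2
      exact e2 (by positivity)
    have := h3 i f1 f2
    rw [← e] at this
    linarith
  have hn1 := fun {y v : ℂ} => sdisc_near A (i := i₁) (y := y) (v := v) s2
  have hn2 := fun {y v : ℂ} => sdisc_near A (i := i₂) (y := y) (v := v) s2
  generalize A.b i₁ (1 / 2) = β₁ at *
  generalize A.b i₂ (1 / 2) = β₂ at *
  generalize hv₀ : (⟨1 / 4, 1 / 2⟩ : ℂ) = v₀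
  have hv₁ : v₀.im = 1 / 2 := by rw [← hv₀]
  have hdis : ∀ y : ℂ, ‖y - β₂‖ < 3 * s → ¬‖y - β₁‖ < 3 * s := fun y e2 e1 => by
    have : ‖β₁ - β₂‖ ≤ ‖y - β₁‖ + ‖y - β₂‖ := by
      rw [show β₁ - β₂ = -(y - β₁) + (y - β₂) by ring]
      exact (norm_add_le _ _).trans (by rw [norm_neg])
    linarith
  obtain ⟨E, e1, e2, e3⟩ : ∃ E : CC → A.X,
      (∀ q : CC, ‖q.1 - β₁‖ < 3 * s → E q = D₁ (q.1 - β₁, -((q.1 - β₂) * conj (q.2 - v₀)))) ∧
      (∀ q : CC, ‖q.1 - β₂‖ < 3 * s → E q = D₂ (q.1 - β₂, (q.1 - β₁) * (q.2 - v₀))) ∧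
      ∀ q : CC, ¬‖q.1 - β₁‖ < 3 * s → ¬‖q.1 - β₂‖ < 3 * s →
        E q = A.prT (q.1, v₀ + h q.1 + Θ q.1 * (q.2 - v₀)) :=
    ⟨fun q => if ‖q.1 - β₁‖ < 3 * s then D₁ (q.1 - β₁, -((q.1 - β₂) * conj (q.2 - v₀))) else
      if ‖q.1 - β₂‖ < 3 * s then D₂ (q.1 - β₂, (q.1 - β₁) * (q.2 - v₀)) else
        A.prT (q.1, v₀ + h q.1 + Θ q.1 * (q.2 - v₀)), fun q hq => if_pos hq,
      fun q hq => (if_neg (hdis _ hq)).trans (if_pos hq),
      fun q hq hq' => (if_neg hq).trans (if_neg hq')⟩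
  have c1 : ∀ y : ℂ, ‖y - β₁‖ < 3 * s → E (y, v₀) = D₁ (y - β₁, 0) := fun y hy => by
    rw [e1 _ hy]
    simp
  have c2 : ∀ y : ℂ, ‖y - β₂‖ < 3 * s → E (y, v₀) = D₂ (y - β₂, 0) := fun y hy => by
    rw [e2 _ hy]
    simp
  have c3 : ∀ y : ℂ, ¬‖y - β₁‖ < 3 * s → ¬‖y - β₂‖ < 3 * s →
      E (y, v₀) = A.prT (y, v₀ + h y) := fun y hy hy' => by
    rw [e3 _ hy hy']
    simp
  have c4 : ∀ y : ℂ, (v₀ + h y).im = 1 / 2 := fun y => by rw [add_im, ofReal_im, hv₁, add_zero]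
  have key : ∀ y y' w : ℂ, ‖y - m‖ ≤ ρ → ‖y' - m‖ ≤ ρ → w.im = 1 / 2 → ¬‖y' - β₁‖ < 3 * s →
      ¬‖y' - β₂‖ < 3 * s → E (y, v₀) = A.prT (y', w) → y = y' := fun y y' w hy hy' hw f1 f2 e => by
    have g0 := hb y' w hw hy' f1 f2
    by_cases g1 : ‖y - β₁‖ < 3 * s
    · exact absurd (hn1 g0 hw (by rw [← e, c1 y g1]; exact p3 _ _ g1)) f1
    by_cases g2 : ‖y - β₂‖ < 3 * s
    · exact absurd (hn2 g0 hw (by rw [← e, c2 y g2]; exact q3 _ _ g2)) f2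
    rw [c3 y g1 g2] at e
    exact sdisc_prT A (hb y _ (c4 y) hy g1 g2) g0 (c4 y) hw e
  have mix : ∀ y y' : ℂ, ‖y - β₁‖ < 3 * s → ‖y' - β₂‖ < 3 * s → E (y, v₀) ≠ E (y', v₀) :=
    fun y y' hy hy' e => by
      obtain ⟨n, hn, en⟩ := p3 _ _ (hy.trans_le s2)
      obtain ⟨n', hn', en'⟩ := q3 _ _ (hy'.trans_le s2)
      rw [c1 y hy, c2 y' hy', ← en, ← en'] at e
      exact h12 (Option.some.inj (A.jj_disj hn hn' e))
  refine ⟨min d d₁, lt_min hd0 hd₁, fun i => (min_le_right _ _).trans_lt (hd i), E,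
    fun y hy => ?_, fun y v hy => ?_, fun y hy y' hy' e => ?_, fun y y' z hy hy' e => ?_⟩
  · by_cases g1 : ‖y - β₁‖ < 3 * s
    · refine sdisc_ch (D := D₁) (θ := fun p : CC => ((p.1 - β₁, -((p.1 - β₂) * conj (p.2 - v₀))) : CC))
        (U := {q | ‖q.1 - β₁‖ < 3 * s}) (isOpen_lt (by fun_prop) continuous_const) g1 e1
        (fun q hq => ldf_one β₁ β₂ v₀ fun e => hdis q.1 (by rw [e, sub_self, norm_zero]; positivity) hq)
        ?_
      simpa using p1 _ (g1.trans_le s2)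
    by_cases g2 : ‖y - β₂‖ < 3 * s
    · refine sdisc_ch (D := D₂) (θ := fun p : CC => ((p.1 - β₂, (p.1 - β₁) * (p.2 - v₀)) : CC))
        (U := {q | ‖q.1 - β₂‖ < 3 * s}) (isOpen_lt (by fun_prop) continuous_const) g2 e2
        (fun q hq => ldf_two β₂ β₁ v₀ fun e => hdis q.1 hq (by rw [e, sub_self, norm_zero]; positivity))
        ?_
      simpa using q1 _ (g2.trans_le s2)
    refine sdisc_ch (D := A.prT)
      (θ := fun p : CC => ((p.1, v₀ + h p.1 + Θ p.1 * (p.2 - v₀)) : CC))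
      (U := {q | 2 * s < ‖q.1 - β₁‖ ∧ 2 * s < ‖q.1 - β₂‖ ∧
        ‖q.1 - β₁‖ * (‖q.1 - β₂‖ * ‖q.2 - v₀‖) < 1 / 8})
      (IsOpen.and (isOpen_lt continuous_const (by fun_prop)) (IsOpen.and
        (isOpen_lt continuous_const (by fun_prop)) (isOpen_lt (by fun_prop) continuous_const)))
      ⟨by simp only; linarith, by simp only; linarith, by simp⟩ (fun q hq => ?_)
      (fun q hq => ldf_frame hΘ hh v₀ (t0 _ (fun e => ?_) fun e => ?_)) ?_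
    · by_cases f1 : ‖q.1 - β₁‖ < 3 * s
      · obtain ⟨a1, a2, -⟩ := t2 q.1 (f1.trans_le s1)
        rw [e1 q f1, p4 _ _ hq.1.le (by rw [norm_neg, norm_mul, norm_conj]; exact hq.2.2),
          sdisc_one, hv₀, a1, a2, add_sub_cancel]
      by_cases f2 : ‖q.1 - β₂‖ < 3 * s
      · obtain ⟨a1, a2, -⟩ := t3 q.1 (f2.trans_le s1)
        rw [e2 q f2, q4 _ _ hq.2.1.le (by rw [norm_mul, mul_left_comm]; exact hq.2.2),
          sdisc_two, hv₀, a1, a2, add_sub_cancel]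
      exact e3 q f1 f2
    · have := hq.1
      rw [e, sub_self, norm_zero] at this
      linarith
    · have := hq.2.1
      rw [e, sub_self, norm_zero] at this
      linarith
    · have g0 := hb y _ (c4 y) hy g1 g2
      simp only [sub_self, mul_zero, add_zero]
      exact (A.isOpen_domT.eventually_mem g0).mono fun q hq => A.ch_prT hq
  · have hy' : ρ - d < ‖y - m‖ := by linarith [min_le_left d d₁]
    obtain ⟨a1, a2⟩ := t1 y hy'
    rw [e3 (y, v) (fun f => by linarith [(t2 y (f.trans_le s1)).2.2])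
      fun f => by linarith [(t3 y (f.trans_le s1)).2.2]]
    simp [a1, a2]
  · simp only at e
    by_cases g1 : ‖y' - β₁‖ < 3 * s
    · by_cases f1 : ‖y - β₁‖ < 3 * s
      · rw [c1 y f1, c1 y' g1] at e
        exact sub_left_injective (p2 (f1.trans_le s2) (g1.trans_le s2) e)
      by_cases f2 : ‖y - β₂‖ < 3 * s
      · exact absurd e.symm (mix _ _ g1 f2)
      exact (key y' y _ hy' hy (c4 y) f1 f2 (by rw [← e, c3 y f1 f2])).symm
    by_cases g2 : ‖y' - β₂‖ < 3 * s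
    · by_cases f1 : ‖y - β₁‖ < 3 * s
      · exact absurd e (mix _ _ f1 g2)
      by_cases f2 : ‖y - β₂‖ < 3 * s
      · rw [c2 y f2, c2 y' g2] at e
        exact sub_left_injective (q2 (f2.trans_le s2) (g2.trans_le s2) e)
      exact (key y' y _ hy' hy (c4 y) f1 f2 (by rw [← e, c3 y f1 f2])).symm
    exact key y y' _ hy hy' (c4 y') g1 g2 (by rw [e, c3 y' g1 g2])
  · exact key y y' _ hy hy'.le rfl (fun f => by linarith [(t2 y' (f.trans_le s1)).2.2])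
      (fun f => by linarith [(t3 y' (f.trans_le s1)).2.2]) e

end Pool.Agent.Lib.MP_45bb13_gt
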