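import Pool.Agent.Lib.MP_45bb13_gt.Sm.Disc

/-! The smooth embedding of the thickened torus with a two-handle. -/

set_option linter.unusedSectionVars false

namespace Pool.Agent.Lib.MP_45bb13_gt

open Set Filter Topology Complex
open scoped ComplexConjugate ContDiff

/-- The closed thickenings of the core. -/
def sembK (m ρ δ : ℝ) : Set MM :=
  {p | ‖p.1 - m‖ ≤ ρ + δ ∧ |p.2.2 - 1 / 2| ≤ δ ∧ 1 - δ ≤ nrm m ρ p}

lemma semb_closed (m ρ δ : ℝ) : IsClosed (sembK m ρ δ) := by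
  have o1 : IsClosed {p : MM | ‖p.1 - m‖ ≤ ρ + δ} := isClosed_le (by fun_prop) continuous_const
  have o2 : IsClosed {p : MM | |p.2.2 - 1 / 2| ≤ δ} := isClosed_le (by fun_prop) continuous_const
  have o3 : IsClosed {p : MM | 1 - δ ≤ nrm m ρ p} :=
    isClosed_le continuous_const (by unfold nrm; fun_prop)
  exact o1.inter (o2.inter o3)

lemma semb_compact (m ρ δ : ℝ) : IsCompact (sembK m ρ δ) := by
  have h : IsCompact (Metric.closedBall (m : ℂ) (ρ + δ) ×ˢ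
      ((univ : Set UnitAddCircle) ×ˢ Metric.closedBall (1 / 2 : ℝ) δ)) :=
    (isCompact_closedBall _ _).prod (isCompact_univ.prod (isCompact_closedBall _ _))
  refine h.of_isClosed_subset (semb_closed m ρ δ) fun p hp => ⟨?_, mem_univ _, ?_⟩
  · rw [Metric.mem_closedBall, dist_eq_norm]
    exact hp.1
  · rw [Metric.mem_closedBall, Real.dist_eq]
    exact hp.2.1

lemma semb_mono (m ρ : ℝ) {δ δ' : ℝ} (h : δ ≤ δ') : sembK m ρ δ ⊆ sembK m ρ δ' := fun _ hp =>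
  ⟨by linarith [hp.1], by linarith [hp.2.1], by linarith [hp.2.2]⟩

lemma semb_zero (m ρ : ℝ) :
    {p : MM | ‖p.1 - m‖ ≤ ρ ∧ p.2.2 = 1 / 2 ∧ 1 ≤ nrm m ρ p} = sembK m ρ 0 := by
  ext p
  simp only [sembK, mem_ofPred_eq, add_zero, sub_zero, abs_nonpos_iff, sub_eq_zero]

/-- The domains shrink to the core. -/
lemma domG_subset (m : ℝ) {ρ : ℝ} (hρ : 0 < ρ) {W : Set MM}
    (hW : W ∈ 𝓝ˢ {p : MM | ‖p.1 - m‖ ≤ ρ ∧ p.2.2 = 1 / 2 ∧ 1 ≤ nrm m ρ p}) :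
    ∃ δ > 0, ∀ δ' ≤ δ, domG m ρ δ' ⊆ W := by
  have _ := hρ
  rw [semb_zero] at hW
  have : Nonempty (Ioi (0 : ℝ)) := ⟨⟨1, mem_Ioi.2 one_pos⟩⟩
  obtain ⟨δ, hδ⟩ := exists_subset_nhds_of_isCompact' (V := fun δ : Ioi (0 : ℝ) => sembK m ρ δ)
    (U := W)
    (fun a b => ⟨⟨min a b, mem_Ioi.2 (lt_min (mem_Ioi.1 a.2) (mem_Ioi.1 b.2))⟩,
      semb_mono m ρ (min_le_left _ _),
      semb_mono m ρ (min_le_right _ _)⟩)
    (fun δ => semb_compact m ρ δ) (fun δ => semb_closed m ρ δ) (fun p hp => by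
      refine mem_nhdsSet_iff_forall.1 hW p ?_
      have h : ∀ δ : ℝ, 0 < δ → p ∈ sembK m ρ δ := fun δ hδ => mem_iInter.1 hp ⟨δ, hδ⟩
      refine ⟨le_of_forall_pos_le_add fun δ hδ => ?_, le_of_forall_pos_le_add fun δ hδ => ?_,
        le_of_forall_pos_le_add fun δ hδ => ?_⟩
      · linarith [(h δ hδ).1]
      · linarith [(h δ hδ).2.1]
      · linarith [(h δ hδ).2.2])
  exact ⟨δ, δ.2, fun δ' h p hp => hδ (semb_mono m ρ h ⟨hp.1.le, hp.2.1.le, hp.2.2.le⟩)⟩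

/-- The point of the circle opposite to `3 / 4`. -/
lemma semb_quarter {x : UnitAddCircle} (h : 1 ≤ 2 * ‖x - ((3 / 4 : ℝ) : UnitAddCircle)‖) :
    x = ((1 / 4 : ℝ) : UnitAddCircle) := by
  obtain ⟨lf, -, f2, f3⟩ := emb_lift
  have h1 : |lf x - 1 / 4| ≤ 0 := le_of_forall_pos_le_add fun δ hδ => by
    have := f3 x δ (by linarith)
    linarith
  rw [← f2 x, sub_eq_zero.1 (abs_nonpos_iff.1 h1)]

/-- The section of the circle with values in `[-1 / 4, 3 / 4)`. -/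
noncomputable def sembL (x : UnitAddCircle) : ℝ := (AddCircle.equivIco (1 : ℝ) (-(1 / 4)) x : ℝ)

lemma semb_coe (x : UnitAddCircle) : ((sembL x : ℝ) : UnitAddCircle) = x :=
  (AddCircle.equivIco (1 : ℝ) (-(1 / 4))).symm_apply_apply x

lemma semb_lift {z : ℝ} (h : |z - 1 / 4| < 1 / 2) : sembL (z : UnitAddCircle) = z := by
  have h1 := abs_lt.1 h
  have h2 : z ∈ Ico (-(1 / 4) : ℝ) (-(1 / 4) + 1) := ⟨by linarith [h1.1], by linarith [h1.2]⟩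
  rw [sembL, AddCircle.equivIco_coe_eq h2]

theorem Br.exists_semb {ι : Type} [Finite ι] (A : Br ι) (hA : A.Sm) {m ρ : ℝ} {i₁ i₂ : ι}
    (h12 : i₁ ≠ i₂) (hc : ∀ i, ∀ t ∈ Icc (3 / 8 : ℝ) (5 / 8), A.b i t = A.b i (1 / 2))
    (h1 : ‖A.b i₁ (1 / 2) - m‖ < ρ) (h2 : ‖A.b i₂ (1 / 2) - m‖ < ρ)
    (h3 : ∀ i, i ≠ i₁ → i ≠ i₂ → ρ < ‖A.b i (1 / 2) - m‖) :
    ∃ δ > 0, δ < 1 / 8 ∧ (∀ i, δ < |‖A.b i (1 / 2) - m‖ - ρ|) ∧ ∃ e : MM → A.X,
      (∀ p ∈ domG m ρ δ, LD PM A.XP e p) ∧ InjOn e (domG m ρ δ) ∧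
      ∀ p ∈ domG m ρ δ, ρ - δ < ‖p.1 - m‖ → e p = A.prC p := by
  obtain ⟨d, hd, hd', E, e1, e2, e3, e4⟩ := A.exists_disc h12 hc h1 h2 h3
  have hρ : 0 < ρ := (norm_nonneg _).trans_lt h1
  have := A.t2
  obtain ⟨e, he⟩ : ∃ e : MM → A.X, ∀ p, e p = E (p.1, ⟨sembL p.2.1, p.2.2⟩) := ⟨_, fun _ => rfl⟩
  have k1 : ∀ p : MM, ρ - d < ‖p.1 - m‖ → e p = A.prC p := fun p h => by
    rw [he, e2 _ _ h, ← A.prC_eq, semb_coe]
  have k2 : ∀ q : CC, |q.2.re - 1 / 4| < 1 / 2 → e (cv q) = E q := fun q h => by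
    rw [he]
    simp only [cv]
    rw [semb_lift h]
  have hC : ∀ p : MM, |‖p.1 - m‖ - ρ| < d → |p.2.2 - 1 / 2| < 1 / 8 → ∀ i, p.1 ≠ A.b i p.2.2 :=
    fun p a1 a2 i a3 => by
      have a4 := abs_lt.1 a2
      have a5 := hd' i
      rw [← hc i p.2.2 ⟨by linarith [a4.1], by linarith [a4.2]⟩, ← a3] at a5
      exact lt_asymm a1 a5
  obtain ⟨K, hK⟩ : ∃ K, K = {p : MM | ‖p.1 - m‖ ≤ ρ ∧ p.2.2 = 1 / 2 ∧ 1 ≤ nrm m ρ p} := ⟨_, rfl⟩
  have c1 : ∀ p ∈ K, ‖p.1 - m‖ ≤ ρ := fun p hp => (hK ▸ hp :).1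
  have c2 : ∀ p ∈ K, p.2.2 = 1 / 2 := fun p hp => (hK ▸ hp :).2.1
  have c3 : ∀ p ∈ K, ‖p.1 - m‖ = ρ ∨ p = cv (p.1, ⟨1 / 4, 1 / 2⟩) := fun p hp => by
    have a1 : 1 ≤ nrm m ρ p := (hK ▸ hp :).2.2
    rcases le_max_iff.1 a1 with a2 | a2
    · exact .inl (le_antisymm (c1 p hp) (by rwa [le_div_iff₀ hρ, one_mul] at a2))
    · exact .inr (Prod.ext rfl (Prod.ext (semb_quarter a2) (c2 p hp)))
  have c4 : ∀ y : ℂ, e (cv (y, ⟨1 / 4, 1 / 2⟩)) = E (y, ⟨1 / 4, 1 / 2⟩) := fun y =>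
    k2 _ (by norm_num)
  have hLD : ∀ p ∈ K, ∀ᶠ q in 𝓝 p, LD PM A.XP e q := fun p hp => by
    rcases c3 p hp with a1 | a1
    · have o1 : IsOpen {q : MM | |‖q.1 - m‖ - ρ| < d} := isOpen_lt (by fun_prop) continuous_const
      have o2 : IsOpen {q : MM | |q.2.2 - 1 / 2| < 1 / 8} :=
        isOpen_lt (by fun_prop) continuous_const
      have b1 : p ∈ {q : MM | |‖q.1 - m‖ - ρ| < d} := by
        rw [mem_ofPred_eq, a1, sub_self, abs_zero]; exact hd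
      have b2 : p ∈ {q : MM | |q.2.2 - 1 / 2| < 1 / 8} := by
        rw [mem_ofPred_eq, c2 p hp, sub_self, abs_zero]; norm_num
      filter_upwards [o1.mem_nhds b1, o2.mem_nhds b2] with q q1 q2
      refine LD.congr good_PM (A.ld_prC (hC q q1 q2)) ?_
      filter_upwards [o1.mem_nhds q1] with r r1
      exact k1 r (by linarith [(abs_lt.1 r1).1])
    · have o : IsOpen {q : CC | |q.2.re - 1 / 4| < 1 / 2} :=
        isOpen_lt (by fun_prop) continuous_const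
      rw [a1, ← lo_cv.2 _ (mem_univ _), eventually_map]
      filter_upwards [e1 p.1 (c1 p hp), o.mem_nhds (show |(1 / 4 : ℝ) - 1 / 4| < 1 / 2 by norm_num)]
        with q q1 q2
      refine ⟨cv, q, rfl, ch_cv q, q1.congr ?_⟩
      filter_upwards [o.mem_nhds q2] with r r1
      exact k2 r r1
  have hcirc : ∀ p ∈ K, ∀ q ∈ K, ‖p.1 - m‖ = ρ → ‖q.1 - m‖ = ρ → e p = e q → p = q :=
    fun p hp q hq a1 a2 a3 => by
      have b : ∀ r ∈ K, ‖r.1 - m‖ = ρ → (∀ i, r.1 ≠ A.b i r.2.2) ∧ r.2.2 ∈ Ioo (0 : ℝ) 1 :=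
        fun r hr a => ⟨hC r (by rw [a, sub_self, abs_zero]; exact hd)
          (by rw [c2 r hr, sub_self, abs_zero]; norm_num), by rw [c2 r hr]; norm_num⟩
      rw [k1 p (by linarith), k1 q (by linarith)] at a3
      exact A.injOn_prC (b p hp a1) (b q hq a2) a3
  have hmix : ∀ p ∈ K, ∀ q ∈ K, ‖q.1 - m‖ = ρ → e p = e q → ‖p.1 - m‖ = ρ :=
    fun p hp q hq a2 a3 => by
      rcases c3 p hp with a1 | a1
      · exact a1
      · rw [a1, c4, he, e2 q.1 _ (by linarith), c2 q hq] at a3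
        rw [e4 _ _ _ (c1 p hp) a2 a3, a2]
  have hinj : InjOn e K := fun p hp q hq a3 => by
    rcases c3 q hq with a2 | a2
    · exact hcirc p hp q hq (hmix p hp q hq a2 a3) a2 a3
    rcases c3 p hp with a1 | a1
    · exact hcirc p hp q hq a1 (hmix q hq p hp a1 a3.symm) a3
    have a4 := a3
    rw [a1, a2, c4, c4] at a4
    rw [a1, a2, e3 (c1 p hp) (c1 q hq) a4]
  have hle : ∀ p ∈ K, Lemb e p := fun p hp => (hLD p hp).self_of_nhds.lemb good_PM hA.good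
  obtain ⟨W, w1, w2⟩ := hinj.exists_mem_nhdsSet (by rw [hK, semb_zero]; exact semb_compact m ρ 0)
    (fun p hp => (hle p hp).continuousAt) fun p hp =>
      let ⟨O, o1, o2, o3⟩ := hle p hp; ⟨O, o2.1.mem_nhds o1, o3⟩
  obtain ⟨δ₀, hδ₀, hsub⟩ := domG_subset m hρ
    (hK ▸ inter_mem w1 (mem_nhdsSet_iff_forall.2 hLD))
  obtain ⟨δ, hδ, d1, d2, d3⟩ : ∃ δ > 0, δ ≤ δ₀ ∧ δ ≤ d ∧ δ ≤ 1 / 16 :=
    ⟨min δ₀ (min d (1 / 16)), by positivity, min_le_left _ _,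
      (min_le_right _ _).trans (min_le_left _ _), (min_le_right _ _).trans (min_le_right _ _)⟩
  exact ⟨δ, hδ, by linarith, fun i => d2.trans_lt (hd' i), e, fun p hp => (hsub δ d1 hp).2,
    w2.mono fun p hp => (hsub δ d1 hp).1, fun p _ h => k1 p (by linarith)⟩

end Pool.Agent.Lib.MP_45bb13_gt
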