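import Pool.Agent.Lib.MP_45bb13_gt.Sm.Ch
import Pool.Agent.Lib.MP_45bb13_gt.XAct

/-! One smooth structure for all the actions. -/

set_option linter.unusedSectionVars false

namespace Pool.Agent.Lib.MP_45bb13_gt

open Set Filter Topology Complex
open scoped ComplexConjugate ContDiff

open scoped Manifold

/-- The map is smooth in the charts of the atlas. -/
def PS.SmMap {A X : Type} (P : PS A X) (F : X → X) : Prop :=
  ∀ a, ∀ x ∈ P.dom a, ∃ b, ∃ y ∈ P.dom b, Comp ∞ (F ∘ P.map a) x (P.map b) y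

/-- The smooth structure defined by an atlas. -/
theorem PS.Good.final2 {A X : Type} [TopologicalSpace X] {P : PS A X} (h : P.Good ∞) :
    ∃ _ : ChartedSpace (EuclideanSpace ℝ (Fin 4)) X, IsManifold (𝓡 4) ∞ X ∧
      ∀ F : X → X, Continuous F → P.SmMap F → ContMDiff (𝓡 4) (𝓡 4) ∞ F := by
  let L : CC ≃L[ℝ] EuclideanSpace ℝ (Fin 4) :=
    ContinuousLinearEquiv.ofFinrankEq (by simp)
  let S : Set (OpenPartialHomeomorph X (EuclideanSpace ℝ (Fin 4))) :=
    {φ | ∃ a, (∀ w ∈ φ.target, L.symm w ∈ P.dom a) ∧ ∀ w, φ.symm w = P.map a (L.symm w)}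
  have hS : ∀ y : X, ∃ φ ∈ S, y ∈ φ.source := by
    intro y
    obtain ⟨a, x, hx, hy⟩ := h.cov y
    obtain ⟨ψ, b1, b2, b3⟩ := (h.le hx).oph ((h.opn a).mem_nhds hx)
    refine ⟨ψ.symm.trans L.toHomeomorph.toOpenPartialHomeomorph, ⟨a, fun w hw => b3 hw.2,
      fun w => congrFun b1 _⟩, ?_, trivial⟩
    have := ψ.map_source b2
    rwa [b1, hy] at this
  choose φ hφ hφ' using hS
  let cs : ChartedSpace (EuclideanSpace ℝ (Fin 4)) X := ⟨S, φ, hφ', hφ⟩
  refine ⟨cs, isManifold_of_contDiffOn _ _ _ ?_, fun F hFc hF p => ?_⟩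
  · rintro ψ ψ' ⟨a, a1, a2⟩ ⟨b, b1, b2⟩ w ⟨⟨c1, c2⟩, -⟩
    have c1' : w ∈ ψ.target := c1
    have c2' : ψ.symm w ∈ ψ'.source := c2
    have c3 := ψ'.map_source c2'
    have c4 := ψ'.left_inv c2'
    rw [b2] at c4
    have c5 := (c4.trans (a2 w)).symm
    exact (par_key L (F := id) a2 b2 c3
      (h.comp a b _ (a1 w c1') _ (b1 _ c3) c5)).contDiffWithinAt
  · refine contMDiffAt_iff.2 ⟨hFc.continuousAt, ?_⟩
    obtain ⟨a, a1, a2⟩ := hφ p
    obtain ⟨b, b1, b2⟩ := hφ (F p)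
    have c1 := (φ p).map_source (hφ' p)
    have c2 := (φ (F p)).map_source (hφ' _)
    have c3 := (φ p).left_inv (hφ' p)
    have c4 := (φ (F p)).left_inv (hφ' _)
    rw [a2] at c3
    rw [b2] at c4
    obtain ⟨c, y, hy, hc⟩ := hF a _ (a1 _ c1)
    have c5 : P.map c y = P.map b (L.symm (φ (F p) (F p))) := by
      rw [← hc.eq, Function.comp_apply]
      exact (congrArg F c3).trans c4.symm
    have c6 := hc.trans (h.comp c b y hy _ (b1 _ c2) c5)
    exact (par_key L (F := F) a2 b2 c2 c6).contDiffWithinAt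

/-- Smooth maps are carried along a diffeomorphism. -/
theorem PS.SmMap.conj {A B X Y : Type} [TopologicalSpace X] [TopologicalSpace Y] {P : PS A X}
    {Q : PS B Y} (hP : P.Good ∞) (hQ : Q.Good ∞) (e : X ≃ₜ Y) (he : ∀ p, LD P Q e p) {F : X → X}
    (hF : P.SmMap F) : Q.SmMap (e ∘ F ∘ e.symm) := by
  intro a x hx
  have h1 : LD Q P e.symm (e (e.symm (Q.map a x))) :=
    LD.inv hP (he _) (Eventually.of_forall e.symm_apply_apply)
  rw [e.apply_symm_apply] at h1
  obtain ⟨b, θ, a1, a2, a3⟩ := h1.ch hQ (Q.ch_self hx)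
  obtain ⟨c, y, hy, τ, b1, b2, b3⟩ := hF b _ a2
  obtain ⟨d, σ, c1, c2, c3⟩ := (he (P.map c y)).ch hP (P.ch_self hy)
  subst b2
  have d1 : ContDiffAt ℝ ∞ (τ ∘ θ) x := b1.comp x a1.1
  refine ⟨d, _, c2, σ ∘ τ ∘ θ, c1.1.comp x d1, rfl, ?_⟩
  filter_upwards [a3, a1.continuousAt.eventually b3, d1.continuousAt.eventually c3] with z h1 h2 h3
  have h1' : e.symm (Q.map a z) = P.map b (θ z) := h1
  have h2' : P.map c (τ (θ z)) = F (P.map b (θ z)) := h2
  have h3' : e (P.map c (τ (θ z))) = Q.map d (σ (τ (θ z))) := h3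
  show Q.map d (σ (τ (θ z))) = e (F (e.symm (Q.map a z)))
  rw [← h3', h2', h1']

/-- The effective action of a cyclic group of odd order. -/
theorem Br.exists_act_inj {ι : Type} [Finite ι] (A : Br ι) {n : ℕ} (hn : Odd n)
    (h : ∀ i t, A.b i (t + 2 / n) = A.b i t) :
    ∃ ρ : Multiplicative (ZMod n) →* (A.X ≃ₜ A.X), Function.Injective ρ ∧
      ∀ g, A.XP.SmMap (ρ g) := by
  have hP : A.xactPer (2 / n) := h
  have hn0 : (0 : ℝ) < n := by exact_mod_cast hn.pos
  let f : ℤ →+ Additive (A.X ≃ₜ A.X) := AddMonoidHom.mk'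
    (fun m => Additive.ofMul (Br.xactHom (hP.int m))) fun m k => by
      rw [← ofMul_mul]
      congr 1
      ext x
      show A.xactSig _ x = A.xactSig _ (A.xactSig _ x)
      rw [← Br.xactSig_add _ (hP.int k)]
      congr 1
      push_cast
      ring
  have hf : f n = 0 := by
    show Additive.ofMul (Br.xactHom (hP.int n)) = Additive.ofMul 1
    congr 1
    ext x
    show A.xactSig _ x = x
    rw [show (((n : ℤ) : ℝ)) * (2 / n) = 2 by push_cast; field_simp, Br.xactSig_two]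
  let F : ZMod n →+ Additive (A.X ≃ₜ A.X) := ZMod.lift n ⟨f, hf⟩
  have hF : ∀ m : ℤ, F m = f m := fun m => ZMod.lift_coe n ⟨f, hf⟩ m
  have key : ∀ g : Multiplicative (ZMod n), ∃ m : ℤ, (m : ZMod n) = Multiplicative.toAdd g ∧
      AddMonoidHom.toMultiplicativeLeft F g = Br.xactHom (hP.int m) := by
    intro g
    obtain ⟨m, hm⟩ := ZMod.intCast_surjective (Multiplicative.toAdd g)
    refine ⟨m, hm, ?_⟩
    change Additive.toMul (F (Multiplicative.toAdd g)) = _
    rw [← hm, hF]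
    rfl
  refine ⟨AddMonoidHom.toMultiplicativeLeft F, (injective_iff_map_eq_one _).2 fun g h1 => ?_,
    fun g a x hx => ⟨a, ?_⟩⟩
  · obtain ⟨q, hq⟩ := A.pathConn_domT.nonempty
    obtain ⟨m, hm, e⟩ := key g
    rw [h1] at e
    have e2 : A.xactSig ((m : ℝ) * (2 / n)) (A.prT q) = A.prT q := DFunLike.congr_fun e.symm _
    rw [Br.xactSig_prT _ hq, A.prT_eq_iff ((hP.int m).domT hq) hq] at e2
    obtain ⟨k, hk⟩ := e2
    have e3 := congrArg (fun z : CC => z.2.im) hk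
    simp only [actT_def, xact_sh_im] at e3
    have e4 : (m : ℝ) * (2 / n) = -k.n := by linarith
    have e5 : ((m * 2 : ℤ) : ℝ) = (((n : ℤ) * (-k.n) : ℤ) : ℝ) := by
      push_cast
      rw [← e4]
      field_simp
    have e6 : (n : ℤ) ∣ m * 2 := ⟨_, Int.cast_injective e5⟩
    have e7 : IsCoprime (n : ℤ) 2 := by
      have := Nat.isCoprime_iff_coprime.2 hn.coprime_two_right
      simpa using this
    have e8 : (m : ZMod n) = 0 := (ZMod.intCast_zmod_eq_zero_iff_dvd m n).2 (e7.dvd_of_dvd_mul_right e6)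
    rw [e8] at hm
    exact toAdd_eq_zero.1 hm.symm
  · obtain ⟨m, -, e⟩ := key g
    rw [e]
    exact Br.xactSig_comp (hP.int m) a hx

end Pool.Agent.Lib.MP_45bb13_gt
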