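import Pool.Agent.Lib.MP_45bb13_gt.Sm.Ch

/-! Smooth regluing along a compact set. -/

set_option linter.unusedSectionVars false

namespace Pool.Agent.Lib.MP_45bb13_gt

open Set Filter Topology Complex
open scoped ComplexConjugate ContDiff

theorem sglue {A B C E X Y : Type} [TopologicalSpace E] [TopologicalSpace X] [TopologicalSpace Y]
    {P : PS A E} {Q : PS B X} {R : PS C Y} (hP : P.Good ∞) (hQ : Q.Good ∞) (hR : R.Good ∞)
    [Nonempty E] [T2Space X] [T2Space Y] {D K L U : Set E} {e : E → X} {e' : E → Y}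
    (hD : IsOpen D) (he : ∀ x ∈ D, LD P Q e x) (hi : InjOn e D) (hUo : IsOpen U)
    (he' : ∀ x ∈ U, LD P R e' x) (hi' : InjOn e' U) (hL : IsCompact L)
    (hKL : K ⊆ L) (hLD : L ⊆ D) (hKU : K ⊆ U) (hUD : U ⊆ D) (f : OpenPartialHomeomorph X Y)
    (hfd : ∀ x ∈ f.source, LD Q R f x)
    (hs : f.source = (e '' K)ᶜ) (ht : f.target = (e' '' K)ᶜ) (ψ : OpenPartialHomeomorph E E)
    (hψd : ∀ x ∈ ψ.source, LD P P ψ x)
    (hψ : ψ.source = D \ K) (hψ' : ψ.target = D \ K) (hU : ∀ x ∈ D \ K, ψ x ∈ U ↔ x ∈ U)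
    (hf : ∀ x ∈ U \ K, f (e x) = e' (ψ x)) (φ : E ≃ₜ E) (hφd : ∀ x, LD P P φ x)
    (hφ : ∀ x, φ x ∈ D ↔ x ∈ D) (hφψ : ∀ x ∈ D \ L, φ x = ψ x) :
    ∃ F : X ≃ₜ Y, ∀ x, LD Q R F x := by
  classical
  have hed := he
  have hed' := he'
  replace he : LO e D := lo_of_le hD fun x hx => (hed x hx).lemb hP hQ
  replace he' : LO e' U := lo_of_le hUo fun x hx => (hed' x hx).lemb hP hR
  have : Nonempty X := .map e ‹_›
  have : Nonempty Y := .map e' ‹_›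
  let g : E → Y := fun x => if x ∈ U then e' x else f (e (ψ.symm x))
  have a0 : ∀ x ∈ D \ K, e x ∈ f.source := fun x hx => hs ▸ fun ⟨y, hy, h⟩ =>
    hx.2 (hi (hLD (hKL hy)) hx.1 h ▸ hy)
  have a1 : ∀ x ∈ D \ K, ψ.symm x ∈ D \ K := fun x hx => hψ ▸ ψ.map_target (hψ' ▸ hx)
  have a2 : ∀ x ∈ D \ K, ψ x ∈ D \ K := fun x hx => hψ' ▸ ψ.map_source (hψ ▸ hx)
  have g1 : EqOn g e' U := fun x hx => if_pos hx
  have g2 : EqOn g (f ∘ e ∘ ψ.symm) (D \ K) := fun x hx => by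
    by_cases h : x ∈ U
    · have h1 := ψ.right_inv (hψ' ▸ hx)
      rw [g1 h, Function.comp_apply, Function.comp_apply,
        hf _ ⟨(hU _ (a1 x hx)).1 (h1.symm ▸ h), (a1 x hx).2⟩, h1]
    · exact if_neg h
  have g3 : ∀ x ∈ D \ K, g (ψ x) = f (e x) := fun x hx => by
    rw [g2 (a2 x hx), Function.comp_apply, Function.comp_apply, ψ.left_inv (hψ ▸ hx)]
  have l1 : LO (f ∘ e ∘ ψ.symm) (D \ K) := (lo_oph f).comp (he.comp (hψ' ▸ lo_oph ψ.symm)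
    fun x hx => (a1 x hx).1) fun x hx => a0 _ (a1 x hx)
  have g4 : LO g D := lo_of_local fun x hx => by
    by_cases h : x ∈ K
    · exact ⟨U, hKU h, hUD, he'.congr g1⟩
    · exact ⟨D \ K, ⟨hx, h⟩, sdiff_subset, l1.congr g2⟩
  have g5 : ∀ x ∈ K, ∀ y ∈ f.source, g x ≠ f y := fun x hx y hy h =>
    (ht ▸ f.map_source hy) ⟨x, hx, (g1 (hKU hx)).symm.trans h⟩
  have g6 : InjOn g D := fun x hx y hy h => by
    by_cases h1 : x ∈ K <;> by_cases h2 : y ∈ K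
    · exact hi' (hKU h1) (hKU h2) (by rw [← g1 (hKU h1), ← g1 (hKU h2), h])
    · exact (g5 x h1 _ (a0 _ (a1 y ⟨hy, h2⟩)) (h.trans (g2 ⟨hy, h2⟩))).elim
    · exact (g5 y h2 _ (a0 _ (a1 x ⟨hx, h1⟩)) (h.symm.trans (g2 ⟨hx, h1⟩))).elim
    · rw [g2 ⟨hx, h1⟩, g2 ⟨hy, h2⟩] at h
      exact ψ.symm.injOn (hψ'.ge ⟨hx, h1⟩) (hψ'.ge ⟨hy, h2⟩) (hi (a1 x ⟨hx, h1⟩).1 (a1 y ⟨hy, h2⟩).1
        (f.injOn (a0 _ (a1 x ⟨hx, h1⟩)) (a0 _ (a1 y ⟨hy, h2⟩)) h))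
  have o1 : IsOpen (e '' L)ᶜ :=
    (hL.image_of_continuousOn (he.continuousOn.mono hLD)).isClosed.isOpen_compl
  have o2 : (e '' L)ᶜ ⊆ f.source := hs ▸ compl_subset_compl.2 (image_mono hKL)
  have n1 : ∀ y ∈ D, y ∉ L → g (φ y) = f (e y) := fun y hy h => by
    rw [hφψ y ⟨hy, h⟩, g3 y ⟨hy, fun h' => h (hKL h')⟩]
  obtain ⟨F, s1, s2, s3, s4⟩ := oph_two (q := f) (q' := g ∘ φ) (lo_id o1) he ((lo_oph f).mono o1 o2)
    (g4.comp (lo_homeo φ he.1) fun x hx => (hφ x).2 hx)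
    (fun x hx y hy => ⟨congrArg f, f.injOn (o2 hx) (o2 hy)⟩) (fun x hx y hy => ⟨fun h => by
      subst h
      exact (n1 y hy fun h => hx ⟨y, h, rfl⟩).symm, fun h => by
      have h1 : φ y ∈ D \ K := ⟨(hφ y).2 hy, fun h' => g5 _ h' _ (o2 hx) h.symm⟩
      have h2 : x = e (ψ.symm (φ y)) := f.injOn (o2 hx) (a0 _ (a1 _ h1)) (h.trans (g2 h1))
      have h3 : φ (ψ.symm (φ y)) = φ y := by
        rw [hφψ _ ⟨(a1 _ h1).1, fun h' => hx ⟨_, h', h2.symm⟩⟩, ψ.right_inv (hψ' ▸ h1)]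
      rw [φ.injective h3] at h2
      exact h2⟩)
    fun x hx y hy => ⟨fun h => hi hx hy h ▸ rfl, fun h =>
      φ.injective (g6 ((hφ x).2 hx) ((hφ y).2 hy) h) ▸ rfl⟩
  have d1 : ∀ x ∈ D, LD P R g x := fun x hx => by
    by_cases h : x ∈ U
    · exact (hed' x h).congr hP (g1.eventuallyEq_of_mem (hUo.mem_nhds h))
    · have h1 : x ∈ D \ K := ⟨hx, fun h' => h (hKU h')⟩
      have h2 : LD P Q (e ∘ ψ.symm) x :=
        (hed _ (a1 x h1).1).comp hP (LD.symm hP ψ hψd (hψ' ▸ h1))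
      exact (LD.comp hQ (F := e ∘ ψ.symm) (hfd _ (a0 _ (a1 x h1))) h2).congr hP
        (g2.eventuallyEq_of_mem (l1.1.mem_nhds h1))
  have d2 : ∀ x, LD Q R F x := fun x => by
    by_cases h : x ∈ e '' L
    · obtain ⟨z, hz, rfl⟩ := h
      refine LD.of_comp hP (hed z (hLD hz)) ?_
      refine ((d1 _ ((hφ z).2 (hLD hz))).comp hP (hφd z)).congr hP ?_
      filter_upwards [hD.mem_nhds (hLD hz)] with y hy using s4 y hy
    · refine (hfd x (o2 h)).congr hQ ?_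
      filter_upwards [o1.mem_nhds h] with y hy using s3 y hy
  refine ⟨F.toHomeomorphOfSourceEqUnivTargetEqUniv (s1.trans (eq_univ_of_forall fun x => ?_))
    (s2.trans (eq_univ_of_forall fun y => ?_)), d2⟩
  · by_cases h : x ∈ e '' L
    · exact .inr (image_mono hLD h)
    · exact .inl ⟨x, h, rfl⟩
  have m : ∀ x ∈ D, g x ∈ (g ∘ φ) '' D := fun x hx =>
    ⟨φ.symm x, (hφ _).1 (by rwa [φ.apply_symm_apply]), by simp⟩
  by_cases h : y ∈ e' '' K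
  · obtain ⟨x, hx, rfl⟩ := h
    exact .inr (g1 (hKU hx) ▸ m x (hLD (hKL hx)))
  obtain ⟨x, hx, rfl⟩ := f.surjOn (show y ∈ f.target from ht ▸ h)
  by_cases h' : x ∈ e '' L
  · obtain ⟨z, hz, rfl⟩ := h'
    have h1 : z ∈ D \ K := ⟨hLD hz, fun h1 => (hs ▸ hx) ⟨z, h1, rfl⟩⟩
    exact .inr (g3 z h1 ▸ m _ (a2 z h1).1)
  · exact .inl ⟨x, h', rfl⟩

end Pool.Agent.Lib.MP_45bb13_gt
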