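import Pool.Agent.Lib.MP_45bb13_gt.Sm.Twist
import Pool.Agent.Lib.MP_45bb13_gt.Ins

/-! The three smooth double twists in normal form. -/

set_option linter.unusedSectionVars false

namespace Pool.Agent.Lib.MP_45bb13_gt

open Set Filter Topology Complex
open scoped ComplexConjugate

theorem srel_of_homotopic {x : UU} {γ γ' : Path x x.bar} (h : γ.Homotopic γ') {ξ ξ' : Xi}
    (h1 : IsExt γ ξ) (h2 : IsExt γ' ξ') : SRel (bx ξ) (bx ξ') := by
  obtain ⟨H⟩ := h
  obtain ⟨E, hE, he, hG⟩ := ins_ext
    (G := fun p => (H (projIcc 0 1 zero_le_one p.1, projIcc 0 1 zero_le_one p.2)).1)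
    (continuous_subtype_val.comp (H.continuous.comp
      ((continuous_projIcc.comp continuous_fst).prodMk (continuous_projIcc.comp continuous_snd))))
    (fun s => by simp [UU.bar])
  have n1 : ∀ s t, E (s, t) ≠ 1 := fun s =>
    ins_ne1 (f := fun t => E (s, t)) (he s) fun t ht => by rw [hG s t ht]; exact (H _).2.1
  have n2 : ∀ s t, E (s, t) ≠ -1 := fun s =>
    ins_ne2 (f := fun t => E (s, t)) (he s) fun t ht => by rw [hG s t ht]; exact (H _).2.2
  have e0 : ∀ t, E (0, t) = ξ.f t :=
    ins_uniq (f := fun t => E (0, t)) (he 0) ξ.eqv fun t ht => by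
      rw [hG 0 t ht, h1 ⟨t, ht⟩, projIcc_of_mem _ ht]
      simp
  have e1 : ∀ t, E (1, t) = ξ'.f t :=
    ins_uniq (f := fun t => E (1, t)) (he 1) ξ'.eqv fun t ht => by
      rw [hG 1 t ht, h2 ⟨t, ht⟩, projIcc_of_mem _ ht]
      simp
  refine srel_htpy _ _ ![fun _ => -1, fun _ => 1, E] ?_ ?_ ?_ ?_ ?_
  · intro i
    fin_cases i <;> simp [continuous_const, hE]
  · intro i t
    fin_cases i <;> simp [bx, e0]
  · intro i t
    fin_cases i <;> simp [bx, e1]
  · intro i s _ t
    fin_cases i <;> simp [he]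
  · intro s _ t i j h
    have a1 := n1 s t
    have a2 := n2 s t
    fin_cases i <;> fin_cases j <;> simp at h ⊢ <;>
      first | exact a1 h | exact a1 h.symm | exact a2 h | exact a2 h.symm | norm_num at h

/-- Inserting a round loop twice: the centre is `-1`, `1` or `0`. -/
theorem srel_insert {x y : UU} (α : Path x y) (β : Path y x.bar) (ℓ : Path y y) {m : ℝ}
    (hm : (m = -1 ∧ ‖y.1 + 1‖ < 2) ∨ (m = 1 ∧ ‖y.1 - 1‖ < 2) ∨ (m = 0 ∧ 1 < ‖y.1‖))
    (hl : ∀ t : unitInterval, (ℓ t).1 = m + ee t * (y.1 - m)) {ξ ξ' : Xi}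
    (h1 : IsExt (α.trans β) ξ) (h2 : IsExt ((α.trans ℓ).trans (ℓ.trans β)) ξ') :
    SRel (bx ξ) (bx ξ') := by
  obtain ⟨ξ₀, h0⟩ := exists_ext ((α.trans (Path.refl y)).trans ((Path.refl y).trans β))
  have hh : ((α.trans (Path.refl y)).trans ((Path.refl y).trans β)).Homotopic (α.trans β) :=
    Path.Homotopic.hcomp ⟨Path.Homotopy.transRefl α⟩ ⟨Path.Homotopy.reflTrans β⟩
  refine (srel_of_homotopic hh h0 h1).symm.trans ?_
  obtain ⟨η, hη, ho, e0, em, e1⟩ := ins_eta
  have hl' : ∀ t ∈ Icc (0 : ℝ) 1, (ℓ.extend t).1 = m + ee t * (y.1 - m) := fun t ht => by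
    rw [ℓ.extend_apply ht]
    exact hl ⟨t, ht⟩
  have hmid : ∀ t ∈ Icc (1 / 4 : ℝ) (3 / 4), ξ₀.f t = y.1 := by
    intro t ht
    rw [h0.ins_eq ⟨by linarith [ht.1], by linarith [ht.2]⟩]
    rcases le_total t (1 / 2) with h | h
    · rw [Path.extend_trans_of_le_half _ _ h,
        Path.extend_trans_of_half_le _ _ (by linarith [ht.1])]
      simp
    · rw [Path.extend_trans_of_half_le _ _ h,
        Path.extend_trans_of_le_half _ _ (by linarith [ht.2])]
      simp
  have hhalf : ξ₀.f (1 / 2) = y.1 := hmid _ ⟨by norm_num, by norm_num⟩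
  have hrot : ∀ t, ξ'.f t = m + ee (η t) * (ξ₀.f t - m) := by
    refine ins_uniq ξ'.eqv (fun t => ?_) fun t ht => ?_
    · simp only [ho, ee_neg, ξ₀.eqv, map_add, map_mul, map_sub, conj_ofReal]
    · rcases le_total t (1 / 4) with ha | ha
      · rw [e0 t ⟨ht.1, ha⟩, h0.ins_eq ht, h2.ins_eq ht,
          Path.extend_trans_of_le_half _ _ (by linarith),
          Path.extend_trans_of_le_half _ _ (by linarith),
          Path.extend_trans_of_le_half _ _ (by linarith),
          Path.extend_trans_of_le_half _ _ (by linarith), ee_neg, ee_one]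
        simp
      rcases le_total (3 / 4) t with hb | hb
      · rw [e1 t ⟨hb, ht.2⟩, h0.ins_eq ht, h2.ins_eq ht,
          Path.extend_trans_of_half_le _ _ (by linarith),
          Path.extend_trans_of_half_le _ _ (by linarith),
          Path.extend_trans_of_half_le _ _ (by linarith),
          Path.extend_trans_of_half_le _ _ (by linarith), ee_one]
        simp
      rw [em t ⟨ha, hb⟩, hmid t ⟨ha, hb⟩, h2.ins_eq ht]
      rcases le_total t (1 / 2) with h | h
      · rw [Path.extend_trans_of_le_half _ _ h, Path.extend_trans_of_half_le _ _ (by linarith),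
          hl' _ ⟨by linarith, by linarith⟩,
          show 2 * (2 * t) - 1 = 4 * t - 2 + ((1 : ℤ) : ℝ) by push_cast; ring, ee_add_int]
      · rw [Path.extend_trans_of_half_le _ _ h, Path.extend_trans_of_le_half _ _ (by linarith),
          hl' _ ⟨by linarith, by linarith⟩, show 2 * (2 * t - 1) = 4 * t - 2 by ring]
  have hc : ∀ i, ∀ t ∈ Icc (1 / 4 : ℝ) (3 / 4), (bx ξ₀).b i t = (bx ξ₀).b i (1 / 2) := by
    intro i t ht
    fin_cases i
    · rfl
    · rfl
    · exact (hmid t ht).trans hhalf.symm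
  have b0 : ∀ (ζ : Xi) t, (bx ζ).b 0 t = -1 := fun _ _ => rfl
  have b1 : ∀ (ζ : Xi) t, (bx ζ).b 1 t = 1 := fun _ _ => rfl
  have b2 : ∀ (ζ : Xi) t, (bx ζ).b 2 t = ζ.f t := fun _ _ => rfl
  have c3 : ∀ i : Fin 3, i = 0 ∨ i = 1 ∨ i = 2 := by decide
  rcases hm with ⟨rfl, hy⟩ | ⟨rfl, hy⟩ | ⟨rfl, hy⟩
  · have hn := norm_nonneg (y.1 + 1)
    refine srel_twist _ _ (m := -1) (ρ := (‖y.1 + 1‖ + 2) / 2) (i₁ := 0) (i₂ := 2) (by decide) hη ho
      (ε := 1) (.inl rfl) e0 e1 hc ?_ ?_
    · rintro i (rfl | rfl)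
      · refine ⟨?_, fun t => ?_⟩
        · rw [b0]
          simp only [ofReal_neg, ofReal_one, sub_self, norm_zero]
          linarith
        · rw [b0, b0]
          simp
      · refine ⟨?_, fun t => ?_⟩
        · rw [b2, hhalf]
          simp only [ofReal_neg, ofReal_one, sub_neg_eq_add]
          linarith
        · rw [b2, b2, hrot]
    · intro i a0 a2
      rcases c3 i with rfl | rfl | rfl
      · exact absurd rfl a0
      · refine ⟨?_, fun t => rfl⟩
        rw [b1]
        have : ‖(1 : ℂ) - ((-1 : ℝ) : ℂ)‖ = 2 := by norm_num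
        linarith
      · exact absurd rfl a2
  · have hn := norm_nonneg (y.1 - 1)
    refine srel_twist _ _ (m := 1) (ρ := (‖y.1 - 1‖ + 2) / 2) (i₁ := 1) (i₂ := 2) (by decide) hη ho
      (ε := 1) (.inl rfl) e0 e1 hc ?_ ?_
    · rintro i (rfl | rfl)
      · refine ⟨?_, fun t => ?_⟩
        · rw [b1]
          simp only [ofReal_one, sub_self, norm_zero]
          linarith
        · rw [b1, b1]
          simp
      · refine ⟨?_, fun t => ?_⟩
        · rw [b2, hhalf]
          simp only [ofReal_one]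
          linarith
        · rw [b2, b2, hrot]
    · intro i a1 a2
      rcases c3 i with rfl | rfl | rfl
      · refine ⟨?_, fun t => rfl⟩
        rw [b0]
        have : ‖(-1 : ℂ) - ((1 : ℝ) : ℂ)‖ = 2 := by norm_num
        linarith
      · exact absurd rfl a1
      · exact absurd rfl a2
  · let A : Br (Fin 3) :=
      { b := fun i t => ee (-η t) * (bx ξ').b i t
        cont := fun i => (continuous_ee.comp hη.neg).mul ((bx ξ').cont i)
        eqv := fun i t => by
          rw [ho, (bx ξ').eqv, map_mul, ee_neg (-η t)]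
        inj := fun t i j h => (bx ξ').inj t i j (mul_left_cancel₀ (ee_ne_zero _) h) }
    have hA : ∀ i t, A.b i t = ee (-η t) * (bx ξ').b i t := fun _ _ => rfl
    refine SRel.trans (A' := A) ?_ ?_
    · refine srel_twist _ _ (m := 0) (ρ := (‖y.1‖ + 1) / 2) (i₁ := 0) (i₂ := 1) (by decide)
        (η := fun t => -η t) hη.neg (fun t => by rw [ho]) (ε := -1) (.inr rfl)
        (fun t ht => by rw [e0 t ht]) (fun t ht => by rw [e1 t ht]) hc ?_ ?_
      · rintro i (rfl | rfl)
        · refine ⟨?_, fun t => ?_⟩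
          · rw [b0]
            simp only [ofReal_zero, sub_zero, norm_neg, norm_one]
            linarith
          · rw [hA, b0, b0]
            simp
        · refine ⟨?_, fun t => ?_⟩
          · rw [b1]
            simp only [ofReal_zero, sub_zero, norm_one]
            linarith
          · rw [hA, b1, b1]
            simp
      · intro i a0 a1
        rcases c3 i with rfl | rfl | rfl
        · exact absurd rfl a0
        · exact absurd rfl a1
        · refine ⟨?_, fun t => ?_⟩
          · rw [b2, hhalf]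
            simp only [ofReal_zero, sub_zero]
            linarith
          · rw [hA, b2, b2, hrot]
            simp only [ofReal_zero, sub_zero, zero_add]
            rw [← mul_assoc, mul_comm (ee (-η t)), ee_mul_neg, one_mul]
    · refine srel_htpy _ _ (fun i p => ee (-((1 - p.1) * η p.2)) * (bx ξ').b i p.2) ?_ ?_ ?_ ?_ ?_
      · intro i
        exact (continuous_ee.comp (by fun_prop)).mul (((bx ξ').cont i).comp continuous_snd)
      · intro i t
        simp [hA]
      · intro i t
        simp [ee_zero]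
      · intro i s _ t
        show ee (-((1 - s) * η (t + 1))) * (bx ξ').b i (t + 1) =
          conj (ee (-((1 - s) * η t)) * (bx ξ').b i t)
        rw [ho, (bx ξ').eqv, map_mul, ← ee_neg, mul_neg]
      · intro s _ t i j h
        exact (bx ξ').inj t i j (mul_left_cancel₀ (ee_ne_zero _) h)

end Pool.Agent.Lib.MP_45bb13_gt
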