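import Pool.Agent.Lib.MP_45bb13_gt.Sm.Ext
import Pool.Agent.Lib.MP_45bb13_gt.Sm.Apx

/-! Homotopic braids give diffeomorphic manifolds. -/

set_option linter.unusedSectionVars false

namespace Pool.Agent.Lib.MP_45bb13_gt

open Set Filter Topology Complex
open scoped ComplexConjugate ContDiff

variable {ι : Type} [Finite ι]

lemma siso_cl_self (A : Br ι) {δ : ℝ} (hδ : 0 < δ) : A.Cl A δ := fun i t => by
  rwa [sub_self, norm_zero]

lemma siso_cl_mono {A C : Br ι} {δ δ' : ℝ} (h : A.Cl C δ) (hδ : δ ≤ δ') : A.Cl C δ' :=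
  fun i t => (h i t).trans_le hδ

lemma siso_cl_symm {A C : Br ι} {δ : ℝ} (h : A.Cl C δ) : C.Cl A δ :=
  fun i t => (norm_sub_rev _ _).trans_lt (h i t)

lemma siso_cl_trans {A B C : Br ι} {δ δ' : ℝ} (h : A.Cl B δ) (h' : B.Cl C δ') :
    A.Cl C (δ + δ') := fun i t => by
  have h1 := norm_sub_le_norm_sub_add_norm_sub (C.b i t) (B.b i t) (A.b i t)
  linarith [h i t, h' i t]

/-- Braids close to `H` have half of its separation constant. -/
lemma siso_eps {H C : Br ι} {ε : ℝ} (h : H.IsEps ε) (hC : H.Cl C (ε / 2)) : C.IsEps (ε / 2) := by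
  obtain ⟨h0, h1, h2, h3⟩ := h
  refine ⟨half_pos h0, by linarith, fun t i j hij => ?_, fun i t => ?_⟩
  · have e1 := norm_sub_le_norm_sub_add_norm_sub (H.b i t) (C.b i t) (H.b j t)
    have e2 := norm_sub_le_norm_sub_add_norm_sub (C.b i t) (C.b j t) (H.b j t)
    linarith [h2 t i j hij, siso_cl_symm hC i t, hC j t]
  · have e1 := norm_sub_norm_le (C.b i t) (H.b i t)
    have e2 : ε⁻¹ ≤ (ε / 2)⁻¹ := inv_anti₀ (half_pos h0) (half_le_self h0.le)
    linarith [h3 i t, hC i t]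

theorem drel_close {ε : ℝ} (hε : 0 < ε) : ∃ δ > 0, ∀ A A' : Br ι, A.Sm → A'.Sm → A.IsEps ε →
    A.Cl A' δ → DRel A A' := by
  classical
  have := Fintype.ofFinite ι
  have hlt : ε / 2 < ε := half_lt_self hε
  obtain ⟨C, hC, hlip⟩ := exists_lip_cut (half_pos hε) hlt
  refine ⟨1 / (2 * C * (Fintype.card ι + 1)), by positivity, fun A A' hS hS' hE hA => ?_⟩
  obtain ⟨-, -, h1, h2⟩ := hE
  set g : ℂ × ℝ → ℂ := fun q =>
    ∑ i, (cut (ε / 2) ε ‖q.1 - A.b i q.2‖ : ℂ) * (A'.b i q.2 - A.b i q.2) with hg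
  have hc : ContDiff ℝ ∞ g := ContDiff.sum fun i _ => by
    have e1 : ContDiff ℝ ∞ fun q : ℂ × ℝ => A.b i q.2 := (hS i).comp contDiff_snd
    have e2 : ContDiff ℝ ∞ fun q : ℂ × ℝ => A'.b i q.2 := (hS' i).comp contDiff_snd
    have e3 : ContDiff ℝ ∞ fun q : ℂ × ℝ => cut (ε / 2) ε ‖q.1 - A.b i q.2‖ :=
      (contDiff_cut_norm (half_pos hε) hlt).comp (contDiff_fst.sub e1)
    exact (ofRealCLM.contDiff.comp e3).mul (e2.sub e1)
  have hl : ∀ y y' t, ‖g (y, t) - g (y', t)‖ ≤ 1 / 2 * ‖y - y'‖ := fun y y' t => by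
    have e1 : ∀ i ∈ Finset.univ, ‖(cut (ε / 2) ε ‖y - A.b i t‖ : ℂ) * (A'.b i t - A.b i t) -
        (cut (ε / 2) ε ‖y' - A.b i t‖ : ℂ) * (A'.b i t - A.b i t)‖ ≤
        C * ‖y - y'‖ * (1 / (2 * C * (Fintype.card ι + 1))) := fun i _ => by
      rw [← sub_mul, norm_mul, ← ofReal_sub, norm_real, Real.norm_eq_abs]
      refine mul_le_mul ?_ (hA i t).le (norm_nonneg _) (by positivity)
      have := hlip (y - A.b i t) (y' - A.b i t)
      rwa [sub_sub_sub_cancel_right] at this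
    simp only [hg]
    rw [← Finset.sum_sub_distrib]
    refine (norm_sum_le_of_le _ e1).trans ?_
    rw [Finset.sum_const, Finset.card_univ, nsmul_eq_mul,
      show (Fintype.card ι : ℝ) * (C * ‖y - y'‖ * (1 / (2 * C * (Fintype.card ι + 1)))) =
        Fintype.card ι / (Fintype.card ι + 1) * (1 / 2 * ‖y - y'‖) by field_simp]
    exact mul_le_of_le_one_left (by positivity) ((div_le_one (by positivity)).2 (by linarith))
  obtain ⟨Φ, hΦ⟩ := exists_homeo_lip hc.continuous hl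
  have hdf : ∀ p, LDf Φ p := fun p => by
    rw [show (Φ : CC → CC) = fun p : CC => ((p.1 + g (p.1, p.2.im), p.2) : CC) from funext hΦ]
    exact ldf_lip hc hl p
  have hn : ∀ i y t, ‖y - A.b i t‖ ≤ ε / 2 → g (y, t) = A'.b i t - A.b i t := by
    intro i y t hy
    simp only [hg]
    rw [Finset.sum_eq_single i (fun j _ hj => ?_) (fun h => absurd (Finset.mem_univ i) h),
      cut_one hlt hy, ofReal_one, one_mul]
    have e1 := h1 t i j hj.symm
    have e2 := norm_sub_le (y - A.b j t) (y - A.b i t)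
    rw [sub_sub_sub_cancel_left] at e2
    rw [cut_zero hlt (by linarith), ofReal_zero, zero_mul]
  have hd : ∀ p, Φ p ∈ A'.domT ↔ p ∈ A.domT := fun p => by
    refine forall_congr' fun i => not_congr ?_
    have e1 : Φ (A.b i p.2.im, p.2) = (A'.b i p.2.im, p.2) := by
      rw [hΦ, hn i _ _ (by simp; positivity)]
      simp
    have e2 : (Φ p).2 = p.2 := by rw [hΦ]
    rw [e2]
    refine ⟨fun h => ?_, fun h => ?_⟩
    · have e3 : Φ p = (A'.b i p.2.im, p.2) := Prod.ext h e2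
      exact congrArg Prod.fst (Φ.injective (e3.trans e1.symm))
    · have e3 : p = (A.b i p.2.im, p.2) := Prod.ext h rfl
      exact congrArg Prod.fst ((congrArg Φ e3).trans e1)
  have hi : Φ '' A.domT = A'.domT := by
    ext q
    obtain ⟨p, rfl⟩ := Φ.surjective q
    rw [Φ.injective.mem_set_image, hd]
  have hk : ∀ (k : SD ℤ) (p : CC), Φ (k • p) = k • Φ p := fun k p => by
    rw [hΦ, hΦ, actT_def, actT_def]
    refine Prod.ext ?_ rfl
    simp only [hg, cj_plus, Br.b_int, ← cj_sub, norm_cj]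
    unfold cj
    split_ifs <;> simp
  obtain ⟨r, hr, hr1, hr2⟩ : ∃ r > 0, r ≤ ε / 2 ∧ r ≤ A.eps :=
    ⟨_, lt_min (half_pos hε) A.eps_pos, min_le_left _ _, min_le_right _ _⟩
  have hs : ∀ i p, A.Near (some i) r p →
      Φ p = (A'.b i p.2.im + ee 0 * (p.1 - A.b i p.2.im), p.2) := fun i p hp => by
    rw [hΦ, hn i _ _ (hp.2.le.trans hr1), ee_zero]
    exact Prod.ext (by ring) rfl
  have hz : ∀ p, A.Near none r p → Φ p = p := fun p hp => by
    have e1 : 0 < ‖p.1‖ := inv_pos.1 hp.1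
    have e2 : ε⁻¹ < ‖p.1‖ := inv_lt_of_inv_lt₀ e1 ((hp.2.trans_le hr1).trans hlt)
    have e3 : g (p.1, p.2.im) = 0 := Finset.sum_eq_zero fun i _ => by
      have e4 := h2 i p.2.im
      have e5 := norm_sub_norm_le p.1 (A.b i p.2.im)
      rw [cut_zero hlt (by linarith), ofReal_zero, zero_mul]
    rw [hΦ, e3, add_zero]
  obtain ⟨f, hf, hs, ht, -⟩ := Br.sextend A A' hS'
    (Φ.toOpenPartialHomeomorphOfImageEq A.domT A.isOpen_domT A'.domT hi) (fun p _ => hdf p)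
    subset_rfl subset_rfl (fun k p hp => ⟨(A.smul_domT k).2 hp, hk k p⟩) hr (fun _ _ => 0)
    (fun _ => contDiff_const) (fun _ _ => neg_zero.symm)
    (fun i p hp => ⟨A.near_domT hr2 hp, hs i p hp⟩)
    (fun p hp => ⟨A.near_domT hr2 hp, hz p hp⟩)
  have hs' : f.source = univ := by rw [hs]; simp
  exact ⟨f.toHomeomorphOfSourceEqUnivTargetEqUniv hs' (by rw [ht]; simp),
    fun p => hf p (hs' ▸ mem_univ p)⟩

theorem SRel.refl (H : Br ι) : SRel H H := by
  obtain ⟨δ, hδ, h⟩ := drel_close (ι := ι) (half_pos H.eps_pos)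
  refine ⟨min (δ / 2) (H.eps / 2), lt_min (half_pos hδ) (half_pos H.eps_pos),
    fun C C' hC hC' h1 h2 => h C C' hC hC' ?_ ?_⟩
  · exact siso_eps H.eps_spec (siso_cl_mono h1 (min_le_right _ _))
  · refine siso_cl_mono (siso_cl_trans (siso_cl_symm h1) h2) ?_
    linarith [min_le_left (δ / 2) (H.eps / 2)]

theorem SRel.symm {A A' : Br ι} (h : SRel A A') : SRel A' A := by
  obtain ⟨δ, hδ, h⟩ := h
  exact ⟨δ, hδ, fun C C' hC hC' h1 h2 => (h C' C hC' hC h2 h1).symm hC'⟩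

theorem SRel.trans {A A' A'' : Br ι} (h : SRel A A') (h' : SRel A' A'') : SRel A A'' := by
  obtain ⟨δ, hδ, h⟩ := h
  obtain ⟨δ', hδ', h'⟩ := h'
  obtain ⟨M, hM, hc, -⟩ := A'.exists_apx (lt_min hδ hδ')
  exact ⟨min δ δ', lt_min hδ hδ', fun C C' hC hC' h1 h2 =>
    (h C M hC hM (siso_cl_mono h1 (min_le_left _ _)) (siso_cl_mono hc (min_le_left _ _))).trans hM
      (h' M C' hM hC' (siso_cl_mono hc (min_le_right _ _)) (siso_cl_mono h2 (min_le_right _ _)))⟩

theorem SRel.drel {A A' : Br ι} (h : SRel A A') (hA : A.Sm) (hA' : A'.Sm) : DRel A A' := by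
  obtain ⟨δ, hδ, h⟩ := h
  exact h A A' hA hA' (siso_cl_self A hδ) (siso_cl_self A' hδ)

theorem DRel.srel {A A' : Br ι} (h : DRel A A') (hA : A.Sm) (hA' : A'.Sm) : SRel A A' := by
  obtain ⟨δ, hδ, e⟩ := SRel.refl A
  obtain ⟨δ', hδ', e'⟩ := SRel.refl A'
  exact ⟨min δ δ', lt_min hδ hδ', fun C C' hC hC' h1 h2 =>
    ((e C A hC hA (siso_cl_mono h1 (min_le_left _ _)) (siso_cl_self A hδ)).trans hA h).trans hA'
      (e' A' C' hA' hC' (siso_cl_self A' hδ') (siso_cl_mono h2 (min_le_right _ _)))⟩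

theorem srel_close (A : Br ι) : ∃ δ > 0, ∀ A' : Br ι,
    (∀ i t, ‖A'.b i t - A.b i t‖ < δ) → SRel A A' := by
  obtain ⟨δ, hδ, e⟩ := SRel.refl A
  refine ⟨δ / 2, half_pos hδ, fun A' hA' => ⟨δ / 2, half_pos hδ, fun C C' hC hC' h1 h2 =>
    e C C' hC hC' (siso_cl_mono h1 (half_le_self hδ.le)) ?_⟩⟩
  exact siso_cl_mono (siso_cl_trans (B := A') hA' h2) (add_halves δ).le

theorem srel_htpy (A A' : Br ι) (h : ι → ℝ × ℝ → ℂ) (hc : ∀ i, Continuous (h i))
    (h0 : ∀ i t, h i (0, t) = A.b i t) (h1 : ∀ i t, h i (1, t) = A'.b i t)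
    (he : ∀ i, ∀ s ∈ Icc (0 : ℝ) 1, ∀ t, h i (s, t + 1) = conj (h i (s, t)))
    (hi : ∀ s ∈ Icc (0 : ℝ) 1, ∀ t i j, h i (s, t) = h j (s, t) → i = j) : SRel A A' := by
  let B : unitInterval → Br ι := fun s => ⟨fun i t => h i (s, t),
    fun i => (hc i).comp (by fun_prop), fun i => he i s s.2, hi s s.2⟩
  have e0 : SRel A (B 0) := by
    obtain ⟨δ, hδ, h2⟩ := srel_close A
    exact h2 _ fun i t => by simpa [B, h0] using hδ
  have e1 : SRel A' (B 1) := by
    obtain ⟨δ, hδ, h2⟩ := srel_close A'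
    exact h2 _ fun i t => by simpa [B, h1] using hδ
  refine e0.trans (.trans ?_ e1.symm)
  refine PreconnectedSpace.induction₂' (fun s s' => SRel (B s) (B s')) (fun s => ?_)
    ⟨fun _ _ _ => SRel.trans⟩ 0 1
  obtain ⟨δ, hδ, h2⟩ := srel_close (B s)
  have h3 : ∀ᶠ s' : unitInterval in 𝓝 s, ∀ i, ∀ t ∈ Icc (0 : ℝ) 1,
      ‖h i (s', t) - h i (s, t)‖ < δ := by
    refine eventually_all.2 fun i => isCompact_Icc.eventually_forall_of_forall_eventually
      fun t _ => ?_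
    have := hc i
    have h4 : Continuous fun q : unitInterval × ℝ => ‖h i (q.1, q.2) - h i (s, q.2)‖ := by
      fun_prop
    exact h4.continuousAt.eventually_lt continuousAt_const (by simpa using hδ)
  filter_upwards [h3] with s' hs'
  have h4 : SRel (B s) (B s') := h2 _ fun i t => by
    rw [← Int.fract_add_floor t, Br.b_int, Br.b_int, ← cj_sub, norm_cj]
    exact hs' i _ ⟨Int.fract_nonneg t, (Int.fract_lt_one t).le⟩
  exact ⟨h4, h4.symm⟩

end Pool.Agent.Lib.MP_45bb13_gt
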