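import Pool.Agent.Lib.MP_45bb13_gt.Sm.Defs

/-! The calculus of germs of diffeomorphisms. -/

set_option linter.unusedSectionVars false

namespace Pool.Agent.Lib.MP_45bb13_gt

open Set Filter Topology Complex
open scoped ComplexConjugate ContDiff

variable {θ θ' : CC → CC} {x : CC}

lemma LDf.refl (x : CC) : LDf id x := by
  exact ⟨contDiffAt_id, id, contDiffAt_id, .of_forall fun _ => rfl, .of_forall fun _ => rfl⟩

lemma LDf.continuousAt (h : LDf θ x) : ContinuousAt θ x := h.1.continuousAt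

lemma LDf.comp (h' : LDf θ' (θ x)) (h : LDf θ x) : LDf (θ' ∘ θ) x := by
  obtain ⟨h1, ψ, h2, h3, h4⟩ := h
  obtain ⟨g1, φ, g2, g3, g4⟩ := h'
  have e : φ (θ' (θ x)) = θ x := g3.self_of_nhds
  have t : Tendsto φ (𝓝 (θ' (θ x))) (𝓝 (θ x)) := by
    have := g2.continuousAt.tendsto
    rwa [e] at this
  refine ⟨g1.comp x h1, ψ ∘ φ, ContDiffAt.comp _ (e.symm ▸ h2) g2, ?_, ?_⟩
  · filter_upwards [h3, h1.continuousAt.eventually g3] with z a b
    simp only [Function.comp_apply, a, b]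
  · filter_upwards [g4, t.eventually h4] with w a b
    simp only [Function.comp_apply, a, b]

lemma LDf.congr (h : LDf θ x) (he : θ' =ᶠ[𝓝 x] θ) : LDf θ' x := by
  obtain ⟨h1, ψ, h2, h3, h4⟩ := h
  have e : θ' x = θ x := he.self_of_nhds
  have t : Tendsto ψ (𝓝 (θ x)) (𝓝 x) := by
    have := h2.continuousAt.tendsto
    rwa [h3.self_of_nhds] at this
  refine ⟨h1.congr_of_eventuallyEq he, ψ, e ▸ h2, ?_, ?_⟩
  · filter_upwards [h3, he] with z a b
    rw [b, a]
  · rw [e]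
    filter_upwards [h4, t.eventually he] with w a b
    rw [b, a]

lemma LDf.inv (h : LDf θ x) : ∃ ψ, LDf ψ (θ x) ∧ ψ (θ x) = x ∧ (∀ᶠ z in 𝓝 x, ψ (θ z) = z) ∧
    ∀ᶠ w in 𝓝 (θ x), θ (ψ w) = w := by
  obtain ⟨h1, ψ, h2, h3, h4⟩ := h
  have e : ψ (θ x) = x := h3.self_of_nhds
  exact ⟨ψ, ⟨h2, θ, e.symm ▸ h1, h4, e.symm ▸ h3⟩, e, h3, h4⟩

lemma sldf_inj (h : LDf θ x) : Function.Injective (fderiv ℝ θ x) := by
  obtain ⟨h1, ψ, h2, h3, -⟩ := h
  have d := (h2.differentiableAt (by simp)).hasFDerivAt.comp x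
    (h1.differentiableAt (by simp)).hasFDerivAt
  have e := d.unique ((hasFDerivAt_id x).congr_of_eventuallyEq h3)
  exact Function.LeftInverse.injective (g := fderiv ℝ ψ (θ x)) fun v => DFunLike.congr_fun e v

lemma sldf_equiv (h : ContDiffAt ℝ ∞ θ x) (hi : Function.Injective (fderiv ℝ θ x)) :
    ∃ L : CC ≃L[ℝ] CC, HasFDerivAt θ (L : CC →L[ℝ] CC) x :=
  ⟨(LinearEquiv.ofInjectiveEndo (fderiv ℝ θ x : CC →ₗ[ℝ] CC) hi).toContinuousLinearEquiv,
    (h.differentiableAt (by simp)).hasFDerivAt.congr_fderiv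
      (ContinuousLinearMap.ext fun _ => rfl)⟩

lemma LDf.lemb (h : LDf θ x) : Lemb θ x := by
  obtain ⟨L, hL⟩ := sldf_equiv h.1 (sldf_inj h)
  exact ⟨(h.1.toOpenPartialHomeomorph θ hL (by simp)).source,
    h.1.mem_toOpenPartialHomeomorph_source hL (by simp),
    lo_oph (h.1.toOpenPartialHomeomorph θ hL (by simp)),
    (h.1.toOpenPartialHomeomorph θ hL (by simp)).injOn⟩

lemma LDf.inj (h : LDf θ x) : Function.Injective (fderiv ℝ θ x) := by
  exact sldf_inj h

/-- The inverse function theorem. -/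
theorem ldf_of_inj (h : ContDiffAt ℝ ∞ θ x) (hi : Function.Injective (fderiv ℝ θ x)) :
    LDf θ x := by
  obtain ⟨L, hL⟩ := sldf_equiv h hi
  exact ⟨h, h.localInverse hL (by simp), h.to_localInverse hL (by simp),
    (h.hasStrictFDerivAt' hL (by simp)).eventually_left_inverse,
    (h.hasStrictFDerivAt' hL (by simp)).eventually_right_inverse⟩

theorem LDf.eventually (h : LDf θ x) (hs : ∀ᶠ z in 𝓝 x, ContDiffAt ℝ ∞ θ z) :
    ∀ᶠ z in 𝓝 x, LDf θ z := by
  filter_upwards [hs, (h.1.continuousAt_fderiv (by simp)).eventually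
    (ContinuousLinearMap.isOpen_injective.mem_nhds h.inj)] with z a b
  exact ldf_of_inj a b

/-- A global smooth two-sided inverse. -/
lemma ldf_of_inv (h : ContDiffAt ℝ ∞ θ x) (h' : ContDiffAt ℝ ∞ θ' (θ x)) (h1 : ∀ z, θ' (θ z) = z)
    (h2 : ∀ w, θ (θ' w) = w) : LDf θ x :=
  ⟨h, θ', h', .of_forall h1, .of_forall h2⟩

/-- A small smooth perturbation of the identity, fibrewise over a parameter. -/
theorem ldf_lip {g : ℂ × ℝ → ℂ} (hg : ContDiff ℝ ∞ g)
    (hl : ∀ y y' t, ‖g (y, t) - g (y', t)‖ ≤ 1 / 2 * ‖y - y'‖) (p : CC) :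
    LDf (fun p : CC => ((p.1 + g (p.1, p.2.im), p.2) : CC)) p := by
  have hs : ContDiff ℝ ∞ (fun p : CC => ((p.1 + g (p.1, p.2.im), p.2) : CC)) :=
    (contDiff_fst.add (hg.comp (contDiff_fst.prodMk (imCLM.contDiff.comp contDiff_snd)))).prodMk
      contDiff_snd
  refine ldf_of_inj hs.contDiffAt ((injective_iff_map_eq_zero _).2 fun v hv => ?_)
  have l : HasDerivAt (fun s : ℝ => p + s • v) v 0 := by
    simpa using ((hasDerivAt_id (0 : ℝ)).smul_const v).const_add p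
  have d : HasDerivAt (fun s : ℝ => (((p + s • v).1 + g ((p + s • v).1, (p + s • v).2.im),
      (p + s • v).2) : CC)) 0 0 := by
    have := HasFDerivAt.comp_hasDerivAt_of_eq (0 : ℝ)
      ((hs.differentiable (by simp)) p).hasFDerivAt l (by simp)
    rwa [hv] at this
  have b0 : v.2 = 0 := ((ContinuousLinearMap.snd ℝ ℂ ℂ).hasFDerivAt.comp_hasDerivAt 0 l).unique
    ((ContinuousLinearMap.snd ℝ ℂ ℂ).hasFDerivAt.comp_hasDerivAt 0 d)
  have d1 : HasDerivAt (fun s : ℝ => g (p.1 + s • v.1, p.2.im)) (0 - v.1) 0 := by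
    have := ((ContinuousLinearMap.fst ℝ ℂ ℂ).hasFDerivAt.comp_hasDerivAt 0 d).sub
      ((ContinuousLinearMap.fst ℝ ℂ ℂ).hasFDerivAt.comp_hasDerivAt 0 l)
    refine this.congr_of_eventuallyEq (.of_forall fun s => ?_)
    simp [b0]
  have d2 := d1.le_of_lip' (C := 1 / 2 * ‖v.1‖) (by positivity) (.of_forall fun s => by
    refine (hl _ _ _).trans (le_of_eq ?_)
    rw [zero_smul, add_zero, add_sub_cancel_left, norm_smul, sub_zero]
    ring)
  rw [zero_sub, norm_neg] at d2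
  exact Prod.ext (norm_eq_zero.1 (by linarith [norm_nonneg v.1])) b0

end Pool.Agent.Lib.MP_45bb13_gt
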