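import Pool.Agent.Lib.MP_45bb13_gt.Sm.Iso
import Pool.Agent.Lib.MP_45bb13_gt.Norm

/-! Smooth normal form of the choreography. -/

set_option linter.unusedSectionVars false

namespace Pool.Agent.Lib.MP_45bb13_gt

open Set Filter Topology Complex
open scoped ComplexConjugate

lemma snorm_rel (q : ℕ) (ξ' : Xi) (h : ∀ t, ξ'.f t = normXi.f ((2 * q + 1) * t)) :
    SRel (chB q) (bx ξ') := by
  have e0 : ∀ t, (chB q).b 0 t = fig ((2 * q + 1) * t) := fun t => by simp [chB]
  have e1 : ∀ t, (chB q).b 1 t = fig ((2 * q + 1) * t + 2 / 3) := fun t => by simp [chB]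
  have e2 : ∀ t, (chB q).b 2 t = fig ((2 * q + 1) * t + 4 / 3) := fun t => by
    simp only [chB]; norm_num
  have hd : ∀ t, (chB q).b 1 t - (chB q).b 0 t = dd ((2 * q + 1) * t + 1 / 3) := fun t => by
    rw [e0, e1, fig_sub]
  have hn : ∀ t, (chB q).b 1 t - (chB q).b 0 t ≠ 0 := fun t => hd t ▸ dd_ne _
  have hc := (chB q).cont
  refine srel_htpy _ _ (fun i p => ((1 - p.1) + p.1 * (2 / ((chB q).b 1 p.2 - (chB q).b 0 p.2))) *
    (chB q).b i p.2 - p.1 * (((chB q).b 0 p.2 + (chB q).b 1 p.2) /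
      ((chB q).b 1 p.2 - (chB q).b 0 p.2))) (fun i => ?_) (fun i t => by simp) (fun i t => ?_)
    (fun i s _ t => by simp [(chB q).eqv, map_ofNat]) fun s hs t i j e => ?_
  · have c0 : ∀ i, Continuous fun p : ℝ × ℝ => (chB q).b i p.2 := fun i =>
      (hc i).comp continuous_snd
    have c1 : Continuous fun p : ℝ × ℝ => (p.1 : ℂ) := continuous_ofReal.comp continuous_fst
    exact (((continuous_const.sub c1).add (c1.mul (continuous_const.div ((c0 1).sub (c0 0))
      fun p => hn _))).mul (c0 i)).sub (c1.mul (((c0 0).add (c0 1)).div ((c0 1).sub (c0 0))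
      fun p => hn _))
  · have := hn t
    fin_cases i
    · simp [bx]; field_simp; ring
    · simp [bx]; field_simp; ring
    · have h5 := norm_sum ((2 * q + 1) * t)
      rw [← e0, ← e1, ← e2] at h5
      simp only [bx, Fin.reduceFinMk, Matrix.cons_val, h, normXi, ← hd, ← e2, h5]
      push_cast
      field_simp
      ring
  · refine (chB q).inj t i j (mul_left_cancel₀ (fun h0 => ?_) (sub_left_injective e))
    have h1 : (1 - s) * dd ((2 * q + 1) * t + 1 / 3) + 2 * s = 0 := by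
      have := hn t
      rw [← hd]
      field_simp at h0
      linear_combination h0
    rw [norm_dd_eq] at h1
    have h2 := congrArg re h1
    have h3 := congrArg im h1
    have h4 : 0 < √3 := by positivity
    simp only [add_re, mul_re, sub_re, one_re, ofReal_re, sub_im, one_im, ofReal_im, re_ofNat,
      im_ofNat, add_im, mul_im, zero_re, zero_im] at h2 h3
    have h5 : (1 - s) * Real.sin (Real.pi * ((2 * q + 1) * t + 1 / 3)) = 0 :=
      mul_left_cancel₀ h4.ne' (by linarith)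
    rcases mul_eq_zero.1 h5 with h6 | h6
    · rw [h6] at h2; linarith
    · rw [h6] at h2
      have h7 : 1 < √3 := by rw [Real.lt_sqrt zero_le_one]; norm_num
      nlinarith [hs.1, hs.2]

theorem exists_sxi : ∃ ξ : Xi, 0 < (ξ.f 0).im ∧ (ξ.f (1 / 3)).im < 0 ∧ 0 < (ξ.f (2 / 3)).im ∧
    (∀ t ∈ Icc (0 : ℝ) (1 / 3), (ξ.f t).im = 0 → -1 < (ξ.f t).re ∧ (ξ.f t).re < 1) ∧
    (∀ t ∈ Icc (1 / 3 : ℝ) (2 / 3), (ξ.f t).im = 0 → (ξ.f t).re < -1) ∧
    (∀ t ∈ Icc (2 / 3 : ℝ) 1, (ξ.f t).im = 0 → 1 < (ξ.f t).re) ∧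
    ∀ (q : ℕ) (ξ' : Xi), (∀ t, ξ'.f t = ξ.f ((2 * q + 1) * t)) → SRel (chB q) (bx ξ') := by
  have h4 : 0 < √3 := by positivity
  have h3 : √3 * √3 = 3 := Real.mul_self_sqrt (by norm_num)
  have hp := Real.pi_pos
  refine ⟨normXi, ?_, ?_, ?_, fun t ht h => ?_, fun t ht h => ?_, fun t ht h => ?_, snorm_rel⟩
  · obtain ⟨D, h1, -, -, h2⟩ := norm_xi 0 (s := √3 / 2) (c := 1 / 2)
      (by rw [← Real.sin_pi_div_three]; congr 1; ring)
      (by rw [← Real.cos_pi_div_three]; congr 1; ring)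
    rw [h2]
    exact div_pos (mul_pos h4 (by nlinarith)) h1
  · obtain ⟨D, h1, -, -, h2⟩ := norm_xi (1 / 3) (s := √3 / 2) (c := -(1 / 2))
      (by rw [← Real.sin_pi_div_three, ← Real.sin_pi_sub]; congr 1; ring)
      (by rw [← Real.cos_pi_div_three, ← Real.cos_pi_sub]; congr 1; ring)
    rw [h2]
    exact div_neg_of_neg_of_pos (mul_neg_of_pos_of_neg h4 (by nlinarith)) h1
  · obtain ⟨D, h1, -, -, h2⟩ := norm_xi (2 / 3) (s := 0) (c := -1)
      (by rw [← Real.sin_pi]; congr 1; ring) (by rw [← Real.cos_pi]; congr 1; ring)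
    rw [h2]
    exact div_pos (mul_pos h4 (by norm_num)) h1
  · obtain ⟨D, h1, -, h5, h2⟩ := norm_xi t rfl rfl
    have h6 := Real.sin_sq_add_cos_sq (Real.pi * (t + 1 / 3))
    have h7 : Real.cos (Real.pi * (t + 1 / 3)) ≤ 1 / 2 := by
      rw [← Real.cos_pi_div_three]
      exact Real.cos_le_cos_of_nonneg_of_le_pi (by positivity) (by nlinarith [ht.2])
        (by nlinarith [ht.1])
    have h8 : -(1 / 2) ≤ Real.cos (Real.pi * (t + 1 / 3)) := by
      rw [← Real.cos_pi_div_three, ← Real.cos_pi_sub]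
      exact Real.cos_le_cos_of_nonneg_of_le_pi (by nlinarith [ht.1]) (by linarith)
        (by nlinarith [ht.2])
    rw [h2, div_eq_zero_iff, mul_eq_zero, mul_eq_zero] at h
    have h9 : Real.cos (Real.pi * (t + 1 / 3)) = 0 := by
      rcases h with (h | h | h) | h
      exacts [absurd h h4.ne', h, by nlinarith, absurd h h1.ne']
    rw [h5, h9]
    norm_num
  all_goals
    obtain ⟨D, h1, hD, h5, h2⟩ := norm_xi t rfl rfl
    have h6 := Real.sin_sq_add_cos_sq (Real.pi * (t + 1 / 3))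
    have h7 := norm_cos_le (x := t + 1 / 3) (by linarith [ht.1]) (by linarith [ht.2])
    rw [h2, div_eq_zero_iff, mul_eq_zero, mul_eq_zero] at h
    have h9 : Real.sin (Real.pi * (t + 1 / 3)) ^ 2 = 1 / 4 := by
      rcases h with (h | h | h) | h
      exacts [absurd h h4.ne', by linarith, by linarith, absurd h h1.ne']
    have h10 : 1 < √3 := by rw [Real.lt_sqrt zero_le_one]; norm_num
    rw [h5, hD, h9]
  · have h8 : 0 ≤ Real.sin (Real.pi * (t + 1 / 3)) :=
      Real.sin_nonneg_of_nonneg_of_le_pi (by nlinarith [ht.1]) (by nlinarith [ht.2])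
    have h11 : Real.sin (Real.pi * (t + 1 / 3)) = 1 / 2 := by nlinarith
    rw [h11, div_lt_iff₀ (by norm_num)]
    nlinarith
  · have h8 : Real.sin (Real.pi * (t + 1 / 3)) ≤ 0 := by
      rw [show Real.pi * (t + 1 / 3) = Real.pi * (t - 2 / 3) + Real.pi by ring, Real.sin_add_pi,
        neg_nonpos]
      exact Real.sin_nonneg_of_nonneg_of_le_pi (by nlinarith [ht.1]) (by nlinarith [ht.2])
    have h11 : Real.sin (Real.pi * (t + 1 / 3)) = -(1 / 2) := by nlinarith
    rw [h11, lt_div_iff₀ (by norm_num)]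
    nlinarith

end Pool.Agent.Lib.MP_45bb13_gt
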