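import Pool.Agent.Lib.MP_45bb13_gt.Sm.Ext
import Pool.Agent.Lib.MP_45bb13_gt.Sm.Belt
import Pool.Agent.Lib.MP_45bb13_gt.Sm.Glue

/-! The smooth double twist in a thin time slice. -/

set_option linter.unusedSectionVars false

namespace Pool.Agent.Lib.MP_45bb13_gt

open Set Filter Topology Complex
open scoped ComplexConjugate ContDiff

section aux

variable {m ρ δ : ℝ} {η : ℝ → ℝ} {G : Gg}

lemma stwa_le (hρ : 0 < ρ) (p : MM) : ‖p.1 - m‖ / ρ ≤ G.nr m ρ p :=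
  (twa_le_nrm p).trans (G.nrm_le m hρ p)

lemma stwa_open (G : Gg) : IsOpen (G.dom m ρ δ) :=
  (isOpen_lt twa_c1 continuous_const).and
    ((isOpen_lt twa_c2 continuous_const).and (isOpen_lt continuous_const (G.nr_cont m ρ)))

lemma stwa_compact :
    IsCompact {p : MM | ‖p.1 - m‖ ≤ ρ ∧ |p.2.2 - 1 / 2| ≤ δ / 2 ∧ 1 - δ / 2 ≤ G.nr m ρ p} := by
  refine ((isCompact_closedBall (m : ℂ) ρ).prod
    (isCompact_univ.prod (isCompact_closedBall (1 / 2 : ℝ) (δ / 2)))).of_isClosed_subset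
    ((isClosed_le twa_c1 continuous_const).and ((isClosed_le twa_c2 continuous_const).and
      (isClosed_le continuous_const (G.nr_cont m ρ)))) fun p hp => ⟨?_, trivial, ?_⟩
  · exact mem_closedBall_iff_norm.2 hp.1
  · exact mem_closedBall_iff_norm.2 hp.2.1

lemma stwa_smooth (hη : ContDiff ℝ ∞ η) (he : ∀ t, δ / 2 ≤ twaD t → ee (η t) = 1) {p : CC}
    (hp : ¬(‖p.1 - m‖ = ρ ∧ twaD p.2.im ≤ δ / 2)) :
    ContDiffAt ℝ ∞ (fun p : CC => ((twaR m ρ (η p.2.im) p.1, p.2) : CC)) p := by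
  refine ContDiffAt.prodMk ?_ contDiffAt_snd
  have hn : Continuous fun z : CC => ‖z.1 - m‖ := by fun_prop
  have hτ : Continuous fun z : CC => twaD z.2.im := twa_cont.comp (by fun_prop)
  by_cases h1 : δ / 2 < twaD p.2.im
  · refine contDiffAt_fst.congr_of_eventuallyEq ?_
    filter_upwards [(isOpen_lt continuous_const hτ).mem_nhds h1] with w hw
    exact twa_one (he _ (le_of_lt hw))
  rcases lt_trichotomy ‖p.1 - m‖ ρ with h | h | h
  · have : ContDiff ℝ ∞ fun z : CC => m + ee (η z.2.im) * (z.1 - m) :=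
      contDiff_const.add ((contDiff_ee.comp (hη.comp (imCLM.contDiff.comp contDiff_snd))).mul
        (contDiff_fst.sub contDiff_const))
    refine this.contDiffAt.congr_of_eventuallyEq ?_
    filter_upwards [(isOpen_lt hn continuous_const).mem_nhds h] with w hw
    exact twa_in hw
  · exact absurd ⟨h, not_lt.1 h1⟩ hp
  · refine contDiffAt_fst.congr_of_eventuallyEq ?_
    filter_upwards [(isOpen_lt continuous_const hn).mem_nhds h] with w hw
    exact twa_out (le_of_lt hw)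

lemma stwa_ldf (hη : ContDiff ℝ ∞ η) (he : ∀ t, δ / 2 ≤ twaD t → ee (η t) = 1) {p : CC}
    (hp : ¬(‖p.1 - m‖ = ρ ∧ twaD p.2.im ≤ δ / 2)) :
    LDf (fun p : CC => ((twaR m ρ (η p.2.im) p.1, p.2) : CC)) p := by
  refine ldf_of_inv (θ' := fun p : CC => ((twaR m ρ (-η p.2.im) p.1, p.2) : CC))
    (stwa_smooth hη he hp) (stwa_smooth (η := fun t => -η t) (δ := δ) hη.neg
      (fun t ht => by rw [ee_neg, he t ht, map_one]) ?_)
    (fun z => Prod.ext twa_left rfl) fun z => Prod.ext twa_right rfl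
  simpa only [twa_norm] using hp

end aux

theorem drel_twist_core {ι : Type} [Finite ι] (A A' : Br ι) (hA : A.Sm) (hA' : A'.Sm) (G : Gg)
    {m ρ δ : ℝ} {i₁ i₂ : ι} (hρ : 0 < ρ)
    (hδ : 0 < δ) (hδ' : δ < 1 / 8) (hd : ∀ i, δ < |‖A.b i (1 / 2) - m‖ - ρ|) {e : MM → A.X}
    (he : ∀ p ∈ G.dom m ρ δ, LD PM A.XP e p) (hi : InjOn e (G.dom m ρ δ))
    (hp : ∀ p ∈ G.dom m ρ δ, ρ - δ < ‖p.1 - m‖ → e p = A.prC p) {η : ℝ → ℝ} (hη : ContDiff ℝ ∞ η)
    (ho : ∀ t, η (t + 1) = -η t)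
    (e0 : ∀ t ∈ Icc (0 : ℝ) 1, δ / 2 ≤ |t - 1 / 2| → η t = 1 ∨ η t = -1)
    (hc : ∀ i, ∀ t ∈ Icc (3 / 8 : ℝ) (5 / 8), A.b i t = A.b i (1 / 2))
    (h1 : ∀ i, i = i₁ ∨ i = i₂ → ‖A.b i (1 / 2) - m‖ < ρ ∧
      ∀ t, A'.b i t = m + ee (η t) * (A.b i t - m))
    (h2 : ∀ i, i ≠ i₁ → i ≠ i₂ → ρ < ‖A.b i (1 / 2) - m‖ ∧ ∀ t, A'.b i t = A.b i t) :
    DRel A A' := by
  classical
  have hee : ∀ t, δ / 2 ≤ twaD t → ee (η t) = 1 := fun t => twa_ee ho e0
  have hn : ∀ i t, twaD t ≤ 1 / 8 → ‖A.b i t - m‖ = ‖A.b i (1 / 2) - m‖ := fun i t ht => by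
    obtain ⟨s, n, rfl, -, h3⟩ := twa_red t
    have h4 := abs_le.1 (h3 ▸ ht)
    rw [A.b_int, twa_norm_cj, hc i s ⟨by linarith, by linarith⟩]
  have hb : ∀ i t, A'.b i t = twaR m ρ (η t) (A.b i t) := fun i t => by
    by_cases hi' : i = i₁ ∨ i = i₂
    · rw [(h1 i hi').2]
      rcases le_total (δ / 2) (twaD t) with ht | ht
      · rw [twa_one (hee t ht), hee t ht]; ring
      · rw [twa_in (by rw [hn i t (by linarith)]; exact (h1 i hi').1)]
    · have h3 := h2 i (fun h => hi' (.inl h)) fun h => hi' (.inr h)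
      rw [h3.2]
      rcases le_total (δ / 2) (twaD t) with ht | ht
      · rw [twa_one (hee t ht)]
      · rw [twa_out (by rw [hn i t (by linarith)]; exact h3.1.le)]
  have hfar : ∀ i t (y : ℂ), twaD t ≤ 1 / 8 → δ - |‖y - m‖ - ρ| < ‖y - A.b i t‖ := by
    intro i t y ht
    have h3 := hd i
    rw [← hn i t ht] at h3
    have h4 := abs_norm_sub_norm_le (A.b i t - m) (y - m)
    rw [sub_sub_sub_cancel_right, norm_sub_rev (A.b i t) y] at h4
    have h5 := abs_sub_le ‖A.b i t - m‖ ‖y - m‖ ρ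
    linarith
  have hT : ∀ p : CC, p ∈ A.domT ↔ (twaR m ρ (η p.2.im) p.1, p.2) ∈ A'.domT := fun p => by
    refine forall_congr' fun i => not_congr ⟨fun h => ?_, fun h => ?_⟩
    · rw [hb, ← h]
    · have h3 : twaR m ρ (η p.2.im) p.1 = twaR m ρ (η p.2.im) (A.b i p.2.im) := h.trans (hb _ _)
      rw [← twa_left (m := m) (ρ := ρ) (c := η p.2.im) (y := p.1), h3, twa_left]
  have hSc : IsClosed {p : CC | ‖p.1 - m‖ = ρ ∧ twaD p.2.im ≤ δ / 2} :=
    twa_closed (τ := fun v : ℂ => twaD v.im) (twa_cont.comp continuous_im)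
  obtain ⟨Φ, hΦs, hΦt, hΦ⟩ := twa_oph (m := m) (ρ := ρ) continuous_im hη.continuous hee
    (A.isOpen_domT.sdiff hSc) (A'.isOpen_domT.sdiff hSc)
    (fun p => and_congr (hT p) (by simp only [mem_ofPred_eq, twa_norm])) fun p hp => hp.2
  have hm : 0 < |m| + ρ := by positivity
  obtain ⟨r, hr, hr1, hr2, hr3⟩ : ∃ r > 0, r ≤ δ / 2 ∧ r ≤ A.eps ∧ r ≤ (|m| + ρ)⁻¹ :=
    ⟨min (δ / 2) (min A.eps (|m| + ρ)⁻¹), lt_min (by positivity) (lt_min A.eps_pos (by positivity)),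
      min_le_left _ _, (min_le_right _ _).trans (min_le_left _ _),
      (min_le_right _ _).trans (min_le_right _ _)⟩
  obtain ⟨f, hfd, hfs, hft, hf⟩ := A.sextend A' hA' Φ
    (fun p hp => (stwa_ldf hη hee (hΦs ▸ hp).2).congr (.of_forall hΦ)) (hΦs ▸ sdiff_subset) (hΦt ▸ sdiff_subset)
    (fun g p hp => by
      rw [hΦs] at hp ⊢
      refine ⟨⟨(A.smul_domT g).2 hp.1, fun h => hp.2 ?_⟩, ?_⟩
      · simpa only [actT_def, mem_ofPred_eq, twa_norm_cj, twa_int] using h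
      · simp only [hΦ, actT_def, odd_int ho, twa_cj]) hr
    (fun i t => if i = i₁ ∨ i = i₂ then η t else 0)
    (fun i => by split_ifs; exacts [hη, contDiff_const])
    (fun i t => by split_ifs; exacts [ho t, neg_zero.symm])
    (fun i p hq => by
      have h3 : ‖p.1 - A.b i p.2.im‖ < r := hq.2
      refine ⟨hΦs ▸ ⟨A.near_domT hr2 hq, fun h => ?_⟩, ?_⟩
      · have h4 := hfar i p.2.im p.1 (by linarith [h.2])
        rw [h.1, sub_self, abs_zero] at h4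
        linarith
      rw [hΦ]
      refine Prod.ext ?_ rfl
      rcases le_total (δ / 2) (twaD p.2.im) with ht | ht
      · have h5 : ee (if i = i₁ ∨ i = i₂ then η p.2.im else 0) = 1 := by
          split_ifs
          exacts [hee _ ht, ee_zero]
        simp only [hb, twa_one (hee _ ht), h5]
        ring
      have h4 := abs_norm_sub_norm_le (p.1 - m) (A.b i p.2.im - m)
      rw [sub_sub_sub_cancel_right, hn i _ (by linarith)] at h4
      have h5 := abs_le.1 h4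
      have h6 := hd i
      by_cases hi' : i = i₁ ∨ i = i₂
      · rw [abs_of_neg (by linarith [(h1 i hi').1])] at h6
        simp only [if_pos hi', (h1 i hi').2, twa_in (show ‖p.1 - m‖ < ρ by linarith)]
        ring
      · have h7 := h2 i (fun h => hi' (.inl h)) fun h => hi' (.inr h)
        rw [abs_of_pos (by linarith [h7.1])] at h6
        simp only [if_neg hi', h7.2, twa_out (show ρ ≤ ‖p.1 - m‖ by linarith), ee_zero]
        ring)
    (fun p hq => by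
      have h3 : 0 < ‖p.1‖⁻¹ := hq.1
      have h4 : ‖p.1‖⁻¹ < (|m| + ρ)⁻¹ := lt_of_lt_of_le hq.2 hr3
      have h5 := (inv_lt_inv₀ (inv_pos.1 h3) hm).1 h4
      have h6 := norm_sub_norm_le p.1 (m : ℂ)
      rw [norm_real, Real.norm_eq_abs] at h6
      refine ⟨hΦs ▸ ⟨A.near_domT hr2 hq, fun h => by linarith [h.1]⟩, ?_⟩
      rw [hΦ, twa_out (by linarith)])
  have hKc : IsClosed {p : MM | ‖p.1 - m‖ = ρ ∧ |p.2.2 - 1 / 2| ≤ δ / 2} :=
    twa_closed (τ := fun v : UnitAddCircle × ℝ => |v.2 - 1 / 2|) (by fun_prop)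
  have hD : ∀ p q : MM, ‖p.1 - m‖ = ‖q.1 - m‖ → p.2 = q.2 →
      (p ∈ G.dom m ρ δ ↔ q ∈ G.dom m ρ δ) := fun p q h h' => by
    simp only [Gg.dom, mem_ofPred_eq, h, h', G.nr_congr h h']
  have hab : ∀ t : ℝ, |t - 1 / 2| < δ → twaD t = |t - 1 / 2| := fun t ht =>
    twa_abs (by linarith)
  obtain ⟨ψ, hψs, hψt, hψ⟩ := twa_oph (m := m) (ρ := ρ) (W := UnitAddCircle × ℝ) continuous_snd
    hη.continuous hee ((stwa_open G).sdiff hKc) ((stwa_open G).sdiff hKc)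
    (fun p => and_congr (hD _ _ twa_norm.symm rfl) (by simp only [mem_ofPred_eq, twa_norm]))
    fun p hp h => hp.2 ⟨h.1, hab _ hp.1.2.1 ▸ h.2⟩
  obtain ⟨φ, hφd, hφ1, hφ2, hφ3, hφ4⟩ := sbelt G m hρ (σ := 1 - δ / 2) (by linarith) (by linarith) hη
  obtain ⟨d, hd0, hd1, hd2⟩ : ∃ d > 0, d ≤ δ / 2 ∧ d ≤ δ / 2 * ρ :=
    ⟨_, lt_min (by positivity) (by positivity), min_le_left _ _, min_le_right _ _⟩
  have hUo : IsOpen {p : MM | |‖p.1 - m‖ - ρ| < d ∧ |p.2.2 - 1 / 2| < δ} :=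
    (isOpen_lt (twa_c1.sub continuous_const).abs continuous_const).and
      (isOpen_lt twa_c2 continuous_const)
  have hUD : {p : MM | |‖p.1 - m‖ - ρ| < d ∧ |p.2.2 - 1 / 2| < δ} ⊆ G.dom m ρ δ := fun p hq => by
    have h3 := abs_lt.1 hq.1
    refine ⟨by linarith, hq.2, lt_of_lt_of_le ?_ (stwa_le hρ p)⟩
    rw [lt_div_iff₀ hρ]
    nlinarith
  have hU' : ∀ p : MM, |‖p.1 - m‖ - ρ| < d → |p.2.2 - 1 / 2| < δ → ∀ i, p.1 ≠ A'.b i p.2.2 := by
    intro p h3 h4 i h5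
    have h6 := hd i
    rw [← hn i p.2.2 (by rw [hab _ h4]; linarith), ← twa_norm (ρ := ρ) (c := η p.2.2), ← hb,
      ← h5] at h6
    linarith
  have hKU : {p : MM | ‖p.1 - m‖ = ρ ∧ |p.2.2 - 1 / 2| ≤ δ / 2} ⊆
      {p : MM | |‖p.1 - m‖ - ρ| < d ∧ |p.2.2 - 1 / 2| < δ} := fun p hq =>
    ⟨by rw [hq.1, sub_self, abs_zero]; exact hd0, by linarith [hq.2]⟩
  have hlt : ∀ p : MM, G.nr m ρ p < 1 → ‖p.1 - m‖ < ρ := fun p h =>
    (div_lt_one hρ).1 ((stwa_le hρ p).trans_lt h)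
  have := A.t2
  have := A'.t2
  have hinj : InjOn A'.prC {p : MM | |‖p.1 - m‖ - ρ| < d ∧ |p.2.2 - 1 / 2| < δ} :=
    A'.injOn_prC.mono fun p hq => by
      have h3 := abs_lt.1 hq.2
      exact ⟨hU' p hq.1 hq.2, by linarith, by linarith⟩
  have hψd : ∀ p ∈ ψ.source, LD PM PM ψ p := fun p hq => by
    obtain ⟨q, rfl⟩ := cv_surj p
    rw [hψs] at hq
    refine ld_of_lift (stwa_ldf (m := m) (ρ := ρ) hη hee (p := q) fun h =>
      hq.2 ⟨h.1, (hab _ hq.1.2.1).symm.trans_le h.2⟩) (.of_forall fun z => ?_)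
    rw [hψ]
    rfl
  refine sglue good_PM hA.good hA'.good (stwa_open G) he hi hUo
    (fun p hq => A'.ld_prC (hU' p hq.1 hq.2)) hinj
    (stwa_compact (G := G) (m := m) (ρ := ρ) (δ := δ)) (fun p hq => ?_)
    (fun p hq => ?_) hKU hUD f hfd ?_ ?_ ψ hψd hψs hψt (fun p _ => ?_) (fun p hq => ?_) φ hφd
    (fun p => ?_) fun p hq => ?_
  · refine ⟨hq.1.le, hq.2, le_trans ?_ (stwa_le hρ p)⟩
    rw [hq.1, div_self hρ.ne']
    linarith
  · exact ⟨by linarith [hq.1], by linarith [hq.2.1], by linarith [hq.2.2]⟩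
  · rw [hfs, hΦs, twa_image A (by linarith) fun i t ht h => ?_]
    · exact congrArg _ (image_congr fun p hq =>
        (hp p (hUD (hKU hq)) (by linarith [hq.1])).symm)
    · have h3 := hd i
      rw [← hn i t (by linarith), h, sub_self, abs_zero] at h3
      linarith
  · rw [hft, hΦt, twa_image A' (by linarith) fun i t ht h => ?_]
    have h3 := hd i
    rw [← hn i t (by linarith), ← twa_norm (ρ := ρ) (c := η t), ← hb, h, sub_self, abs_zero] at h3
    linarith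
  · simp only [hψ, mem_ofPred_eq, twa_norm]
  · have h3 := abs_lt.1 hq.1.1
    have h4 := hab _ hq.1.2
    have h5 : ∀ i, r ≤ ‖p.1 - A.b i p.2.2‖ := fun i => by
      have := hfar i p.2.2 p.1 (by linarith [hq.1.2])
      linarith [hq.1.1]
    rw [hp p (hUD hq.1) (by linarith), hψ]
    refine (hf (p.1, ⟨(AddCircle.equivIco 1 0 p.2.1 : ℝ), p.2.2⟩)
      (hΦs ▸ ⟨fun i h => ?_, fun h => hq.2 ⟨h.1, h4 ▸ h.2⟩⟩) h5).trans (by rw [hΦ]; rfl)
    have h6 := h5 i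
    rw [show p.1 = A.b i p.2.2 from h, sub_self, norm_zero] at h6
    linarith
  · rcases le_or_gt 1 (G.nr m ρ p) with h | h
    · rw [hφ3 p (.inl h)]
    · have h3 := hlt p h
      have h4 := hlt (φ p) (by rwa [hφ2])
      simp only [Gg.dom, mem_ofPred_eq, hφ1, hφ2]
      exact and_congr_left' ⟨fun _ => by linarith, fun _ => by linarith⟩
  · rw [hψ]
    by_cases h3 : ‖p.1 - m‖ ≤ ρ
    swap
    · rw [twa_out (le_of_not_ge h3), hφ3 p (.inl (le_trans ?_ (stwa_le hρ p)))]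
      exact (one_le_div hρ).2 (le_of_not_ge h3)
    by_cases h4 : |p.2.2 - 1 / 2| ≤ δ / 2
    swap
    · have h5 := abs_lt.1 hq.1.2.1
      rw [twa_one (hee _ (by rw [hab _ hq.1.2.1]; exact le_of_not_ge h4)),
        hφ3 p (.inr (e0 _ ⟨by linarith, by linarith⟩ (le_of_not_ge h4)))]
    have h5 : G.nr m ρ p < 1 - δ / 2 := lt_of_not_ge fun h => hq.2 ⟨h3, h4, h⟩
    rw [hφ4 p h5.le, twa_in (hlt p (by linarith))]

end Pool.Agent.Lib.MP_45bb13_gt
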