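import Pool.Agent.Lib.MP_45bb13_gt.Sm.Iso
import Pool.Agent.Lib.MP_45bb13_gt.Sm.TwistA
import Pool.Agent.Lib.MP_45bb13_gt.Sm.Emb

/-! A double full twist of two strands does not change the smooth manifold. -/

set_option linter.unusedSectionVars false

namespace Pool.Agent.Lib.MP_45bb13_gt

open Set Filter Topology Complex
open scoped ComplexConjugate ContDiff

lemma stw_inj {ι : Type} (A : Br ι) {m ρ : ℝ} {i₁ i₂ : ι} {ζ : ℝ → ℝ}
    (ho : ∀ t, ζ (t + 1) = -ζ t) {ε : ℝ} (hε : ε = 1 ∨ ε = -1)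
    (e0 : ∀ t ∈ Icc (0 : ℝ) (3 / 8), ζ t = -ε) (e1 : ∀ t ∈ Icc (5 / 8 : ℝ) 1, ζ t = ε)
    (hc : ∀ i, ∀ t ∈ Icc (3 / 8 : ℝ) (5 / 8), A.b i t = A.b i (1 / 2))
    (h1 : ∀ i, i = i₁ ∨ i = i₂ → ‖A.b i (1 / 2) - m‖ < ρ)
    (h2 : ∀ i, i ≠ i₁ → i ≠ i₂ → ρ < ‖A.b i (1 / 2) - m‖) (t : ℝ) (i j : ι)
    (h : twist_b A m i₁ i₂ i (ζ t) t = twist_b A m i₁ i₂ j (ζ t) t) : i = j := by
  have he : ∀ k u, twist_b A m i₁ i₂ k (ζ (u + 1)) (u + 1) = conj (twist_b A m i₁ i₂ k (ζ u) u) :=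
    fun k u => by rw [ho, twist_eqv]
  have hf : ∀ k, twist_b A m i₁ i₂ k (ζ t) t =
      cj ⌊t⌋ (twist_b A m i₁ i₂ k (ζ (Int.fract t)) (Int.fract t)) := fun k => by
    have := eqv_int (f := fun u => twist_b A m i₁ i₂ k (ζ u) u) (he k) (Int.fract t) ⌊t⌋
    rwa [Int.fract_add_floor] at this
  rw [hf, hf] at h
  have h3 := congrArg (cj ⌊t⌋) h
  rw [cj_cj, cj_cj] at h3
  have u0 := Int.fract_nonneg t
  have u1 := (Int.fract_lt_one t).le
  generalize Int.fract t = u at h3 u0 u1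
  have hone : ∀ c : ℝ, c = 1 ∨ c = -1 → ∀ k, twist_b A m i₁ i₂ k c u = A.b k u := by
    intro c hc k
    have : ee c = 1 := by
      rcases hc with rfl | rfl
      · exact ee_one
      · rw [ee_neg, ee_one, map_one]
    unfold twist_b
    split_ifs
    · rw [this, one_mul, add_sub_cancel]
    · rfl
  rcases le_total u (3 / 8) with a | a
  · have hε' : -ε = 1 ∨ -ε = -1 := by rcases hε with rfl | rfl <;> simp
    rw [e0 u ⟨u0, a⟩, hone _ hε', hone _ hε'] at h3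
    exact A.inj u i j h3
  rcases le_total (5 / 8) u with b | b
  · rw [e1 u ⟨b, u1⟩, hone _ hε, hone _ hε] at h3
    exact A.inj u i j h3
  have hn : ∀ k k', (k = i₁ ∨ k = i₂) → ¬ (k' = i₁ ∨ k' = i₂) →
      m + ee (ζ u) * (A.b k u - m) ≠ A.b k' u := fun k k' hk hk' e => by
    have x1 := h1 k hk
    have x2 := h2 k' (not_or.1 hk').1 (not_or.1 hk').2
    rw [← hc k' u ⟨a, b⟩, ← e, add_sub_cancel_left, norm_mul, norm_ee, one_mul,
      hc k u ⟨a, b⟩] at x2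
    exact lt_asymm x1 x2
  unfold twist_b at h3
  split_ifs at h3 with p q q
  · exact A.inj u i j (sub_left_injective (mul_left_cancel₀ (ee_ne_zero _) (add_left_cancel h3)))
  · exact absurd h3 (hn i j p q)
  · exact absurd h3.symm (hn j i q p)
  · exact A.inj u i j h3

lemma stw_smooth {ι : Type} {A : Br ι} (hA : A.Sm) (m : ℝ) (i₁ i₂ i : ι) {c : ℝ → ℝ}
    (hc : ContDiff ℝ ∞ c) : ContDiff ℝ ∞ fun t => twist_b A m i₁ i₂ i (c t) t := by
  unfold twist_b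
  split_ifs
  · exact contDiff_const.add ((contDiff_ee.comp hc).mul ((hA i).sub contDiff_const))
  · exact hA i

theorem srel_twist0 {ι : Type} [Finite ι] (A A' : Br ι) (hA : A.Sm) {m ρ : ℝ} {i₁ i₂ : ι}
    (h12 : i₁ ≠ i₂) {η : ℝ → ℝ} (hη : Continuous η) (ho : ∀ t, η (t + 1) = -η t)
    {ε : ℝ} (hε : ε = 1 ∨ ε = -1) (e0 : ∀ t ∈ Icc (0 : ℝ) (3 / 8), η t = -ε)
    (e1 : ∀ t ∈ Icc (5 / 8 : ℝ) 1, η t = ε)
    (hc : ∀ i, ∀ t ∈ Icc (3 / 8 : ℝ) (5 / 8), A.b i t = A.b i (1 / 2))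
    (k1 : ∀ i, i = i₁ ∨ i = i₂ → ‖A.b i (1 / 2) - m‖ < ρ)
    (k2 : ∀ i, i ≠ i₁ → i ≠ i₂ → ρ < ‖A.b i (1 / 2) - m‖)
    (h1 : ∀ i t, A'.b i t = twist_b A m i₁ i₂ i (η t) t) : SRel A A' := by
  have hρ : 0 < ρ := (norm_nonneg _).trans_lt (k1 i₁ (Or.inl rfl))
  obtain ⟨δ, hδ, hδ', hd, e, he, hi, hp⟩ :=
    A.exists_semb hA h12 hc (k1 i₁ (Or.inl rfl)) (k1 i₂ (Or.inr rfl)) k2
  obtain ⟨G, hG⟩ := exists_gg_dom m hρ hδ (by linarith)
  obtain ⟨ζ, zs, zo, z0, z1⟩ := exists_odd_smooth (half_pos hδ) ε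
  have zc := zs.continuous
  have z0' : ∀ t ∈ Icc (0 : ℝ) (3 / 8), ζ t = -ε := fun t ht => z0 t ht.1 (by linarith [ht.2])
  have z1' : ∀ t ∈ Icc (5 / 8 : ℝ) 1, ζ t = ε := fun t ht => z1 t ht.2 (by linarith [ht.1])
  let A'' : Br ι := ⟨fun i t => twist_b A m i₁ i₂ i (ζ t) t,
    fun i => twist_cont A m i₁ i₂ i zc continuous_id, fun i t => by rw [zo, twist_eqv],
    stw_inj A zo hε z0' z1' hc k1 k2⟩
  have hA'' : A''.Sm := fun i => stw_smooth hA m i₁ i₂ i zs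
  have r1 : DRel A A'' := by
    refine drel_twist_core A A'' hA hA'' G (i₁ := i₁) (i₂ := i₂) hρ (half_pos hδ) (by linarith)
      (fun i => lt_trans (by linarith) (hd i)) (fun p h => he p (hG h)) (hi.mono hG)
      (fun p h h' => hp p (hG h) (by linarith)) zs zo
      (fun t ht h => ?_) hc (fun i h => ⟨k1 i h, fun t => if_pos h⟩)
      fun i h h' => ⟨k2 i h h', fun t => if_neg (not_or.2 ⟨h, h'⟩)⟩
    rcases le_abs.1 h with h | h
    · rw [z1 t ht.2 (by linarith)]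
      exact hε
    · rw [z0 t ht.1 (by linarith)]
      rcases hε with rfl | rfl <;> simp
  refine (r1.srel hA hA'').trans (srel_htpy A'' A'
    (fun i p => twist_b A m i₁ i₂ i ((1 - p.1) * ζ p.2 + p.1 * η p.2) p.2)
    (fun i => twist_cont A m i₁ i₂ i (by fun_prop) continuous_snd) (fun i t => ?_) (fun i t => ?_)
    (fun i s _ t => ?_) fun s _ t i j h => ?_)
  · simp only [sub_zero, one_mul, zero_mul, add_zero]
    rfl
  · simp only [sub_self, one_mul, zero_mul, zero_add, h1]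
  · simp only
    rw [← twist_eqv, zo, ho]
    congr 1
    ring
  · refine stw_inj A (ζ := fun t => (1 - s) * ζ t + s * η t) (fun t => ?_) hε (fun t ht => ?_)
      (fun t ht => ?_) hc k1 k2 t i j h
    · simp only [zo, ho]
      ring
    · simp only [z0' t ht, e0 t ht]
      ring
    · simp only [z1' t ht, e1 t ht]
      ring

theorem srel_twist {ι : Type} [Finite ι] (A A' : Br ι) {m ρ : ℝ} {i₁ i₂ : ι} (h12 : i₁ ≠ i₂)
    {η : ℝ → ℝ} (hη : Continuous η) (ho : ∀ t, η (t + 1) = -η t)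
    {ε : ℝ} (hε : ε = 1 ∨ ε = -1) (e0 : ∀ t ∈ Icc (0 : ℝ) (1 / 4), η t = -ε)
    (e1 : ∀ t ∈ Icc (3 / 4 : ℝ) 1, η t = ε)
    (hc : ∀ i, ∀ t ∈ Icc (1 / 4 : ℝ) (3 / 4), A.b i t = A.b i (1 / 2))
    (h1 : ∀ i, i = i₁ ∨ i = i₂ → ‖A.b i (1 / 2) - m‖ < ρ ∧
      ∀ t, A'.b i t = m + ee (η t) * (A.b i t - m))
    (h2 : ∀ i, i ≠ i₁ → i ≠ i₂ → ρ < ‖A.b i (1 / 2) - m‖ ∧ ∀ t, A'.b i t = A.b i t) :
    SRel A A' := by
  have k1 := fun i hi => (h1 i hi).1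
  have k2 := fun i hi hi' => (h2 i hi hi').1
  obtain ⟨ζ, zc, zo, z0, z1⟩ := twist_exists (δ := 1 / 4) (by norm_num) ε
  have z0' : ∀ t ∈ Icc (0 : ℝ) (3 / 8), ζ t = -ε := fun t ht => z0 t ht.1 (by linarith [ht.2])
  have z1' : ∀ t ∈ Icc (5 / 8 : ℝ) 1, ζ t = ε := fun t ht => z1 t ht.2 (by linarith [ht.1])
  have y0 : ∀ t ∈ Icc (0 : ℝ) (1 / 4), ζ t = -ε := fun t ht => z0 t ht.1 (by linarith [ht.2])
  have y1 : ∀ t ∈ Icc (3 / 4 : ℝ) 1, ζ t = ε := fun t ht => z1 t ht.2 (by linarith [ht.1])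
  let A'' : Br ι := ⟨fun i t => twist_b A m i₁ i₂ i (ζ t) t,
    fun i => twist_cont A m i₁ i₂ i zc continuous_id, fun i t => by rw [zo, twist_eqv],
    twist_inj A zo hε y0 y1 hc k1 k2⟩
  obtain ⟨δ₁, d1, c1⟩ := srel_close A
  obtain ⟨δ₂, d2, c2⟩ := srel_close A''
  obtain ⟨C, hC, hcl, hk⟩ := A.exists_apx (lt_min d1 d2)
  have hk1 := hk hc
  have hk2 : ∀ i, C.b i (1 / 2) = A.b i (1 / 2) := fun i => hk1 i _ ⟨by norm_num, by norm_num⟩
  have hk3 : ∀ i, ∀ t ∈ Icc (3 / 8 : ℝ) (5 / 8), C.b i t = C.b i (1 / 2) := fun i t ht => by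
    rw [hk1 i t ht, hk2]
  have l1 : ∀ i, i = i₁ ∨ i = i₂ → ‖C.b i (1 / 2) - m‖ < ρ := fun i h => by
    rw [hk2]
    exact k1 i h
  have l2 : ∀ i, i ≠ i₁ → i ≠ i₂ → ρ < ‖C.b i (1 / 2) - m‖ := fun i h h' => by
    rw [hk2]
    exact k2 i h h'
  let C'' : Br ι := ⟨fun i t => twist_b C m i₁ i₂ i (ζ t) t,
    fun i => twist_cont C m i₁ i₂ i zc continuous_id, fun i t => by rw [zo, twist_eqv],
    stw_inj C zo hε z0' z1' hk3 l1 l2⟩
  have r1 : SRel A C := c1 C fun i t => (hcl i t).trans_le (min_le_left _ _)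
  have r2 : SRel C C'' := srel_twist0 C C'' hC h12 zc zo hε z0' z1' hk3 l1 l2 fun _ _ => rfl
  have r3 : SRel A'' C'' := c2 C'' fun i t => by
    refine lt_of_le_of_lt (le_of_eq ?_) ((hcl i t).trans_le (min_le_right _ _))
    show ‖twist_b C m i₁ i₂ i (ζ t) t - twist_b A m i₁ i₂ i (ζ t) t‖ = _
    unfold twist_b
    split_ifs
    · rw [add_sub_add_left_eq_sub, ← mul_sub, sub_sub_sub_cancel_right, norm_mul, norm_ee, one_mul]
    · rfl
  refine ((r1.trans r2).trans r3.symm).trans (srel_htpy A'' A'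
    (fun i p => twist_b A m i₁ i₂ i ((1 - p.1) * ζ p.2 + p.1 * η p.2) p.2)
    (fun i => twist_cont A m i₁ i₂ i (by fun_prop) continuous_snd) (fun i t => ?_) (fun i t => ?_)
    (fun i s _ t => ?_) fun s _ t i j h => ?_)
  · simp only [sub_zero, one_mul, zero_mul, add_zero]
    rfl
  · simp only [sub_self, one_mul, zero_mul, zero_add, twist_b]
    split_ifs with h
    · exact ((h1 i h).2 t).symm
    · exact ((h2 i (not_or.1 h).1 (not_or.1 h).2).2 t).symm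
  · simp only
    rw [← twist_eqv, zo, ho]
    congr 1
    ring
  · refine twist_inj A (ζ := fun t => (1 - s) * ζ t + s * η t) (fun t => ?_) hε (fun t ht => ?_)
      (fun t ht => ?_) hc k1 k2 t i j h
    · simp only [zo, ho]
      ring
    · simp only [y0 t ht, e0 t ht]
      ring
    · simp only [y1 t ht, e1 t ht]
      ring

end Pool.Agent.Lib.MP_45bb13_gt
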