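import Pool.Agent.Lib.MP_45bb13_gt.Sm.Ins
import Pool.Agent.Lib.MP_45bb13_gt.Sm.Norm
import Pool.Agent.Lib.MP_45bb13_gt.Word

/-! The manifolds of the accelerated choreographies are diffeomorphic. -/

set_option linter.unusedSectionVars false

namespace Pool.Agent.Lib.MP_45bb13_gt

open Set Filter Topology Complex
open scoped ComplexConjugate

namespace WordAux

open Pool.Agent.Lib.MP_a25f44_gt.H43

/-- The relation between classes. -/
def SRR (x : UU) (g g' : Pi1 x0) : Prop := ∀ ξ ξ' : Xi, ξ.f 0 = x.1 → ξ'.f 0 = x.1 →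
  cc ξ.f = g → cc ξ'.f = g' → SRel (bx ξ) (bx ξ')

theorem SRR.refl (x : UU) (g : Pi1 x0) : SRR x g g := by
  intro ξ ξ' h h' e e'
  obtain ⟨γ, hγ⟩ := exists_path ξ h
  obtain ⟨γ', hγ'⟩ := exists_path ξ' h'
  refine srel_of_homotopic (Path.Homotopic.Quotient.eq.1 (cl_inj ?_)) hγ hγ'
  rw [← (ext_spec hγ).2, ← (ext_spec hγ').2, e, e']

theorem SRR.symm {x : UU} {g g' : Pi1 x0} (h : SRR x g g') : SRR x g' g :=
  fun ξ ξ' a b c d => (h ξ' ξ b a d c).symm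

theorem SRR.trans {x : UU} {g g' g'' : Pi1 x0} (h : SRR x g g') (h' : SRR x g' g'') : SRR x g g'' := by
  intro ξ ξ'' a b c d
  obtain ⟨ξ', e1, e2⟩ := exists_cls x g'
  exact (h ξ ξ' a e1 c e2).trans (h' ξ' ξ'' e1 b e2 d)

/-- The classes that can be inserted freely. -/
def SHH (x : UU) : Subgroup (Pi1 x0) where
  carrier := {h | ∀ g g', SRR x (g * g') (g * h * g')}
  one_mem' := fun g g' => by
    rw [mul_one]
    exact SRR.refl _ _
  mul_mem' := fun {a b} ha hb g g' => by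
    refine (ha g g').trans ?_
    rw [← mul_assoc]
    exact hb (g * a) g'
  inv_mem' := fun {a} ha g g' => by
    have := (ha (g * a⁻¹) g').symm
    rwa [inv_mul_cancel_right] at this

theorem SHH_conj {x : UU} {a : Pi1 x0} (ha : a ∈ SHH x) (b : Pi1 x0) : b * a * b⁻¹ ∈ SHH x := by
  intro g g'
  have := ha (g * b) (b⁻¹ * g')
  rw [show g * b * (b⁻¹ * g') = g * g' by group,
    show g * b * a * (b⁻¹ * g') = g * (b * a * b⁻¹) * g' by group] at this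
  exact this

theorem ssq_mem (x : UU) {y : UU} (ℓ : Path y y) {m : ℝ}
    (hm : (m = -1 ∧ ‖y.1 + 1‖ < 2) ∨ (m = 1 ∧ ‖y.1 - 1‖ < 2) ∨ (m = 0 ∧ 1 < ‖y.1‖))
    (hl : ∀ t : unitInterval, (ℓ t).1 = m + ee t * (y.1 - m)) :
    cl x0 (Path.Homotopic.Quotient.mk ℓ) * cl x0 (Path.Homotopic.Quotient.mk ℓ) ∈ SHH x := by
  intro g g' ξ ξ' a b c d
  obtain ⟨α, hα⟩ := cl_surj x y g
  obtain ⟨β, hβ⟩ := cl_surj y x.bar g'
  obtain ⟨ξ1, h1⟩ := exists_ext (α.trans β)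
  obtain ⟨ξ2, h2⟩ := exists_ext ((α.trans ℓ).trans (ℓ.trans β))
  refine (SRR.refl x _ ξ ξ1 a (ext_spec h1).1 c ?_).trans
    ((srel_insert α β ℓ hm hl h1 h2).trans (SRR.refl x _ ξ2 ξ' (ext_spec h2).1 b ?_ d))
  · rw [(ext_spec h1).2, Path.Homotopic.Quotient.mk_trans, cl_trans, hα, hβ]
  · rw [(ext_spec h2).2]
    simp only [Path.Homotopic.Quotient.mk_trans, cl_trans, hα, hβ, mul_assoc]

theorem sround_mem (x : UU) {φ ψ : ℂ → Pi1 x0} {J J' : Set ℝ} {L L' : Pi1 x0} (h : Letter φ ψ J L)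
    (h' : Letter φ ψ J' L') {m ρ : ℝ} (hρ : 0 < ρ) (hJ : m - ρ ∈ J) (hJ' : m + ρ ∈ J')
    (hn : m - ρ ≠ 1 ∧ m - ρ ≠ -1 ∧ m + ρ ≠ 1 ∧ m + ρ ≠ -1)
    (hm : (m = -1 ∧ ρ < 2) ∨ (m = 1 ∧ ρ < 2) ∨ (m = 0 ∧ 1 < ρ)) :
    L * L'⁻¹ * (L * L'⁻¹) ∈ SHH x := by
  set f : ℝ → ℂ := fun t => m + ee t * (ρ * I) with hf
  have hc : Continuous f := by fun_prop
  have him : ∀ t, (f t).im = ρ * Real.cos (2 * Real.pi * t) := by
    intro t
    simp [hf, ee_re, mul_comm]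
  have hre : ∀ t, (f t).re = m - ρ * Real.sin (2 * Real.pi * t) := by
    intro t
    simp [hf, ee_im, mul_comm, sub_eq_add_neg]
  have hsin : ∀ t, (f t).im = 0 →
      Real.sin (2 * Real.pi * t) = 1 ∨ Real.sin (2 * Real.pi * t) = -1 := by
    intro t ht
    rw [him, mul_eq_zero, or_iff_right hρ.ne'] at ht
    have := Real.sin_sq_add_cos_sq (2 * Real.pi * t)
    rw [ht] at this
    exact sq_eq_one_iff.1 (by linarith)
  have hU : ∀ t, f t ≠ 1 ∧ f t ≠ -1 := by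
    intro t
    by_cases ht : (f t).im = 0
    · have h1 := hre t
      constructor <;> intro e <;> rw [e] at h1 <;> rcases hsin t ht with s | s <;>
        rw [s] at h1 <;> simp at h1
      · exact hn.1 h1.symm
      · exact hn.2.2.1 h1.symm
      · exact hn.2.1 h1.symm
      · exact hn.2.2.2 h1.symm
    · exact ne_of_im ht
  have f0 : f 0 = m + ρ * I := by simp [hf, ee_zero]
  have f1 : f 1 = f 0 := by simp [hf, ee_zero, ee_one]
  have i0 : 0 < (f 0).im := by rw [him]; simpa using hρ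
  have i1 : (f (1 / 2)).im < 0 := by
    rw [him, show 2 * Real.pi * (1 / 2) = Real.pi by ring]
    simpa using hρ
  have hpi := Real.pi_pos
  have e1 := (h.pc hc (a := 0) (b := 1 / 2) (by norm_num) fun t ht h0 => by
    have hs : 0 ≤ Real.sin (2 * Real.pi * t) :=
      Real.sin_nonneg_of_nonneg_of_le_pi (by nlinarith [ht.1]) (by nlinarith [ht.2])
    rcases hsin t h0 with s | s
    · rwa [hre, s, mul_one]
    · linarith).1 i0 i1
  have e2 := (h'.pc hc (a := 1 / 2) (b := 1) (by norm_num) fun t ht h0 => by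
    have hs : 0 ≤ Real.sin (2 * Real.pi * t - Real.pi) :=
      Real.sin_nonneg_of_nonneg_of_le_pi (by nlinarith [ht.1]) (by nlinarith [ht.2])
    rw [Real.sin_sub_pi] at hs
    rcases hsin t h0 with s | s
    · linarith
    · rwa [hre, s, mul_neg, mul_one, sub_neg_eq_add]).2 i1 (by rwa [f1])
  have e3 := pc_mul hc hU 0 (1 / 2) 1
  rw [e1, e2, pc_zero_one, f1] at e3
  let y : UU := ⟨f 0, hU 0⟩
  let ℓ : Path y y := ⟨⟨fun t => ⟨f t, hU t⟩, (hc.comp continuous_subtype_val).subtype_mk _⟩, rfl,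
    Subtype.ext f1⟩
  have hy : y.1 = m + ρ * I := f0
  have key := ssq_mem x ℓ (m := m) (by
    rcases hm with ⟨rfl, h2⟩ | ⟨rfl, h2⟩ | ⟨rfl, h2⟩
    · exact Or.inl ⟨rfl, by simpa [hy, abs_of_pos hρ, add_comm] using h2⟩
    · exact Or.inr (Or.inl ⟨rfl, by simpa [hy, abs_of_pos hρ] using h2⟩)
    · exact Or.inr (Or.inr ⟨rfl, by simpa [hy, abs_of_pos hρ] using h2⟩)) fun t => by
      rw [hy, add_sub_cancel_left]
      rfl
  rw [← cc_path ℓ (γ := f) fun t => rfl, ← e3] at key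
  have := SHH_conj key (φ (f 0))
  convert this using 1
  group

end WordAux

open WordAux in
theorem srel_speed (ξ : Xi) (h0 : 0 < (ξ.f 0).im) (h1 : (ξ.f (1 / 3)).im < 0)
    (h2 : 0 < (ξ.f (2 / 3)).im)
    (h3 : ∀ t ∈ Icc (0 : ℝ) (1 / 3), (ξ.f t).im = 0 → -1 < (ξ.f t).re ∧ (ξ.f t).re < 1)
    (h4 : ∀ t ∈ Icc (1 / 3 : ℝ) (2 / 3), (ξ.f t).im = 0 → (ξ.f t).re < -1)
    (h5 : ∀ t ∈ Icc (2 / 3 : ℝ) 1, (ξ.f t).im = 0 → 1 < (ξ.f t).re) (q : ℕ) :
    ∃ ξ' : Xi, (∀ t, ξ'.f t = ξ.f ((2 * q + 1) * t)) ∧ SRel (bx ξ') (bx ξ) := by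
  have hU : ∀ t, ξ.f t ≠ 1 ∧ ξ.f t ≠ -1 := fun t => ⟨ξ.ne1 t, ξ.ne2 t⟩
  have hper : ∀ t, ξ.f (t + 2) = ξ.f t := by
    intro t
    rw [show t + 2 = t + 1 + 1 by ring, ξ.eqv, ξ.eqv, conj_conj]
  have hodd : ∀ (n : ℕ) (t : ℝ), ξ.f (t + (2 * n + 1)) = conj (ξ.f t) := by
    intro n t
    induction n with
    | zero => simpa using ξ.eqv t
    | succ n ih =>
      rw [← ih, ← hper (t + (2 * n + 1))]
      congr 1
      push_cast
      ring
  let x : UU := ⟨ξ.f 0, hU 0⟩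
  obtain ⟨φ, hφ⟩ := exists_up
  obtain ⟨ψ, hψ⟩ := exists_down
  obtain ⟨Ll, hl⟩ := exists_letter hφ hψ (convex_Iio (-1 : ℝ)) (c := -2) (by norm_num) (by norm_num)
    (by norm_num)
  obtain ⟨Lm, hm⟩ := exists_letter hφ hψ (convex_Ioo (-1 : ℝ) 1) (c := 0) (by norm_num)
    (by norm_num) (by norm_num)
  obtain ⟨Lr, hr⟩ := exists_letter hφ hψ (convex_Ioi (1 : ℝ)) (c := 2) (by norm_num) (by norm_num)
    (by norm_num)
  have ha := sround_mem x hl hm (m := -1) (ρ := 1) one_pos (by norm_num) (by norm_num)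
    (by norm_num) (by norm_num)
  have hb := sround_mem x hm hr (m := 1) (ρ := 1) one_pos (by norm_num) (by norm_num)
    (by norm_num) (by norm_num)
  have hc := sround_mem x hl hr (m := 0) (ρ := 2) two_pos (by norm_num) (by norm_num)
    (by norm_num) (by norm_num)
  have him : ∀ t, (ξ.f (t + 1)).im = -(ξ.f t).im := fun t => by rw [ξ.eqv, conj_im]
  have hre : ∀ t, (ξ.f (t + 1)).re = (ξ.f t).re := fun t => by rw [ξ.eqv, conj_re]
  have sh : ∀ {J : Set ℝ} {a b : ℝ}, (∀ t ∈ Icc a b, (ξ.f t).im = 0 → (ξ.f t).re ∈ J) →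
      ∀ t ∈ Icc (a + 1) (b + 1), (ξ.f t).im = 0 → (ξ.f t).re ∈ J := by
    intro J a b h t ht hi
    obtain ⟨s, rfl⟩ : ∃ s, t = s + 1 := ⟨t - 1, by ring⟩
    rw [him, neg_eq_zero] at hi
    rw [hre]
    exact h s ⟨by linarith [ht.1], by linarith [ht.2]⟩ hi
  have i3 : (ξ.f (0 + 1)).im < 0 := by rw [him]; linarith
  have i4 : 0 < (ξ.f (1 / 3 + 1)).im := by rw [him]; linarith
  have i5 : (ξ.f (2 / 3 + 1)).im < 0 := by rw [him]; linarith
  have i3' : (ξ.f 1).im < 0 := by simpa using i3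
  have f2 : ξ.f (1 + 1) = ξ.f 0 := by rw [← hper 0]; norm_num
  have e1 := (hm.pc ξ.cont (by norm_num) h3).1 h0 h1
  have e2 := (hl.pc ξ.cont (by norm_num) h4).2 h1 h2
  have e3 := (hr.pc ξ.cont (by norm_num) h5).1 h2 i3'
  have e4 := (hm.pc ξ.cont (by norm_num) (sh h3)).2 i3 i4
  have e5 := (hl.pc ξ.cont (by norm_num) (sh h4)).1 i4 i5
  have e6 := (hr.pc ξ.cont (by norm_num) (sh h5)).2 i5 (by rwa [f2])
  rw [zero_add] at e4
  have hw : pc ξ.f 0 (1 + 1) ∈ SHH x := by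
    rw [← pc_mul ξ.cont hU 0 (1 / 3), ← pc_mul ξ.cont hU (1 / 3) (2 / 3),
      ← pc_mul ξ.cont hU (2 / 3) 1, ← pc_mul ξ.cont hU 1 (1 / 3 + 1),
      ← pc_mul ξ.cont hU (1 / 3 + 1) (2 / 3 + 1), e1, e2, e3, e4, e5, e6, f2]
    have := SHH_conj ((SHH x).mul_mem ((SHH x).mul_mem ((SHH x).inv_mem ha)
      (SHH_conj ((SHH x).inv_mem hb) (Ll * Lm⁻¹))) hc) (φ (ξ.f 0))⁻¹
    convert this using 1
    group
  have hq : ∀ n : ℕ, ∃ h ∈ SHH x, pc ξ.f 0 (2 * n + 1) = h * pc ξ.f 0 1 := by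
    intro n
    induction n with
    | zero => exact ⟨1, (SHH x).one_mem, by simp⟩
    | succ n ih =>
      obtain ⟨h, hh, e⟩ := ih
      refine ⟨_, (SHH x).mul_mem hw hh, ?_⟩
      rw [← pc_mul ξ.cont hU 0 (1 + 1), mul_assoc, ← e]
      congr 1
      unfold pc
      congr 1
      funext s
      rw [← hper (0 + _)]
      congr 1
      push_cast
      ring
  let ξ' : Xi := ⟨fun t => ξ.f ((2 * q + 1) * t), ξ.cont.comp (by fun_prop), fun t => by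
    rw [mul_add, mul_one, hodd], fun t => ξ.ne1 _, fun t => ξ.ne2 _⟩
  refine ⟨ξ', fun t => rfl, ?_⟩
  obtain ⟨h, hh, e⟩ := hq q
  refine (hh 1 (pc ξ.f 0 1) ξ ξ' rfl (by simp [ξ', x]) (by rw [one_mul, pc_zero_one]) ?_).symm
  rw [one_mul, ← e, pc]
  congr 1
  funext s
  simp [ξ', mul_comm]

theorem srel_ch (q : ℕ) : SRel (chB q) (chB 0) := by
  obtain ⟨ξ, h0, h1, h2, h3, h4, h5, h6⟩ := exists_sxi
  obtain ⟨ξ', e1, e2⟩ := srel_speed ξ h0 h1 h2 h3 h4 h5 q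
  exact ((h6 q ξ' e1).trans e2).trans (h6 0 ξ fun t => by simp).symm

end Pool.Agent.Lib.MP_45bb13_gt
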